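import Pool.Agent.N213.BM.Stm

/-! # Project BM: orbit closures and continuous functions (helper823, after `N213/QP/Clo.lean`) -/

set_option autoImplicit false

namespace Pool.Agent.N213.BM

open Finset Filter Topology

namespace CloX

/-- a continuous function on `ℕ → Bool` is almost a function of finitely many coordinates -/
theorem approx (φ : (ℕ → Bool) → ℂ) (hφ : Continuous φ) (ε : ℝ) (hε : 0 < ε) :
    ∃ H : ℕ, ∀ y z : ℕ → Bool, (∀ i < H, y i = z i) → ‖φ y - φ z‖ ≤ ε := by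
  by_contra hc
  push Not at hc
  choose y z hyz hd using hc
  obtain ⟨a, f, hf, ha⟩ := CompactSpace.tendsto_subseq y
  have hz : Tendsto (z ∘ f) atTop (𝓝 a) := by
    rw [tendsto_pi_nhds] at ha ⊢
    intro i
    refine (ha i).congr' ?_
    filter_upwards [eventually_gt_atTop i] with k hk
    exact hyz (f k) i (lt_of_lt_of_le hk (hf.id_le k))
  have h1 : Tendsto (fun k => ‖φ (y (f k)) - φ (z (f k))‖) atTop (𝓝 0) := by
    have h2 := (((hφ.tendsto a).comp ha).sub ((hφ.tendsto a).comp hz)).norm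
    rw [sub_self, norm_zero] at h2
    exact h2
  have h3 := h1.eventually_lt_const hε
  obtain ⟨k, hk⟩ := h3.exists
  exact absurd (hd (f k)) (not_lt.2 hk.le)

theorem bdd (φ : (ℕ → Bool) → ℂ) (hφ : Continuous φ) : ∃ M : ℝ, 0 < M ∧ ∀ y, ‖φ y‖ ≤ M := by
  obtain ⟨C, hC⟩ := (isCompact_univ (X := ℕ → Bool)).exists_bound_of_continuousOn hφ.continuousOn
  exact ⟨max C 1, lt_max_of_lt_right one_pos, fun y => (hC y (Set.mem_univ y)).trans (le_max_left _ _)⟩

theorem mem_cl (x : ℕ → Bool) (s : ℕ → ℕ → Bool) (hx : x ∈ closure (Set.range s)) (M : ℕ) :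
    ∃ c, ∀ k < M, x k = s c k := by
  rw [mem_closure_iff] at hx
  have ho : IsOpen {y : ℕ → Bool | ∀ k ∈ range M, y k = x k} := by
    have : {y : ℕ → Bool | ∀ k ∈ range M, y k = x k} = ⋂ k ∈ range M, {y : ℕ → Bool | y k = x k} := by
      ext y; simp
    rw [this]
    refine isOpen_biInter_finset fun k _ => ?_
    have hk : Continuous fun y : ℕ → Bool => y k := continuous_apply k
    exact (isOpen_discrete ({x k} : Set Bool)).preimage hk
  obtain ⟨y, hy, c, rfl⟩ := hx _ ho (fun k _ => rfl)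
  exact ⟨c, fun k hk => (hy k (mem_range.2 hk)).symm⟩

theorem bool_ind : ∀ b : Bool, b = decide ((if b = true then (1 : ZMod 2) else 0) = 1) := by
  decide

theorem mu_le (n : ℕ) : ‖((ArithmeticFunction.moebius n : ℤ) : ℂ)‖ ≤ 1 := by
  rw [Complex.norm_intCast]
  exact_mod_cast ArithmeticFunction.abs_moebius_le_one

theorem exists_ext (x : ℕ → Bool) (f : C(orb x, ℂ)) :
    ∃ φ : C((ℕ → Bool), ℂ), ∀ z (hz : z ∈ orb x), φ z = f ⟨z, hz⟩ := by
  have hcl : IsClosed (orb x) := isClosed_closure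
  obtain ⟨φ, hφ⟩ := ContinuousMap.exists_restrict_eq hcl f
  refine ⟨φ, fun z hz => ?_⟩
  have := DFunLike.congr_fun hφ ⟨z, hz⟩
  exact this

end CloX

open CloX in
theorem clo : T_CLO := by
  intro hW L hL x hD hH' f ε hε
  obtain ⟨φ', hφ'⟩ := exists_ext x f
  set φ : (ℕ → Bool) → ℂ := fun z => φ' z with hφdef
  have hφ : Continuous φ := φ'.continuous
  set Q : ℕ → ZMod 2 := fun n => if x n then 1 else 0 with hQdef
  obtain ⟨M, hM, hb⟩ := bdd φ hφ
  obtain ⟨H, hH⟩ := approx φ hφ (ε / 4) (by positivity)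
  obtain ⟨N₀, hN₀⟩ := hW L Q hL hD hH' H (ε / (4 * M)) (by positivity)
  refine ⟨max N₀ 1, fun N hN y hy => ?_⟩
  have hN1 : 1 ≤ N := (le_max_right _ _).trans hN
  have hNpos : (0 : ℝ) < N := by exact_mod_cast hN1
  have hy0 : y ∈ closure (Set.range fun c : ℕ => fun n : ℕ => x (n + c)) := by
    have := hy 0
    simp only [zero_add] at this
    exact this
  obtain ⟨c, hc⟩ := mem_cl y _ hy0 (N + H + 1)
  set ψ : (Fin H → ZMod 2) → ℂ := fun v =>
    φ (fun k => if h : k < H then decide (v ⟨k, h⟩ = 1) else false) with hψ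
  have h1 := hN₀ N ((le_max_left _ _).trans hN) c (fun v => (M : ℂ)⁻¹ * ψ v) (fun v => by
    rw [norm_mul, norm_inv, Complex.norm_real, Real.norm_eq_abs, abs_of_pos hM, inv_mul_le_iff₀ hM, mul_one]
    exact hb _)
  have h2 : ‖∑ n ∈ Ioc 0 N, ((ArithmeticFunction.moebius n : ℤ) : ℂ) * ψ (fun i => Q (n + c + i))‖ ≤
      ε / 4 * N := by
    have e : ∑ n ∈ Ioc 0 N, ((ArithmeticFunction.moebius n : ℤ) : ℂ) * ψ (fun i => Q (n + c + i)) =
        (M : ℂ) * ∑ n ∈ Ioc 0 N, ((ArithmeticFunction.moebius n : ℤ) : ℂ) *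
          ((M : ℂ)⁻¹ * ψ (fun i => Q (n + c + i))) := by
      rw [mul_sum]
      refine sum_congr rfl fun n _ => ?_
      have hM' : (M : ℂ) ≠ 0 := by exact_mod_cast hM.ne'
      field_simp
    rw [e, norm_mul, Complex.norm_real, Real.norm_eq_abs, abs_of_pos hM]
    calc M * _ ≤ M * (ε / (4 * M) * N) := mul_le_mul_of_nonneg_left h1 hM.le
      _ = ε / 4 * N := by field_simp
  have hfφ : ∑ n ∈ Ioc 0 N, ((ArithmeticFunction.moebius n : ℤ) : ℂ) *
      f ⟨fun k => y (n + k), hy n⟩ =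
      ∑ n ∈ Ioc 0 N, ((ArithmeticFunction.moebius n : ℤ) : ℂ) * φ (fun k => y (n + k)) := by
    refine sum_congr rfl fun n _ => ?_
    rw [← hφ' _ (hy n)]
  have h3 : ‖∑ n ∈ Ioc 0 N, ((ArithmeticFunction.moebius n : ℤ) : ℂ) * φ (fun k => y (n + k)) -
      ∑ n ∈ Ioc 0 N, ((ArithmeticFunction.moebius n : ℤ) : ℂ) * ψ (fun i => Q (n + c + i))‖ ≤
      N * (ε / 4) := by
    rw [← sum_sub_distrib]
    have h4 : ∀ n ∈ Ioc 0 N, ‖((ArithmeticFunction.moebius n : ℤ) : ℂ) * φ (fun k => y (n + k)) -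
        ((ArithmeticFunction.moebius n : ℤ) : ℂ) * ψ (fun i => Q (n + c + i))‖ ≤ ε / 4 := by
      intro n hn
      rw [← mul_sub, norm_mul]
      have h5 : ‖φ (fun k => y (n + k)) - ψ (fun i => Q (n + c + i))‖ ≤ ε / 4 := by
        refine hH _ _ fun i hi => ?_
        have hn' := (mem_Ioc.1 hn).2
        simp only [dif_pos hi]
        rw [hc (n + i) (by omega), show n + i + c = n + c + i by ring]
        simp only [hQdef]
        exact bool_ind (x (n + c + i))
      calc _ ≤ 1 * (ε / 4) := mul_le_mul (mu_le n) h5 (norm_nonneg _) zero_le_one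
        _ = ε / 4 := one_mul _
    refine (norm_sum_le_of_le _ h4).trans ?_
    rw [sum_const, Nat.card_Ioc, Nat.sub_zero, nsmul_eq_mul]
  rw [hfφ]
  have h6 := norm_add_le (∑ n ∈ Ioc 0 N, ((ArithmeticFunction.moebius n : ℤ) : ℂ) * φ (fun k => y (n + k)) -
      ∑ n ∈ Ioc 0 N, ((ArithmeticFunction.moebius n : ℤ) : ℂ) * ψ (fun i => Q (n + c + i)))
    (∑ n ∈ Ioc 0 N, ((ArithmeticFunction.moebius n : ℤ) : ℂ) * ψ (fun i => Q (n + c + i)))
  rw [sub_add_cancel] at h6
  have h7 : (0 : ℝ) < ε * N := by positivity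
  calc _ ≤ _ := h6
    _ ≤ N * (ε / 4) + ε / 4 * N := add_le_add h3 h2
    _ ≤ ε * N := by nlinarith

end Pool.Agent.N213.BM
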