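import Pool.Agent.N213.BM.Stm3
import Pool.Agent.N213.BM.Clo

/-! # Project BM: orbit closures and continuous functions (adapted from Clo.lean, helper823) -/

set_option autoImplicit false

namespace Pool.Agent.N213.BM

open Finset Filter Topology

open CloX in
theorem clo3 (hW : WORDS3) {L : ℕ → ℕ} (hL : Sc L) {x : ℕ → Bool}
    (hD : Dig L (fun n => if x n then 1 else 0)) (hH' : Hyp3 L (fun n => if x n then 1 else 0)) :
    CLOS x := by
  intro f ε hε
  obtain ⟨φ', hφ'⟩ := exists_ext x f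
  set φ : (ℕ → Bool) → ℂ := fun z => φ' z with hφdef
  have hφ : Continuous φ := φ'.continuous
  set Q : ℕ → ZMod 2 := fun n => if x n then 1 else 0 with hQdef
  obtain ⟨M, hM, hb⟩ := bdd φ hφ
  obtain ⟨H, hH⟩ := approx φ hφ (ε / 4) (by positivity)
  obtain ⟨N₀, hN₀⟩ := hW L Q hL hD hH' H (ε / (4 * M)) (by positivity)
  refine ⟨max N₀ 1, fun N hN y hy => ?_⟩
  have hN1 : 1 ≤ N := (le_max_right _ _).trans hN
  have hNpos : (0 : ℝ) < N := by exact_mod_cast hN1
  have hy0 : y ∈ closure (Set.range fun c : ℕ => fun n : ℕ => x (n + c)) := by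
    have := hy 0
    simp only [zero_add] at this
    exact this
  obtain ⟨c, hc⟩ := mem_cl y _ hy0 (N + H + 1)
  set ψ : (Fin H → ZMod 2) → ℂ := fun v =>
    φ (fun k => if h : k < H then decide (v ⟨k, h⟩ = 1) else false) with hψ
  have h1 := hN₀ N ((le_max_left _ _).trans hN) c (fun v => (M : ℂ)⁻¹ * ψ v) (fun v => by
    rw [norm_mul, norm_inv, Complex.norm_real, Real.norm_eq_abs, abs_of_pos hM, inv_mul_le_iff₀ hM, mul_one]
    exact hb _)
  have h2 : ‖∑ n ∈ Ioc 0 N, ((ArithmeticFunction.moebius n : ℤ) : ℂ) * ψ (fun i => Q (n + c + i))‖ ≤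
      ε / 4 * N := by
    have e : ∑ n ∈ Ioc 0 N, ((ArithmeticFunction.moebius n : ℤ) : ℂ) * ψ (fun i => Q (n + c + i)) =
        (M : ℂ) * ∑ n ∈ Ioc 0 N, ((ArithmeticFunction.moebius n : ℤ) : ℂ) *
          ((M : ℂ)⁻¹ * ψ (fun i => Q (n + c + i))) := by
      rw [mul_sum]
      refine sum_congr rfl fun n _ => ?_
      have hM' : (M : ℂ) ≠ 0 := by exact_mod_cast hM.ne'
      field_simp
    rw [e, norm_mul, Complex.norm_real, Real.norm_eq_abs, abs_of_pos hM]
    calc M * _ ≤ M * (ε / (4 * M) * N) := mul_le_mul_of_nonneg_left h1 hM.le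
      _ = ε / 4 * N := by field_simp
  have hfφ : ∑ n ∈ Ioc 0 N, ((ArithmeticFunction.moebius n : ℤ) : ℂ) *
      f ⟨fun k => y (n + k), hy n⟩ =
      ∑ n ∈ Ioc 0 N, ((ArithmeticFunction.moebius n : ℤ) : ℂ) * φ (fun k => y (n + k)) := by
    refine sum_congr rfl fun n _ => ?_
    rw [← hφ' _ (hy n)]
  have h3 : ‖∑ n ∈ Ioc 0 N, ((ArithmeticFunction.moebius n : ℤ) : ℂ) * φ (fun k => y (n + k)) -
      ∑ n ∈ Ioc 0 N, ((ArithmeticFunction.moebius n : ℤ) : ℂ) * ψ (fun i => Q (n + c + i))‖ ≤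
      N * (ε / 4) := by
    rw [← sum_sub_distrib]
    have h4 : ∀ n ∈ Ioc 0 N, ‖((ArithmeticFunction.moebius n : ℤ) : ℂ) * φ (fun k => y (n + k)) -
        ((ArithmeticFunction.moebius n : ℤ) : ℂ) * ψ (fun i => Q (n + c + i))‖ ≤ ε / 4 := by
      intro n hn
      rw [← mul_sub, norm_mul]
      have h5 : ‖φ (fun k => y (n + k)) - ψ (fun i => Q (n + c + i))‖ ≤ ε / 4 := by
        refine hH _ _ fun i hi => ?_
        have hn' := (mem_Ioc.1 hn).2
        simp only [dif_pos hi]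
        rw [hc (n + i) (by omega), show n + i + c = n + c + i by ring]
        simp only [hQdef]
        exact bool_ind (x (n + c + i))
      calc _ ≤ 1 * (ε / 4) := mul_le_mul (mu_le n) h5 (norm_nonneg _) zero_le_one
        _ = ε / 4 := one_mul _
    refine (norm_sum_le_of_le _ h4).trans ?_
    rw [sum_const, Nat.card_Ioc, Nat.sub_zero, nsmul_eq_mul]
  rw [hfφ]
  have h6 := norm_add_le (∑ n ∈ Ioc 0 N, ((ArithmeticFunction.moebius n : ℤ) : ℂ) * φ (fun k => y (n + k)) -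
      ∑ n ∈ Ioc 0 N, ((ArithmeticFunction.moebius n : ℤ) : ℂ) * ψ (fun i => Q (n + c + i)))
    (∑ n ∈ Ioc 0 N, ((ArithmeticFunction.moebius n : ℤ) : ℂ) * ψ (fun i => Q (n + c + i)))
  rw [sub_add_cancel] at h6
  have h7 : (0 : ℝ) < ε * N := by positivity
  calc _ ≤ _ := h6
    _ ≤ N * (ε / 4) + ε / 4 * N := add_le_add h3 h2
    _ ≤ ε * N := by nlinarith

end Pool.Agent.N213.BM
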