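import Mathlib
import Pool.Agent.N213.QP.Basic

/-! # Project BM: generalized Morse sequences and the Möbius function.  Definitions and statements -/

set_option autoImplicit false

namespace Pool.Agent.N213.BM

open Finset Filter Topology
open Pool.Agent.N213.QP (sg)

/-- a Cantor scale: `L 0 = 1` and `L (j + 1) / L j ≥ 2` is an integer -/
structure Sc (L : ℕ → ℕ) : Prop where
  zero : L 0 = 1
  step : ∀ j, ∃ l, 2 ≤ l ∧ L (j + 1) = l * L j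

/-- `g` is additive on the digits for the scale `L` -/
def Dig (L : ℕ → ℕ) (g : ℕ → ZMod 2) : Prop :=
  ∀ j l h, l < L j → g (l + L j * h) = g l + g (L j * h)

/-- the level `t` is regular: `g` is linear on the digit number `t`, and `g (L (t + 1))` is as for a
linear function -/
def Reg (L : ℕ → ℕ) (g : ℕ → ZMod 2) (t : ℕ) : Prop :=
  ∀ d : ℕ, d * L t ≤ L (t + 1) → g (L t * d) = (d : ZMod 2) * g (L t)

/-- the radices number `s, …, s + W - 1` are at most `K` -/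
def Small (K : ℕ) (L : ℕ → ℕ) (s W : ℕ) : Prop := ∀ j, s ≤ j → j < s + W → L (j + 1) ≤ K * L j

/-- the hypothesis of the main theorem -/
def Hyp (L : ℕ → ℕ) (g : ℕ → ZMod 2) : Prop :=
  (∃ T, ∀ t, T ≤ t → Reg L g t) ∨
  ∃ K, ∀ W T, ∃ t, T + W ≤ t ∧ Small K L (t - W) (2 * W) ∧ ¬ Reg L g t

/-- BM/RIG.  Rigidity of the digits along `p x + η` and `q x + η'`. -/
def RIG : Prop := ∀ (p q m n R : ℕ) (G : ℕ → ZMod 2) (ηp ηq : ℕ), 1 ≤ p → p < q → q.Prime →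
  Nat.Coprime q n → 2 ≤ n → 2 * p * q < m → m * n * (q + 2) + 2 ≤ R →
  (∀ l h, l < m → G (l + m * h) = G l + G (m * h)) →
  (∀ l h, l < m * n → G (l + m * n * h) = G l + G (m * n * h)) →
  (∀ x < R, G (p * x + ηp) + G (q * x + ηq) = G ηp + G ηq) →
  ∀ z < n, G (m * z) = (z : ZMod 2) * G m

/-- BM/GAD.  Gadgets in a window. -/
def GAD : Prop := ∀ p q a Λ R : ℕ, 1 ≤ p → p ≤ q → 8 * q + 16 ≤ 2 ^ a → 1 ≤ R → R ≤ 2 ^ Λ →
  ∀ L, Sc L → ∀ g, Dig L g → ∀ c s : ℕ, ∃ (pat : ℕ → ℕ) (ηp ηq : ℕ),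
  (∀ x < R, L s * pat x < L (s + (2 * a + Λ))) ∧
  (∀ x < R, ∀ y < R, pat x = pat y → x = y) ∧
  (∀ u < L s, ∀ v, ∀ x < R,
    g (p * (u + L s * pat x + L (s + (2 * a + Λ)) * v) + c) +
      g (p * (u + L s * pat 0 + L (s + (2 * a + Λ)) * v) + c) =
        g (L (s + a) * (p * x + ηp)) + g (L (s + a) * ηp)) ∧
  (∀ u < L s, ∀ v, ∀ x < R,
    g (q * (u + L s * pat x + L (s + (2 * a + Λ)) * v) + c) +
      g (q * (u + L s * pat 0 + L (s + (2 * a + Λ)) * v) + c) =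
        g (L (s + a) * (q * x + ηq)) + g (L (s + a) * ηq))

/-- BM/LC.  Independent windows with averages bounded away from one give exponential decay. -/
def LC : Prop := ∀ (L : ℕ → ℕ), Sc L → ∀ (W S₀ R C : ℕ) (S : Finset ℕ) (pat : ℕ → ℕ → ℕ)
  (κ : ℕ → ℕ → ℂ) (θ : ℝ) (F : ℕ → ℂ) (t : ℕ), 1 ≤ R → 0 ≤ θ →
  (∀ s ∈ S, ∀ s' ∈ S, s < s' → s + W ≤ s') → (∀ s ∈ S, s + W ≤ S₀) →
  (∀ s ∈ S, L (s + W) ≤ C * L s) →
  (∀ s ∈ S, ∀ x < R, L s * pat s x < L (s + W)) →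
  (∀ s ∈ S, ∀ x < R, ∀ y < R, pat s x = pat s y → x = y) →
  (∀ s ∈ S, ‖∑ x ∈ range R, κ s x‖ ≤ R - θ) → (∀ n, ‖F n‖ ≤ 1) →
  (∀ s ∈ S, ∀ u < L s, ∀ v, ∀ x < R, F (u + L s * pat s x + L (s + W) * v) =
    F (u + L s * pat s 0 + L (s + W) * v) * κ s x) →
  ‖∑ x ∈ range (L S₀), F (x + L S₀ * t)‖ ≤ L S₀ * (1 - θ / C) ^ S.card

/-- BM/PER.  The Möbius function and periodic functions. -/
def PER : Prop := ∀ Q : ℕ, 1 ≤ Q → ∀ ε : ℝ, 0 < ε → ∃ N₀ : ℕ, ∀ N : ℕ, N₀ ≤ N → ∀ ψ : ℕ → ℂ,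
  (∀ n, ψ (n + Q) = ψ n) → (∀ n, ‖ψ n‖ ≤ 1) →
  ‖∑ n ∈ Ioc 0 N, ((ArithmeticFunction.moebius n : ℤ) : ℂ) * ψ n‖ ≤ ε * N

/-- the main theorem -/
def MAIN : Prop := ∀ L g, Sc L → Dig L g → Hyp L g → ∀ (T : ℕ) (ψ : ℕ → ℂ),
  (∀ n, ψ (n + L T) = ψ n) → (∀ n, ‖ψ n‖ ≤ 1) → ∀ ε : ℝ, 0 < ε → ∃ N₀ : ℕ, ∀ N : ℕ, N₀ ≤ N →
  ∀ c : ℕ, ‖∑ n ∈ Ioc 0 N, ((ArithmeticFunction.moebius n : ℤ) : ℂ) *
    (ψ (n + c) * sg (g (n + c)))‖ ≤ ε * N

/-- functions of `H` consecutive values -/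
def WORDS : Prop := ∀ L g, Sc L → Dig L g → Hyp L g → ∀ (H : ℕ) (ε : ℝ), 0 < ε → ∃ N₀ : ℕ,
  ∀ N : ℕ, N₀ ≤ N → ∀ (c : ℕ) (Φ : (Fin H → ZMod 2) → ℂ), (∀ v, ‖Φ v‖ ≤ 1) →
  ‖∑ n ∈ Ioc 0 N, ((ArithmeticFunction.moebius n : ℤ) : ℂ) * Φ (fun i => g (n + c + i))‖ ≤ ε * N

/-- BM/WORDS -/
def T_WORDS : Prop := PER → MAIN → WORDS

/-- the orbit closure of a sequence under the shift -/
def orb (x : ℕ → Bool) : Set (ℕ → Bool) := closure (Set.range fun c : ℕ => fun n : ℕ => x (n + c))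

/-- all points of the subshift, all continuous functions, uniformly -/
def CLOS (x : ℕ → Bool) : Prop := ∀ f : C(orb x, ℂ), ∀ ε : ℝ, 0 < ε → ∃ N₀ : ℕ, ∀ N : ℕ, N₀ ≤ N →
  ∀ (y : ℕ → Bool) (hy : ∀ n : ℕ, (fun k : ℕ => y (n + k)) ∈ orb x),
  ‖∑ n ∈ Ioc 0 N, ((ArithmeticFunction.moebius n : ℤ) : ℂ) * f ⟨fun k => y (n + k), hy n⟩‖ ≤ ε * N

/-- BM/CLO -/
def T_CLO : Prop := WORDS → ∀ L, Sc L → ∀ x : ℕ → Bool, Dig L (fun n => if x n then 1 else 0) →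
  Hyp L (fun n => if x n then 1 else 0) → CLOS x

/-- the product of two blocks of letters: `B × C = (B + C(0)) (B + C(1)) ⋯ (B + C(l - 1))` -/
def bmul (B C : List Bool) : List Bool := C.flatMap fun c => B.map fun b => xor b c

/-- the product `b 0 × b 1 × ⋯ × b n` -/
def bprod (b : ℕ → List Bool) : ℕ → List Bool
  | 0 => b 0
  | n + 1 => bmul (bprod b n) (b (n + 1))

/-- `x` is the generalized Morse sequence `b 0 × b 1 × b 2 × ⋯` -/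
structure IsMorse (b : ℕ → List Bool) (x : ℕ → Bool) : Prop where
  len : ∀ i, 2 ≤ (b i).length
  head : ∀ i, (b i)[0]? = some false
  pre : ∀ n k, k < (bprod b n).length → (bprod b n)[k]? = some (x k)

/-- the block number `t` is regular: it is `000⋯` or `0101⋯`, and the letter number one of the next
block is as for a product of such blocks -/
def RegB (b : ℕ → List Bool) (t : ℕ) : Prop :=
  (∀ d, d < (b t).length → (b t)[d]? = some (decide (d % 2 = 1) && (b t)[1]?.getD false)) ∧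
  (b (t + 1))[1]? = some (decide ((b t).length % 2 = 1) && (b t)[1]?.getD false)

/-- BM/MORSE -/
def MORSE : Prop := ∀ b x, IsMorse b x → ∃ L, Sc L ∧ Dig L (fun n => if x n then 1 else 0) ∧
  (∀ i, L (i + 1) = (b i).length * L i) ∧
  ∀ t, Reg L (fun n => if x n then 1 else 0) t ↔ RegB b t

end Pool.Agent.N213.BM
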