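import Mathlib
import Pool.Agent.N213.BM.Stm

/-! # Project BM, second part: blocks of unbounded length.  Definitions and statements -/

set_option autoImplicit false

namespace Pool.Agent.N213.BM

open Finset Filter Topology
open Pool.Agent.N213.QP (sg)

/-- the digit number `t` is linear -/
def Lin (L : ℕ → ℕ) (g : ℕ → ZMod 2) (t : ℕ) : Prop :=
  ∀ d : ℕ, d * L t < L (t + 1) → g (L t * d) = (d : ZMod 2) * g (L t)

/-- `n` consecutive multiples of `B`: at least `δ n` pairs of neighbours with equal values of `g`,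
and at least `δ n` pairs with different values -/
def Mixed (δ : ℝ) (g : ℕ → ZMod 2) (B n : ℕ) : Prop :=
  δ * n ≤ (((range (n - 1)).filter (fun z => g (B * (z + 1)) = g (B * z))).card : ℝ) ∧
  δ * n ≤ (((range (n - 1)).filter (fun z => g (B * (z + 1)) ≠ g (B * z))).card : ℝ)

/-- the junction between a linear digit `t` and the next ones is irregular -/
def Jun (δ : ℝ) (L : ℕ → ℕ) (g : ℕ → ZMod 2) (t : ℕ) : Prop :=
  Lin L g t ∧ δ * (L (t + 3) / L (t + 1) : ℕ) ≤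
    (((range (L (t + 3) / L (t + 1) - 1)).filter (fun z => g (L (t + 1) * (z + 1)) +
      g (L (t + 1) * z) ≠ ((L (t + 1) / L t : ℕ) : ZMod 2) * g (L t))).card : ℝ)

/-- the hypothesis of the general theorem -/
def Hyp2 (L : ℕ → ℕ) (g : ℕ → ZMod 2) : Prop :=
  (∃ T, ∀ t, T ≤ t → Reg L g t) ∨
  (∃ δ : ℝ, 0 < δ ∧ ∀ T, ∃ t, T ≤ t ∧ Mixed δ g (L t) (L (t + 3) / L t)) ∨
  (∃ δ : ℝ, 0 < δ ∧ ∀ T, ∃ t, T ≤ t ∧ T * L t ≤ L (t + 1) ∧ Jun δ L g t)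

/-- BM/CORE.  The crossings of the multiples of `m` by `q x + eq`. -/
def CORE : Prop := ∀ (p q m d R T : ℕ) (G : ℕ → ZMod 2) (ep eq : ℕ) (σ : ZMod 2), p.Prime → q.Prime →
  p ≠ q → 1 ≤ d → 8 * p * q * d ≤ m → m * (T + 2) ≤ R →
  (∀ l h, l < m → G (l + m * h) = G l + G (m * h)) →
  ∃ bad : ℕ, ∀ κ < q, κ ≠ bad → ∃ z₀ : ℕ, z₀ % q = κ ∧ ∃ c : ZMod 2,
    d * ((range T).filter (fun r => G (m * (z₀ + q * r + 1)) + G (m * (z₀ + q * r)) ≠ c)).card ≤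
      2 * ((range R).filter (fun x => G (p * x + ep) + G (q * x + eq) ≠ σ)).card ∧
    ∀ ε : ZMod 2, (∀ l < m, G l = (l : ZMod 2) * ε) → d % 2 = 0 → c = (m : ZMod 2) * ε

/-- BM/RIGA.  Mixed blocks give cancellation. -/
def RIGA : Prop := ∀ (p q : ℕ) (δ : ℝ), p.Prime → q.Prime → p ≠ q → 3 ≤ p → 3 ≤ q → 0 < δ →
  2 ≤ δ * (p * q) → ∃ (η : ℝ) (D : ℕ), 0 < η ∧ η ≤ 1 ∧ ∀ (m n N : ℕ) (G : ℕ → ZMod 2),
  D ≤ m → 1 ≤ n → D ≤ N →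
  (∀ l h, l < m → G (l + m * h) = G l + G (m * h)) →
  (∀ l h, l < m * n → G (l + m * n * h) = G l + G (m * n * h)) → Mixed δ G m n →
  ∀ ep eq : ℕ, ‖∑ x ∈ range (m * n * N), sg (G (p * x + ep) + G (q * x + eq))‖ ≤
    (1 - η) * (m * n * N : ℕ)

/-- BM/RIGJ.  Irregular junctions give cancellation. -/
def RIGJ : Prop := ∀ (p q : ℕ) (δ : ℝ), p.Prime → q.Prime → p ≠ q → 3 ≤ p → 3 ≤ q → 0 < δ →
  2 ≤ δ * (p * q) → ∃ (η : ℝ) (D : ℕ), 0 < η ∧ η ≤ 1 ∧ ∀ (m n N : ℕ) (G : ℕ → ZMod 2) (ε : ZMod 2),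
  D ≤ m → 1 ≤ n → D ≤ N → (∀ l < m, G l = (l : ZMod 2) * ε) →
  (∀ l h, l < m → G (l + m * h) = G l + G (m * h)) →
  (∀ l h, l < m * n → G (l + m * n * h) = G l + G (m * n * h)) →
  δ * n ≤ (((range (n - 1)).filter (fun z => G (m * (z + 1)) + G (m * z) ≠
    (m : ZMod 2) * ε)).card : ℝ) →
  ∀ ep eq : ℕ, ‖∑ x ∈ range (m * n * N), sg (G (p * x + ep) + G (q * x + eq))‖ ≤
    (1 - η) * (m * n * N : ℕ)

/-- BM/GAD2.  Most low digits of a window do not transmit carries. -/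
def GAD2 : Prop := ∀ L, Sc L → ∀ g, Dig L g → ∀ p q c lo mid M : ℕ, 1 ≤ p → p ≤ q → lo ≤ mid →
  L mid = L lo * M → 8 * (q + 1) ≤ M → ∃ A : Finset ℕ, A ⊆ range M ∧ M ≤ 2 * A.card ∧
  ∀ α ∈ A, ∃ (ep eq : ℕ) (K : ℕ → ZMod 2), ∀ u < L lo, ∀ x : ℕ,
    g (p * (u + L lo * α + L mid * x) + c) + g (q * (u + L lo * α + L mid * x) + c) =
      K u + (g (L mid * (p * x + ep)) + g (L mid * (q * x + eq)))

/-- BM/STEP.  One window gains a factor. -/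
def STEP : Prop := ∀ (a M R : ℕ) (F : ℕ → ℂ) (η τ : ℝ) (A : Finset ℕ), 0 ≤ η → η ≤ 1 → 0 ≤ τ →
  (∀ t, ‖∑ x ∈ range a, F (x + a * t)‖ ≤ τ * a) → A ⊆ range M → M ≤ 2 * A.card →
  (∀ α ∈ A, ∀ v : ℕ, ∃ κ : ℕ → ℂ, (∀ u < a, ∀ x < R,
    F (u + a * α + a * M * x + a * M * R * v) = F (u + a * α + a * M * R * v) * κ x) ∧
    ‖∑ x ∈ range R, κ x‖ ≤ (1 - η) * R) →
  ∀ v : ℕ, ‖∑ x ∈ range (a * M * R), F (x + a * M * R * v)‖ ≤ τ * (1 - η / 2) * (a * M * R : ℕ)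

/-- the main theorem -/
def MAIN2 : Prop := ∀ L g, Sc L → Dig L g → Hyp2 L g → ∀ (T : ℕ) (ψ : ℕ → ℂ),
  (∀ n, ψ (n + L T) = ψ n) → (∀ n, ‖ψ n‖ ≤ 1) → ∀ ε : ℝ, 0 < ε → ∃ N₀ : ℕ, ∀ N : ℕ, N₀ ≤ N →
  ∀ c : ℕ, ‖∑ n ∈ Ioc 0 N, ((ArithmeticFunction.moebius n : ℤ) : ℂ) *
    (ψ (n + c) * sg (g (n + c)))‖ ≤ ε * N

/-- functions of `H` consecutive values -/
def WORDS2 : Prop := ∀ L g, Sc L → Dig L g → Hyp2 L g → ∀ (H : ℕ) (ε : ℝ), 0 < ε → ∃ N₀ : ℕ,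
  ∀ N : ℕ, N₀ ≤ N → ∀ (c : ℕ) (Φ : (Fin H → ZMod 2) → ℂ), (∀ v, ‖Φ v‖ ≤ 1) →
  ‖∑ n ∈ Ioc 0 N, ((ArithmeticFunction.moebius n : ℤ) : ℂ) * Φ (fun i => g (n + c + i))‖ ≤ ε * N

/-- BM/HYPA.  Short or linear digits. -/
def HYPA : Prop := ∀ L g, Sc L → Dig L g → ∀ K T : ℕ,
  (∀ t, T ≤ t → L (t + 1) ≤ K * L t ∨ Lin L g t) → Hyp2 L g

/-- BM/HYPB.  Mixed blocks. -/
def HYPB : Prop := ∀ L g, Sc L → Dig L g → ∀ δ : ℝ, 0 < δ →
  (∀ T, ∃ t, T ≤ t ∧ Mixed δ g (L t) (L (t + 1) / L t)) → Hyp2 L g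

/-- a block of the form `000⋯` or `0101⋯` -/
def LinB (w : List Bool) : Prop :=
  ∀ d, d < w.length → w[d]? = some (decide (d % 2 = 1) && w[1]?.getD false)

/-- a word of length `n` with at least `δ n` pairs of equal neighbours and at least `δ n` pairs of
different neighbours -/
def MixedB (δ : ℝ) (w : List Bool) : Prop :=
  δ * w.length ≤ (((range (w.length - 1)).filter (fun v => w[v + 1]? = w[v]?)).card : ℝ) ∧
  δ * w.length ≤ (((range (w.length - 1)).filter (fun v => w[v + 1]? ≠ w[v]?)).card : ℝ)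

/-- BM/MORSE2.  Blocks and digits. -/
def MORSE2 : Prop := ∀ b x, IsMorse b x → ∃ L, Sc L ∧ Dig L (fun n => if x n then 1 else 0) ∧
  (∀ i, L (i + 1) = (b i).length * L i) ∧
  (∀ t, LinB (b t) → Lin L (fun n => if x n then 1 else 0) t) ∧
  ∀ δ t, MixedB δ (b t) → Mixed δ (fun n => if x n then 1 else 0) (L t) (L (t + 1) / L t)

end Pool.Agent.N213.BM
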