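import Mathlib
import Pool.Agent.N213.BM.Stm2

/-! # Project BM: the general hypothesis -/

set_option autoImplicit false

namespace Pool.Agent.N213.BM

open Finset Filter Topology
open Pool.Agent.N213.QP (sg)

/-- between the scales `L s` and `L t` the function is linear, and its increments along the
multiples of `L t` up to `L u` are irregular with proportion at least `δ` -/
def Break (δ : ℝ) (L : ℕ → ℕ) (g : ℕ → ZMod 2) (s t u : ℕ) : Prop :=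
  (∀ z, L s * z < L t → g (L s * z) = (z : ZMod 2) * g (L s)) ∧
  δ * (L u / L t : ℕ) ≤ (((range (L u / L t - 1)).filter (fun z => g (L t * (z + 1)) +
      g (L t * z) ≠ ((L t / L s : ℕ) : ZMod 2) * g (L s))).card : ℝ)

/-- the hypothesis of the general theorem -/
def Hyp3 (L : ℕ → ℕ) (g : ℕ → ZMod 2) : Prop :=
  (∃ T, ∀ t, T ≤ t → Reg L g t) ∨
  (∃ δ : ℝ, 0 < δ ∧ ∀ T, ∃ s t, T ≤ s ∧ s ≤ t ∧ Mixed δ g (L s) (L t / L s)) ∨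
  (∃ δ : ℝ, 0 < δ ∧ ∀ T, ∃ s t u, T ≤ s ∧ s ≤ t ∧ t ≤ u ∧ T * L s ≤ L t ∧ Break δ L g s t u)

theorem Hyp2.hyp3 {L : ℕ → ℕ} {g : ℕ → ZMod 2} (h : Hyp2 L g) : Hyp3 L g := by
  rcases h with h | ⟨δ, hδ, h⟩ | ⟨δ, hδ, h⟩
  · exact Or.inl h
  · refine Or.inr (Or.inl ⟨δ, hδ, fun T => ?_⟩)
    obtain ⟨t, h1, h2⟩ := h T
    exact ⟨t, t + 3, h1, by omega, h2⟩
  · refine Or.inr (Or.inr ⟨δ, hδ, fun T => ?_⟩)
    obtain ⟨t, h1, h2, h3, h4⟩ := h T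
    exact ⟨t, t + 1, t + 3, h1, by omega, by omega, h2, fun z hz => h3 z (by rw [mul_comm]; exact hz),
      h4⟩

/-- the main theorem -/
def MAIN3 : Prop := ∀ L g, Sc L → Dig L g → Hyp3 L g → ∀ (T : ℕ) (ψ : ℕ → ℂ),
  (∀ n, ψ (n + L T) = ψ n) → (∀ n, ‖ψ n‖ ≤ 1) → ∀ ε : ℝ, 0 < ε → ∃ N₀ : ℕ, ∀ N : ℕ, N₀ ≤ N →
  ∀ c : ℕ, ‖∑ n ∈ Ioc 0 N, ((ArithmeticFunction.moebius n : ℤ) : ℂ) *
    (ψ (n + c) * sg (g (n + c)))‖ ≤ ε * N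

/-- functions of `H` consecutive values -/
def WORDS3 : Prop := ∀ L g, Sc L → Dig L g → Hyp3 L g → ∀ (H : ℕ) (ε : ℝ), 0 < ε → ∃ N₀ : ℕ,
  ∀ N : ℕ, N₀ ≤ N → ∀ (c : ℕ) (Φ : (Fin H → ZMod 2) → ℂ), (∀ v, ‖Φ v‖ ≤ 1) →
  ‖∑ n ∈ Ioc 0 N, ((ArithmeticFunction.moebius n : ℤ) : ℂ) * Φ (fun i => g (n + c + i))‖ ≤ ε * N

end Pool.Agent.N213.BM
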