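import Mathlib
import Pool.Agent.N213.BM.Stm3

/-! # Project DM: blocks with few changes.  Definitions and statements -/

set_option autoImplicit false

namespace Pool.Agent.N213.BM

open Finset Filter Topology
open Pool.Agent.N213.QP (sg)

/-- `n` values of `G`: at most `K` changes, and both values are taken at least `δ n` times -/
def Bal (K : ℕ) (δ : ℝ) (G : ℕ → ZMod 2) (n : ℕ) : Prop :=
  ((range (n - 1)).filter (fun z => G (z + 1) ≠ G z)).card ≤ K ∧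
  ∀ v : ZMod 2, δ * n ≤ (((range n).filter (fun z => G z = v)).card : ℝ)

/-- DM/CORE4 -/
def CORE4 : Prop := ∀ (p q n w c K e J : ℕ) (G : ℕ → ZMod 2), p.Prime → q.Prime → p ≠ q →
  K + 3 ≤ p → c + w ≤ n → q * w ≤ n → p * (J + 1) ≤ w →
  (∀ l h, l < n → G (l + n * h) = G l + G (n * h)) →
  ((range (n - 1)).filter (fun z => G (z + 1) ≠ G z)).card ≤ K →
  (∀ b, c ≤ b → b < c + p → ∀ v : ZMod 2, e < ((range J).filter (fun j => G (b + p * j) = v)).card) →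
  ∀ (ep eq : ℕ) (σ : ZMod 2),
    e < ((range n).filter (fun a => G (p * a + ep) + G (q * a + eq) ≠ σ)).card

/-- DM/RES4 -/
def RES4 : Prop := ∀ (p n w c K J b : ℕ) (G : ℕ → ZMod 2) (v : ZMod 2), 1 ≤ p → c + w ≤ n →
  c ≤ b → b < c + p → p * (J + 1) ≤ w → w ≤ p * (J + 2) →
  ((range (n - 1)).filter (fun z => G (z + 1) ≠ G z)).card ≤ K →
  ((range w).filter (fun z => G (c + z) = v)).card ≤
    p * ((range J).filter (fun j => G (b + p * j) = v)).card + p * K + 2 * p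

/-- DM/WIN4 -/
def WIN4 : Prop := ∀ (n w : ℕ) (δ : ℝ) (G : ℕ → ZMod 2), 0 < δ → 1 ≤ w → (w : ℝ) ≤ δ / 2 * n →
  8 ≤ δ * w → (∀ v : ZMod 2, δ * n ≤ (((range n).filter (fun z => G z = v)).card : ℝ)) →
  ∃ c, c + w ≤ n ∧
    ∀ v : ZMod 2, δ / 4 * w ≤ (((range w).filter (fun z => G (c + z) = v)).card : ℝ)

/-- DM/RIGK -/
def RIGK : Prop := ∀ (p q K : ℕ) (δ : ℝ), p.Prime → q.Prime → p ≠ q → K + 3 ≤ p → 3 ≤ q → 0 < δ →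
  ∃ (η : ℝ) (D : ℕ), 0 < η ∧ η ≤ 1 ∧ ∀ (n N : ℕ) (G : ℕ → ZMod 2), D ≤ n →
  (∀ l h, l < n → G (l + n * h) = G l + G (n * h)) → Bal K δ G n →
  ∀ ep eq : ℕ, ‖∑ x ∈ range (n * N), sg (G (p * x + ep) + G (q * x + eq))‖ ≤ (1 - η) * (n * N : ℕ)

/-- the hypothesis of the general theorem -/
def Hyp4 (L : ℕ → ℕ) (g : ℕ → ZMod 2) : Prop := Hyp3 L g ∨ ∃ (K : ℕ) (δ : ℝ), 0 < δ ∧
  ∀ T, ∃ s t, T ≤ s ∧ s ≤ t ∧ T * L s ≤ L t ∧ ∃ ε : ZMod 2,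
    Bal K δ (fun z => g (L s * z) + (z : ZMod 2) * ε) (L t / L s)

/-- the main theorem -/
def MAIN4 : Prop := ∀ L g, Sc L → Dig L g → Hyp4 L g → ∀ (T : ℕ) (ψ : ℕ → ℂ),
  (∀ n, ψ (n + L T) = ψ n) → (∀ n, ‖ψ n‖ ≤ 1) → ∀ ε : ℝ, 0 < ε → ∃ N₀ : ℕ, ∀ N : ℕ, N₀ ≤ N →
  ∀ c : ℕ, ‖∑ n ∈ Ioc 0 N, ((ArithmeticFunction.moebius n : ℤ) : ℂ) *
    (ψ (n + c) * sg (g (n + c)))‖ ≤ ε * N

/-- functions of `H` consecutive values -/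
def WORDS4 : Prop := ∀ L g, Sc L → Dig L g → Hyp4 L g → ∀ (H : ℕ) (ε : ℝ), 0 < ε → ∃ N₀ : ℕ,
  ∀ N : ℕ, N₀ ≤ N → ∀ (c : ℕ) (Φ : (Fin H → ZMod 2) → ℂ), (∀ v, ‖Φ v‖ ≤ 1) →
  ‖∑ n ∈ Ioc 0 N, ((ArithmeticFunction.moebius n : ℤ) : ℂ) * Φ (fun i => g (n + c + i))‖ ≤ ε * N

end Pool.Agent.N213.BM
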