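import Mathlib
import Pool.Agent.N213.BM.Stm4

/-! # Positions `p x`, `q x` modulo `n` and changes -/

set_option autoImplicit false

namespace Pool.Agent.N213.BM.Core4X

open Finset

lemma change (f : ℕ → ZMod 2) (x y : ℕ) (hxy : x < y) (h : f x ≠ f y) :
    ∃ z, x ≤ z ∧ z < y ∧ f (z + 1) ≠ f z := by
  by_contra hcon
  push Not at hcon
  apply h
  have key : ∀ d, x + d ≤ y → f (x + d) = f x := by
    intro d
    induction d with
    | zero => intro _; rfl
    | succ d ih =>
      intro hd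
      rw [← add_assoc, hcon (x + d) (by omega) (by omega)]
      exact ih (by omega)
  have h1 := key (y - x) (by omega)
  rw [show x + (y - x) = y by omega] at h1
  exact h1.symm

lemma change' (f : ℕ → ZMod 2) (x y : ℕ) (h : f x ≠ f y) :
    ∃ z, min x y ≤ z ∧ z < max x y ∧ f (z + 1) ≠ f z := by
  rcases lt_trichotomy x y with h1 | h1 | h1
  · obtain ⟨z, h2, h3, h4⟩ := change f x y h1 h
    exact ⟨z, (min_le_left _ _).trans h2, lt_of_lt_of_le h3 (le_max_right _ _), h4⟩
  · exact absurd (congrArg f h1) h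
  · obtain ⟨z, h2, h3, h4⟩ := change f y x h1 h.symm
    exact ⟨z, (min_le_right _ _).trans h2, lt_of_lt_of_le h3 (le_max_left _ _), h4⟩

lemma pick (J A e : ℕ) (E : Finset ℕ) (hE : E.card ≤ e) (P : ℕ → Prop) [DecidablePred P]
    (h : e < ((range J).filter P).card) : ∃ j, j < J ∧ P j ∧ A + j ∉ E := by
  by_contra hcon
  push Not at hcon
  have h1 : ((range J).filter P).card ≤ E.card := by
    refine Finset.card_le_card_of_injOn (fun j => A + j) ?_ ?_
    · intro j hj
      have h2 := Finset.mem_filter.1 (Finset.mem_coe.1 hj)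
      exact hcon j (Finset.mem_range.1 h2.1) h2.2
    · intro x _ y _ hxy
      have h3 : A + x = A + y := hxy
      omega
  omega

lemma step (p q n w c e J : ℕ) (G : ℕ → ZMod 2) (hp0 : 0 < p) (hcw : c + w ≤ n)
    (hpJ : p * (J + 1) ≤ w) (hG : ∀ l h, l < n → G (l + n * h) = G l + G (n * h))
    (hb : ∀ b, c ≤ b → b < c + p → ∀ v : ZMod 2,
      e < ((range J).filter (fun j => G (b + p * j) = v)).card)
    (ep eq : ℕ) (σ : ZMod 2)
    (hE : ((range n).filter (fun a => G (p * a + ep) + G (q * a + eq) ≠ σ)).card ≤ e)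
    (k : ℕ) (hk1 : ep ≤ c + n * k) (hk2 : n * (k + 1) ≤ ep + n * p) :
    ∃ A Z : ℕ, c + n * k ≤ p * A + ep ∧ p * A + ep < c + n * k + p ∧ q * A + eq ≤ Z ∧
      Z < q * (A + J) + eq ∧ G (Z + 1) ≠ G Z := by
  obtain ⟨A, hA1, hA2⟩ : ∃ A, c + n * k ≤ p * A + ep ∧ p * A + ep < c + n * k + p := by
    refine ⟨(c + n * k - ep + (p - 1)) / p, ?_⟩
    have h1 := Nat.div_add_mod (c + n * k - ep + (p - 1)) p
    have h2 := Nat.mod_lt (c + n * k - ep + (p - 1)) hp0
    generalize p * ((c + n * k - ep + (p - 1)) / p) = u at *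
    constructor <;> omega
  obtain ⟨b, hb1, hb2, hb3⟩ : ∃ b, p * A + ep = b + n * k ∧ c ≤ b ∧ b < c + p :=
    ⟨p * A + ep - n * k, by omega, by omega, by omega⟩
  have key : ∀ j, j < J → p * (A + j) + ep = (b + p * j) + n * k ∧ b + p * j < n ∧ A + j < n := by
    intro j hj
    have h1 : p * (j + 1) ≤ p * J := Nat.mul_le_mul_left p hj
    have h2 : p * (j + 1) = p * j + p := by ring
    have h3 : p * (J + 1) = p * J + p := by ring
    have h4 : p * (A + j) = p * A + p * j := by ring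
    have h5 : b + p * j < n := by omega
    have h6 : p * (A + j) + ep = (b + p * j) + n * k := by omega
    refine ⟨h6, h5, ?_⟩
    have h7 : n * (k + 1) = n * k + n := by ring
    have h8 : p * (A + j) < p * n := by
      have h9 : n * p = p * n := by ring
      omega
    exact Nat.lt_of_mul_lt_mul_left h8
  have hval : ∀ j, j < J →
      A + j ∉ (range n).filter (fun a => G (p * a + ep) + G (q * a + eq) ≠ σ) →
      G (b + p * j) + G (n * k) + G (q * (A + j) + eq) = σ := by
    intro j hj hjE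
    obtain ⟨h1, h2, h3⟩ := key j hj
    rw [← hG _ _ h2, ← h1]
    by_contra h4
    exact hjE (Finset.mem_filter.2 ⟨Finset.mem_range.2 h3, h4⟩)
  obtain ⟨j0, hj0, hv0, hE0⟩ := pick J A e _ hE _ (hb b hb2 hb3 0)
  obtain ⟨j1, hj1, hv1, hE1⟩ := pick J A e _ hE _ (hb b hb2 hb3 1)
  have h0 := hval j0 hj0 hE0
  have h1 := hval j1 hj1 hE1
  rw [hv0] at h0
  rw [hv1] at h1
  have hne : G (q * (A + j0) + eq) ≠ G (q * (A + j1) + eq) := by
    intro h2
    rw [h2] at h0
    have h3 := add_right_cancel (add_right_cancel (h0.trans h1.symm))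
    exact absurd h3 (by decide)
  obtain ⟨Z, hZ1, hZ2, hZ3⟩ := change' G _ _ hne
  refine ⟨A, Z, hA1, hA2, le_trans (le_min ?_ ?_) hZ1, lt_of_lt_of_le hZ2 (max_le ?_ ?_), hZ3⟩
  · have := Nat.mul_le_mul_left q (Nat.le_add_right A j0)
    omega
  · have := Nat.mul_le_mul_left q (Nat.le_add_right A j1)
    omega
  · have := Nat.mul_le_mul_left q (Nat.add_le_add_left hj0.le A)
    omega
  · have := Nat.mul_le_mul_left q (Nat.add_le_add_left hj1.le A)
    omega

end Pool.Agent.N213.BM.Core4X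

namespace Pool.Agent.N213.BM

open Finset

theorem core4 : CORE4 := by
  intro p q n w c K e J G hp hq hpq hK hcw hqw hpJ hG hch hb ep eq σ
  by_contra hcon
  push Not at hcon
  have hp0 : 0 < p := hp.pos
  have hpw : p ≤ w := by
    have h1 : p * (J + 1) = p * J + p := by ring
    omega
  have hn0 : 0 < n := by omega
  obtain ⟨k0, hk0⟩ : ∃ k0, k0 = ep / n + 1 := ⟨_, rfl⟩
  have hk1 : ep < n * k0 := by
    rw [hk0]
    exact Nat.lt_mul_div_succ ep hn0
  have hk2 : n * k0 ≤ ep + n := by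
    rw [hk0]
    have h1 := Nat.mul_div_le ep n
    have h2 : n * (ep / n + 1) = n * (ep / n) + n := by ring
    omega
  have hst : ∀ i, i < p - 1 → ∃ A Z : ℕ, c + n * (k0 + i) ≤ p * A + ep ∧
      p * A + ep < c + n * (k0 + i) + p ∧ q * A + eq ≤ Z ∧ Z < q * (A + J) + eq ∧
      G (Z + 1) ≠ G Z := by
    intro i hi
    refine Core4X.step p q n w c e J G hp0 hcw hpJ hG hb ep eq σ hcon (k0 + i) ?_ ?_
    · have h1 : n * (k0 + i) = n * k0 + n * i := by ring
      omega
    · have h1 : n * (k0 + i + 1) = n * k0 + n * (i + 1) := by ring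
      have h2 : n * (i + 2) ≤ n * p := Nat.mul_le_mul_left n (by omega)
      have h3 : n * (i + 2) = n * (i + 1) + n := by ring
      omega
  choose! A Z hA1 hA2 hZ1 hZ2 hZ3 using hst
  have hDc : (insert (n - 1) ((range (n - 1)).filter (fun z => G (z + 1) ≠ G z))).card ≤ K + 1 :=
    (Finset.card_insert_le _ _).trans (by omega)
  have hmaps : ∀ i ∈ range (p - 1), Z i % n ∈
      insert (n - 1) ((range (n - 1)).filter (fun z => G (z + 1) ≠ G z)) := by
    intro i hi
    have h3 := hZ3 i (Finset.mem_range.1 hi)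
    have h1 := Nat.div_add_mod (Z i) n
    have h2 := Nat.mod_lt (Z i) hn0
    rw [Finset.mem_insert]
    by_cases h4 : Z i % n = n - 1
    · exact Or.inl h4
    · right
      refine Finset.mem_filter.2 ⟨Finset.mem_range.2 (by omega), fun h5 => h3 ?_⟩
      have e1 : Z i = Z i % n + n * (Z i / n) := by omega
      have e2 : Z i + 1 = (Z i % n + 1) + n * (Z i / n) := by omega
      have e3 : G (Z i) = G (Z i % n) + G (n * (Z i / n)) := by
        conv_lhs => rw [e1]
        exact hG _ _ h2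
      have e4 : G (Z i + 1) = G (Z i % n + 1) + G (n * (Z i / n)) := by
        rw [e2]
        exact hG _ _ (by omega)
      rw [e3, e4, h5]
  have hY : ∀ i, i < p - 1 → (q : ℤ) * (c + n * (k0 + i)) ≤ p * Z i + q * ep - p * eq ∧
      (p : ℤ) * Z i + q * ep - p * eq < q * (c + n * (k0 + i)) + q * w := by
    intro i hi
    have a1 : ((c + n * (k0 + i) : ℕ) : ℤ) ≤ ((p * A i + ep : ℕ) : ℤ) := by exact_mod_cast hA1 i hi
    have a2 : ((p * A i + ep : ℕ) : ℤ) < ((c + n * (k0 + i) + p : ℕ) : ℤ) := by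
      exact_mod_cast hA2 i hi
    have a3 : ((q * A i + eq : ℕ) : ℤ) ≤ (Z i : ℤ) := by exact_mod_cast hZ1 i hi
    have a4 : (Z i : ℤ) < ((q * (A i + J) + eq : ℕ) : ℤ) := by exact_mod_cast hZ2 i hi
    have a5 : ((p * (J + 1) : ℕ) : ℤ) ≤ (w : ℤ) := by exact_mod_cast hpJ
    push_cast at a1 a2 a3 a4 a5
    have hpz : (0 : ℤ) < p := by exact_mod_cast hp0
    have hqz : (0 : ℤ) < q := by exact_mod_cast hq.pos
    have b1 := mul_le_mul_of_nonneg_left a1 hqz.le
    have b2 := mul_lt_mul_of_pos_left a2 hqz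
    have b3 := mul_le_mul_of_nonneg_left a3 hpz.le
    have b4 := mul_lt_mul_of_pos_left a4 hpz
    have b5 := mul_le_mul_of_nonneg_left a5 hqz.le
    constructor
    · nlinarith
    · nlinarith
  have hinj : Set.InjOn (fun i => Z i % n) (range (p - 1) : Set ℕ) := by
    intro i hi j hj hij
    have hi' : i < p - 1 := Finset.mem_range.1 (Finset.mem_coe.1 hi)
    have hj' : j < p - 1 := Finset.mem_range.1 (Finset.mem_coe.1 hj)
    have hmod : Z j ≡ Z i [MOD n] := hij.symm
    obtain ⟨m, hm⟩ := (Nat.modEq_iff_dvd.1 hmod)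
    obtain ⟨y1, y2⟩ := hY i hi'
    obtain ⟨y3, y4⟩ := hY j hj'
    have hnz : (0 : ℤ) < n := by exact_mod_cast hn0
    have hqw' : (q : ℤ) * w ≤ n := by exact_mod_cast hqw
    have e1 : (p : ℤ) * Z i - p * Z j = n * (p * m) := by
      have : (p : ℤ) * Z i - p * Z j = p * ((Z i : ℤ) - Z j) := by ring
      rw [this, hm]
      ring
    have e2 : (q : ℤ) * (c + n * (k0 + i)) - q * (c + n * (k0 + j)) = n * (q * ((i : ℤ) - j)) := by
      ring
    have f1 : (n : ℤ) * (p * m - q * ((i : ℤ) - j)) < n * 1 := by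
      have : (n : ℤ) * (p * m - q * ((i : ℤ) - j)) = n * (p * m) - n * (q * ((i : ℤ) - j)) := by
        ring
      rw [this, ← e1, ← e2]
      linarith
    have f2 : (n : ℤ) * (-1) < n * (p * m - q * ((i : ℤ) - j)) := by
      have : (n : ℤ) * (p * m - q * ((i : ℤ) - j)) = n * (p * m) - n * (q * ((i : ℤ) - j)) := by
        ring
      rw [this, ← e1, ← e2]
      linarith
    have g1 := lt_of_mul_lt_mul_left f1 hnz.le
    have g2 := lt_of_mul_lt_mul_left f2 hnz.le
    have g3 : (p : ℤ) * m = q * ((i : ℤ) - j) := by omega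
    have hcop : IsCoprime (p : ℤ) (q : ℤ) :=
      Nat.isCoprime_iff_coprime.2 ((Nat.coprime_primes hp hq).2 hpq)
    have hdvd : (p : ℤ) ∣ (i : ℤ) - j := hcop.dvd_of_dvd_mul_left ⟨m, g3.symm⟩
    have hzero : (i : ℤ) - j = 0 := by
      refine Int.eq_zero_of_abs_lt_dvd hdvd ?_
      rw [abs_lt]
      constructor <;> omega
    omega
  have hfin := Finset.card_le_card_of_injOn (fun i => Z i % n)
    (s := range (p - 1)) (t := insert (n - 1) ((range (n - 1)).filter (fun z => G (z + 1) ≠ G z)))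
    (fun i hi => Finset.mem_coe.2 (hmaps i (Finset.mem_coe.1 hi))) hinj
  rw [Finset.card_range] at hfin
  omega

end Pool.Agent.N213.BM
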