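import Pool.Agent.N213.BM.Stm2

/-! # Project BM, second part: low digits of a window (helper624) -/

set_option autoImplicit false

namespace Pool.Agent.N213.BM

open Finset

namespace Gad2X

theorem sc_pos {L : ℕ → ℕ} (h : Sc L) : ∀ s, 0 < L s := by
  intro s
  induction s with
  | zero => rw [h.zero]; exact one_pos
  | succ s ih =>
    obtain ⟨l, hl, e⟩ := h.step s
    rw [e]
    exact Nat.mul_pos (by omega) ih

/-- the bad low digits -/
theorem bad_card (p c M : ℕ) (hM : 0 < M) :
    ((range M).filter fun α => ¬ (p * α + c) % M + p < M).card ≤ p + 1 := by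
  have h1 : ((range M).filter fun α => ¬ (p * α + c) % M + p < M).card ≤
      (Finset.Icc (c / M) (c / M + p)).card := by
    refine Finset.card_le_card_of_injOn (fun α => (p * α + c) / M) ?_ ?_
    · intro α hα
      have hα' := Finset.mem_filter.1 (Finset.mem_coe.1 hα)
      rw [Finset.mem_range] at hα'
      rw [Finset.mem_coe, Finset.mem_Icc]
      constructor
      · exact Nat.div_le_div_right (Nat.le_add_left _ _)
      · have h2 : p * α + c ≤ p * M + c := Nat.add_le_add_right (Nat.mul_le_mul_left _ hα'.1.le) _
        refine (Nat.div_le_div_right h2).trans (le_of_eq ?_)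
        rw [Nat.add_comm, Nat.add_mul_div_right _ _ hM]
    · intro α hα β hβ h
      have hα' := (Finset.mem_filter.1 (Finset.mem_coe.1 hα)).2
      have hβ' := (Finset.mem_filter.1 (Finset.mem_coe.1 hβ)).2
      have h' : (p * α + c) / M = (p * β + c) / M := h
      have e1 := Nat.mod_add_div (p * α + c) M
      have e2 := Nat.mod_add_div (p * β + c) M
      rw [h'] at e1
      have l1 := Nat.mod_lt (p * α + c) hM
      have l2 := Nat.mod_lt (p * β + c) hM
      generalize (p * α + c) % M = r at *
      generalize (p * β + c) % M = r' at *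
      generalize M * ((p * β + c) / M) = k at *
      rcases lt_trichotomy α β with h3 | h3 | h3
      · have h4 : p * (α + 1) ≤ p * β := Nat.mul_le_mul_left _ h3
        rw [mul_add, mul_one] at h4
        omega
      · exact h3
      · have h4 : p * (β + 1) ≤ p * α := Nat.mul_le_mul_left _ h3
        rw [mul_add, mul_one] at h4
        omega
  rw [Nat.card_Icc] at h1
  omega

/-- one multiplier -/
theorem one {g : ℕ → ZMod 2} {A0 M p c0 c1 α : ℕ}
    (D : ∀ l h, l < A0 * M → g (l + A0 * M * h) = g l + g (A0 * M * h))
    (hA0 : 0 < A0) (hc0 : c0 < A0) (h0 : (p * α + c1) % M + p < M) {u x : ℕ} (hu : u < A0) :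
    g (p * (u + A0 * α + A0 * M * x) + (c0 + A0 * c1)) =
      g ((p * u + c0) % A0 + A0 * ((p * α + c1) % M + (p * u + c0) / A0)) +
      g (A0 * M * (p * x + (p * α + c1) / M)) := by
  have e1 := Nat.mod_add_div (p * u + c0) A0
  have e2 := Nat.mod_add_div (p * α + c1) M
  have l1 := Nat.mod_lt (p * u + c0) hA0
  have hb : (p * u + c0) / A0 ≤ p := by
    rw [← Nat.lt_succ_iff, Nat.div_lt_iff_lt_mul hA0]
    have h5 : p * (u + 1) ≤ p * A0 := Nat.mul_le_mul_left _ hu
    have h6 : p.succ * A0 = p * A0 + A0 := Nat.succ_mul _ _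
    rw [mul_add, mul_one] at h5
    omega
  generalize (p * α + c1) / M = e at *
  generalize (p * α + c1) % M = r0 at *
  generalize (p * u + c0) % A0 = low at *
  generalize (p * u + c0) / A0 = b at *
  have hA : low + A0 * (r0 + b) < A0 * M := by
    have h5 : A0 * (r0 + b + 1) ≤ A0 * M := Nat.mul_le_mul_left _ (by omega)
    rw [mul_add, mul_one] at h5
    omega
  have hn : p * (u + A0 * α + A0 * M * x) + (c0 + A0 * c1) =
      (low + A0 * (r0 + b)) + A0 * M * (p * x + e) := by
    have : p * (u + A0 * α + A0 * M * x) + (c0 + A0 * c1) =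
      (p * u + c0) + A0 * (p * α + c1) + A0 * M * (p * x) := by ring
    rw [this, ← e1, ← e2]
    ring
  rw [hn, D _ _ hA]

end Gad2X

open Gad2X in
/-- GAD2: most low digits of a window do not transmit carries. -/
theorem gad2 : GAD2 := by
  classical
  intro L hL g hg p q c lo mid M hp hpq hlm hM hq
  have hM0 : 0 < M := by omega
  have hA0 := sc_pos hL lo
  have hc := Nat.mod_add_div c (L lo)
  have hc0 := Nat.mod_lt c hA0
  have D : ∀ l h, l < L lo * M → g (l + L lo * M * h) = g l + g (L lo * M * h) := by
    intro l h hl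
    rw [← hM] at hl ⊢
    exact hg _ l h hl
  refine ⟨(range M).filter fun α => (p * α + c / L lo) % M + p < M ∧
    (q * α + c / L lo) % M + q < M, Finset.filter_subset _ _, ?_, ?_⟩
  · have h1 := bad_card p (c / L lo) M hM0
    have h2 := bad_card q (c / L lo) M hM0
    have h3 : range M ⊆ ((range M).filter fun α => (p * α + c / L lo) % M + p < M ∧
        (q * α + c / L lo) % M + q < M) ∪
        (((range M).filter fun α => ¬ (p * α + c / L lo) % M + p < M) ∪
        ((range M).filter fun α => ¬ (q * α + c / L lo) % M + q < M)) := by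
      intro α hα
      rw [Finset.mem_union, Finset.mem_union, Finset.mem_filter, Finset.mem_filter,
        Finset.mem_filter]
      by_cases ha : (p * α + c / L lo) % M + p < M
      · by_cases hb : (q * α + c / L lo) % M + q < M
        · exact Or.inl ⟨hα, ha, hb⟩
        · exact Or.inr (Or.inr ⟨hα, hb⟩)
      · exact Or.inr (Or.inl ⟨hα, ha⟩)
    have h4 := (Finset.card_le_card h3).trans ((Finset.card_union_le _ _).trans
      (Nat.add_le_add_left (Finset.card_union_le _ _) _))
    rw [Finset.card_range] at h4
    omega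
  · intro α hα
    rw [Finset.mem_filter] at hα
    refine ⟨(p * α + c / L lo) / M, (q * α + c / L lo) / M, fun u =>
      g ((p * u + c % L lo) % L lo + L lo * ((p * α + c / L lo) % M + (p * u + c % L lo) / L lo)) +
      g ((q * u + c % L lo) % L lo + L lo * ((q * α + c / L lo) % M + (q * u + c % L lo) / L lo)),
      fun u hu x => ?_⟩
    have f1 := one (p := p) (c0 := c % L lo) (c1 := c / L lo) D hA0 hc0 hα.2.1 hu (x := x)
    have f2 := one (p := q) (c0 := c % L lo) (c1 := c / L lo) D hA0 hc0 hα.2.2 hu (x := x)
    rw [hc, ← hM] at f1 f2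
    rw [f1, f2]
    ring

end Pool.Agent.N213.BM
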