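import Mathlib
import Pool.Agent.N213.BM.Stm2

/-! # Project BM, HYPA: short or linear digits -/

set_option autoImplicit false

namespace Pool.Agent.N213.BM

open Finset

namespace HypAX

/-- the difference of consecutive values on the multiples of `L t` -/
def rho (L : ℕ → ℕ) (g : ℕ → ZMod 2) (t z : ℕ) : ZMod 2 := g (L t * (z + 1)) + g (L t * z)

lemma zm (x : ZMod 2) : x = 0 ∨ x = 1 := by
  revert x
  decide

lemma pos {L : ℕ → ℕ} (hS : Sc L) (t : ℕ) : 0 < L t := by
  induction t with
  | zero => rw [hS.zero]; exact one_pos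
  | succ t ih =>
    obtain ⟨l, hl, h⟩ := hS.step t
    rw [h]
    exact Nat.mul_pos (by omega) ih

lemma g0 {L : ℕ → ℕ} {g : ℕ → ZMod 2} (hS : Sc L) (hD : Dig L g) : g 0 = 0 := by
  have h := hD 0 0 0 (by rw [hS.zero]; exact one_pos)
  rw [mul_zero, add_zero] at h
  have h2 : g 0 + g 0 = 0 := CharTwo.add_self_eq_zero _
  rw [h]
  exact h2

lemma rho_zero {L : ℕ → ℕ} {g : ℕ → ZMod 2} (hS : Sc L) (hD : Dig L g) (t : ℕ) :
    rho L g t 0 = g (L t) := by
  unfold rho
  rw [zero_add, mul_one, mul_zero, g0 hS hD, add_zero]

lemma rho_copy {L : ℕ → ℕ} {g : ℕ → ZMod 2} (hS : Sc L) (hD : Dig L g) (t t' n z i : ℕ)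
    (h : L t' = L t * n) (hz : z + 1 < n) : rho L g t (z + n * i) = rho L g t z := by
  have hp := pos hS t
  unfold rho
  have e1 : L t * (z + n * i + 1) = L t * (z + 1) + L t' * i := by rw [h]; ring
  have e2 : L t * (z + n * i) = L t * z + L t' * i := by rw [h]; ring
  rw [e1, e2, hD t' (L t * (z + 1)) i (by rw [h]; exact Nat.mul_lt_mul_of_pos_left hz hp),
    hD t' (L t * z) i (by rw [h]; exact Nat.mul_lt_mul_of_pos_left (by omega) hp)]
  have e3 : g (L t' * i) + g (L t' * i) = 0 := CharTwo.add_self_eq_zero _
  linear_combination e3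

lemma lin_val {L : ℕ → ℕ} {g : ℕ → ZMod 2} (hS : Sc L) {t a : ℕ} (ha : L (t + 1) = a * L t)
    (hL : Lin L g t) {d : ℕ} (hd : d < a) : g (L t * d) = (d : ZMod 2) * g (L t) :=
  hL d (by rw [ha]; exact Nat.mul_lt_mul_of_pos_right hd (pos hS t))

lemma lin_rho {L : ℕ → ℕ} {g : ℕ → ZMod 2} (hS : Sc L) {t a : ℕ} (ha : L (t + 1) = a * L t)
    (hL : Lin L g t) {z : ℕ} (hz : z + 1 < a) : rho L g t z = g (L t) := by
  unfold rho
  rw [lin_val hS ha hL hz, lin_val hS ha hL (by omega : z < a)]
  push_cast
  have e : (z : ZMod 2) * g (L t) + (z : ZMod 2) * g (L t) = 0 := CharTwo.add_self_eq_zero _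
  linear_combination e

/-- if the digit is not linear, some difference is different -/
lemma not_lin {L : ℕ → ℕ} {g : ℕ → ZMod 2} (hS : Sc L) (hD : Dig L g) {t a : ℕ}
    (ha : L (t + 1) = a * L t) (hL : ¬ Lin L g t) : ∃ v, v + 1 < a ∧ rho L g t v ≠ g (L t) := by
  by_contra hcon
  push Not at hcon
  apply hL
  have key : ∀ d, d < a → g (L t * d) = (d : ZMod 2) * g (L t) := by
    intro d
    induction d with
    | zero =>
      intro _
      rw [mul_zero, g0 hS hD, Nat.cast_zero, zero_mul]
    | succ d ih =>
      intro hd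
      have h1 := hcon d hd
      have h2 := ih (by omega)
      unfold rho at h1
      have e : g (L t * d) + g (L t * d) = 0 := CharTwo.add_self_eq_zero _
      push_cast
      linear_combination h1 + h2 - e
  intro d hd
  apply key
  rw [ha] at hd
  exact lt_of_mul_lt_mul_right hd (Nat.zero_le _)

lemma mixed_of {g : ℕ → ZMod 2} {B n : ℕ} {δ : ℝ} (e : ZMod 2)
    (h1 : δ * n ≤ (((range (n - 1)).filter (fun z => g (B * (z + 1)) + g (B * z) = e)).card : ℝ))
    (h2 : δ * n ≤ (((range (n - 1)).filter (fun z => g (B * (z + 1)) + g (B * z) ≠ e)).card : ℝ)) :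
    Mixed δ g B n := by
  have f0 : ∀ x y : ZMod 2, x + y = 0 ↔ x = y := by decide
  have f1 : ∀ x y : ZMod 2, x + y = 1 ↔ x ≠ y := by decide
  have f2 : ∀ x y : ZMod 2, x + y ≠ 1 ↔ x = y := by decide
  rcases zm e with rfl | rfl
  · simp only [f0, Ne] at h1 h2
    exact ⟨h1, h2⟩
  · simp only [f1] at h1
    simp only [f2] at h2
    exact ⟨h2, h1⟩

/-- the irregular pairs at the next level -/
lemma cardJ {L : ℕ → ℕ} {g : ℕ → ZMod 2} (hS : Sc L) (hD : Dig L g) {t b c K : ℕ} (e : ZMod 2)
    (hb2 : 2 ≤ b) (hc2 : 2 ≤ c) (hb : L (t + 1) = b * L t)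
    (hT : L (t + 1) ≤ K * L t ∨ Lin L g t) (he : g (L t) ≠ e) :
    b * c ≤ 2 * max K 1 * ((range (b * c - 1)).filter (fun z => rho L g t z ≠ e)).card := by
  have hb' : L (t + 1) = L t * b := by rw [hb, mul_comm]
  by_cases hbK : b ≤ K
  · have h1 : c ≤ ((range (b * c - 1)).filter (fun z => rho L g t z ≠ e)).card := by
      have h2 := card_le_card_of_injOn (s := range c)
        (t := (range (b * c - 1)).filter (fun z => rho L g t z ≠ e)) (fun i => 0 + b * i) (by
          intro i hi
          rw [mem_coe, mem_range] at hi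
          rw [mem_coe, mem_filter, mem_range]
          refine ⟨?_, ?_⟩
          · have : b * (i + 1) ≤ b * c := Nat.mul_le_mul_left b hi
            rw [mul_add, mul_one] at this
            simp only [zero_add]
            omega
          · rw [rho_copy hS hD t (t + 1) b 0 i hb' (by omega), rho_zero hS hD]
            exact he) (by
          intro i _ j _ hij
          simp only [zero_add] at hij
          exact Nat.eq_of_mul_eq_mul_left (by omega) hij)
      rwa [card_range] at h2
    have h3 : 1 ≤ max K 1 := le_max_right _ _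
    have h4 : K ≤ max K 1 := le_max_left _ _
    calc b * c ≤ max K 1 * ((range (b * c - 1)).filter (fun z => rho L g t z ≠ e)).card :=
          Nat.mul_le_mul (hbK.trans h4) h1
      _ ≤ _ := by
        rw [mul_assoc]
        exact Nat.le_mul_of_pos_left _ two_pos
  · have hL : Lin L g t := by
      rcases hT with h | h
      · exfalso
        rw [hb] at h
        exact hbK (le_of_mul_le_mul_right h (pos hS t))
      · exact h
    have h1 : (b - 1) * c ≤ ((range (b * c - 1)).filter (fun z => rho L g t z ≠ e)).card := by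
      have h2 := card_le_card_of_injOn (s := range (b - 1) ×ˢ range c)
        (t := (range (b * c - 1)).filter (fun z => rho L g t z ≠ e)) (fun p => p.1 + b * p.2) (by
          rintro ⟨v, i⟩ hi
          rw [mem_coe, mem_product, mem_range, mem_range] at hi
          rw [mem_coe, mem_filter, mem_range]
          obtain ⟨hv, hi⟩ := hi
          simp only at hv hi ⊢
          refine ⟨?_, ?_⟩
          · have : b * (i + 1) ≤ b * c := Nat.mul_le_mul_left b hi
            rw [mul_add, mul_one] at this
            omega
          · rw [rho_copy hS hD t (t + 1) b v i hb' (by omega), lin_rho hS hb hL (by omega)]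
            exact he) (by
          rintro ⟨v, i⟩ hi ⟨v', i'⟩ hi' hij
          rw [mem_coe, mem_product, mem_range, mem_range] at hi hi'
          simp only at hi hi' hij
          have hb0 : 0 < b := by omega
          have m1 : (v + b * i) % b = v := by
            rw [Nat.add_mul_mod_self_left]
            exact Nat.mod_eq_of_lt (by omega)
          have m2 : (v' + b * i') % b = v' := by
            rw [Nat.add_mul_mod_self_left]
            exact Nat.mod_eq_of_lt (by omega)
          have hv : v = v' := by rw [← m1, ← m2, hij]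
          subst hv
          have hi2 : b * i = b * i' := by omega
          have := Nat.eq_of_mul_eq_mul_left hb0 hi2
          rw [this])
      rwa [card_product, card_range, card_range] at h2
    have h3 : 1 ≤ max K 1 := le_max_right _ _
    have h5 : b * c ≤ 2 * ((b - 1) * c) := by
      rw [← mul_assoc]
      exact Nat.mul_le_mul_right c (by omega)
    calc b * c ≤ 2 * ((b - 1) * c) := h5
      _ ≤ 2 * ((range (b * c - 1)).filter (fun z => rho L g t z ≠ e)).card :=
          Nat.mul_le_mul_left 2 h1
      _ ≤ _ := Nat.mul_le_mul_right _ (by omega)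

end HypAX

open HypAX

theorem hypa : HYPA := by
  intro L g hS hD K T hT
  by_contra hcon
  unfold Hyp2 at hcon
  push Not at hcon
  obtain ⟨h1, h2, h3⟩ := hcon
  obtain ⟨T0, hT0⟩ := h3 (1 / (2 * (max K 1 : ℕ))) (by
    have : (1 : ℝ) ≤ (max K 1 : ℕ) := by exact_mod_cast le_max_right K 1
    positivity)
  obtain ⟨K1, hK1⟩ : ∃ K1, K1 = max (max K 1) T0 := ⟨_, rfl⟩
  have hK1a : max K 1 ≤ K1 := by rw [hK1]; exact le_max_left _ _
  have hK1b : T0 ≤ K1 := by rw [hK1]; exact le_max_right _ _
  have hK1c : 1 ≤ K1 := (le_max_right K 1).trans hK1a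
  have hK1d : K ≤ K1 := (le_max_left K 1).trans hK1a
  have hK1r : (1 : ℝ) ≤ K1 := by exact_mod_cast hK1c
  obtain ⟨T2, hT2⟩ := h2 (1 / (2 * (K1 : ℝ) ^ 2)) (by positivity)
  obtain ⟨t, ht, hreg⟩ := h1 (max (max T T0) T2)
  have ht1 : T ≤ t := ((le_max_left _ _).trans (le_max_left _ _)).trans ht
  have ht2 : T0 ≤ t := ((le_max_right _ _).trans (le_max_left _ _)).trans ht
  have ht3 : T2 ≤ t := (le_max_right _ _).trans ht
  obtain ⟨a, ha2, ha⟩ := hS.step t
  obtain ⟨b, hb2, hb⟩ := hS.step (t + 1)
  obtain ⟨c, hc2, hc⟩ := hS.step (t + 2)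
  have hp := pos hS t
  have hp1 := pos hS (t + 1)
  have hn3 : L (t + 3) / L t = a * (b * c) := by
    have : L (t + 3) = (a * (b * c)) * L t := by
      rw [hc, hb, ha]; ring
    rw [this, Nat.mul_div_cancel _ hp]
  have hn2 : L (t + 3) / L (t + 1) = b * c := by
    have : L (t + 3) = (b * c) * L (t + 1) := by
      rw [hc, hb]; ring
    rw [this, Nat.mul_div_cancel _ hp1]
  have hn1 : L (t + 1) / L t = a := by
    rw [ha, Nat.mul_div_cancel _ hp]
  have ha' : L (t + 1) = L t * a := by rw [ha, mul_comm]
  apply hT2 t ht3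
  rw [hn3]
  -- the pairs with the value of the first one
  have bnd : ∀ v i, v + 1 < a → i < b * c → v + a * i < a * (b * c) - 1 := by
    intro v i hv hi
    have : a * (i + 1) ≤ a * (b * c) := Nat.mul_le_mul_left a hi
    rw [mul_add, mul_one] at this
    omega
  have cnt : ∀ (P : ℕ → Prop) [DecidablePred P] (v : ℕ), v + 1 < a →
      (∀ i, i < b * c → P (v + a * i)) →
      b * c ≤ ((range (a * (b * c) - 1)).filter P).card := by
    intro P _ v hv hP
    have h4 := card_le_card_of_injOn (s := range (b * c))
      (t := (range (a * (b * c) - 1)).filter P) (fun i => v + a * i) (by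
        intro i hi
        rw [mem_coe, mem_range] at hi
        rw [mem_coe, mem_filter, mem_range]
        exact ⟨bnd v i hv hi, hP i hi⟩) (by
        intro i _ j _ hij
        have hij' : a * i = a * j := by
          have : v + a * i = v + a * j := hij
          omega
        exact Nat.eq_of_mul_eq_mul_left (by omega) hij')
    rwa [card_range] at h4
  have same : b * c ≤ ((range (a * (b * c) - 1)).filter
      (fun z => g (L t * (z + 1)) + g (L t * z) = g (L t))).card := by
    apply cnt _ 0 (by omega)
    intro i hi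
    have := rho_copy hS hD t (t + 1) a 0 i ha' (by omega)
    rw [rho_zero hS hD] at this
    exact this
  -- conversion to real numbers
  have conv : ∀ m : ℕ, a * (b * c) ≤ 2 * K1 ^ 2 * m →
      1 / (2 * (K1 : ℝ) ^ 2) * ((a * (b * c) : ℕ) : ℝ) ≤ (m : ℝ) := by
    intro m hm
    have hm' : ((a * (b * c) : ℕ) : ℝ) ≤ 2 * (K1 : ℝ) ^ 2 * m := by exact_mod_cast hm
    rw [one_div, inv_mul_le_iff₀ (by positivity)]
    exact hm'
  have conv2 : ∀ m : ℕ, a ≤ K1 → b * c ≤ m → a * (b * c) ≤ 2 * K1 ^ 2 * m := by
    intro m ha1 hm
    have e1 : a * (b * c) ≤ K1 * m := Nat.mul_le_mul ha1 hm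
    have e2 : K1 * m ≤ 2 * K1 ^ 2 * m := Nat.mul_le_mul_right m (by nlinarith)
    exact e1.trans e2
  by_cases hLin : Lin L g t
  · -- linear digit
    have hne : g (L (t + 1)) ≠ (a : ZMod 2) * g (L t) := by
      intro h
      apply hreg
      intro d hd
      rw [ha] at hd
      have hd' : d ≤ a := le_of_mul_le_mul_right hd hp
      rcases Nat.lt_or_eq_of_le hd' with h4 | h4
      · exact lin_val hS ha hLin h4
      · rw [h4, ← ha']
        exact h
    have hJ := cardJ hS hD (t := t + 1) (b := b) (c := c) (K := K) ((a : ZMod 2) * g (L t)) hb2 hc2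
      hb (hT (t + 1) (by omega)) hne
    by_cases haK : a ≤ K1
    · -- short
      have hJ2 : ((range (b * c - 1)).filter
          (fun z => rho L g (t + 1) z ≠ (a : ZMod 2) * g (L t))).card ≤
          ((range (a * (b * c) - 1)).filter
            (fun z => g (L t * (z + 1)) + g (L t * z) ≠ g (L t))).card := by
        refine card_le_card_of_injOn (fun k => (a - 1) + a * k) ?_ ?_
        · intro k hk
          rw [mem_coe, mem_filter, mem_range] at hk
          rw [mem_coe, mem_filter, mem_range]
          obtain ⟨hk1, hk2⟩ := hk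
          refine ⟨?_, ?_⟩
          · have : a * (k + 2) ≤ a * (b * c) := Nat.mul_le_mul_left a (by omega)
            rw [mul_add] at this
            have h5 : (fun k => (a - 1) + a * k) k = (a - 1) + a * k := rfl
            rw [h5]
            omega
          · intro h6
            apply hk2
            have e1 : L t * ((fun k => (a - 1) + a * k) k + 1) = L (t + 1) * (k + 1) := by
              rw [ha']
              have : (fun k => (a - 1) + a * k) k + 1 = a * (k + 1) := by
                have h5 : (fun k => (a - 1) + a * k) k = (a - 1) + a * k := rfl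
                rw [h5, mul_add, mul_one]
                omega
              rw [this, mul_assoc]
            have e2 : L t * ((fun k => (a - 1) + a * k) k) = L t * (a - 1) + L (t + 1) * k := by
              rw [ha']
              ring
            rw [e1, e2, hD (t + 1) (L t * (a - 1)) k (by
              rw [ha']; exact Nat.mul_lt_mul_of_pos_left (by omega) hp),
              lin_val hS ha hLin (by omega : a - 1 < a)] at h6
            have e3 : ((a : ℕ) : ZMod 2) = ((a - 1 : ℕ) : ZMod 2) + 1 := by
              have : a = (a - 1) + 1 := by omega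
              conv_lhs => rw [this]
              push_cast
              rfl
            have e4 : ((a - 1 : ℕ) : ZMod 2) * g (L t) + ((a - 1 : ℕ) : ZMod 2) * g (L t) = 0 :=
              CharTwo.add_self_eq_zero _
            unfold rho
            rw [e3]
            linear_combination h6 - e4
        · intro i _ j _ hij
          have hij' : a * i = a * j := by
            have : (a - 1) + a * i = (a - 1) + a * j := hij
            omega
          exact Nat.eq_of_mul_eq_mul_left (by omega) hij'
      apply mixed_of (g (L t))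
      · exact conv _ (conv2 _ haK same)
      · apply conv
        have e1 : a * (b * c) ≤ K1 * (2 * K1 * ((range (a * (b * c) - 1)).filter
            (fun z => g (L t * (z + 1)) + g (L t * z) ≠ g (L t))).card) := by
          refine Nat.mul_le_mul haK (hJ.trans ?_)
          exact Nat.mul_le_mul (Nat.mul_le_mul_left 2 hK1a) hJ2
        refine e1.trans (le_of_eq ?_)
        ring
    · -- long: a junction
      exfalso
      push Not at haK
      refine hT0 t ht2 ?_ ⟨hLin, ?_⟩
      · rw [ha]
        exact Nat.mul_le_mul_right _ (hK1b.trans haK.le)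
      · rw [hn2, hn1]
        have hm' : ((b * c : ℕ) : ℝ) ≤ 2 * (max K 1 : ℕ) * (((range (b * c - 1)).filter
            (fun z => rho L g (t + 1) z ≠ (a : ZMod 2) * g (L t))).card : ℝ) := by
          exact_mod_cast hJ
        have h7 : (1 : ℝ) ≤ (max K 1 : ℕ) := by exact_mod_cast le_max_right K 1
        rw [one_div, inv_mul_le_iff₀ (by positivity)]
        exact hm'
  · -- not linear
    have haK : a ≤ K1 := by
      rcases hT t ht1 with h | h
      · rw [ha] at h
        exact (le_of_mul_le_mul_right h hp).trans hK1d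
      · exact absurd h hLin
    obtain ⟨v, hv, hv2⟩ := not_lin hS hD ha hLin
    apply mixed_of (g (L t))
    · exact conv _ (conv2 _ haK same)
    · apply conv _ (conv2 _ haK ?_)
      apply cnt _ v hv
      intro i hi
      have := rho_copy hS hD t (t + 1) a v i ha' hv
      unfold rho at this hv2
      rw [this]
      exact hv2

end Pool.Agent.N213.BM
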