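import Pool.Agent.N213.BM.Stm

/-! # Project BM, MORSE: blocks and digits -/

set_option autoImplicit false

namespace Pool.Agent.N213.BM

namespace MorseX

theorem bmul_length (B C : List Bool) : (bmul B C).length = B.length * C.length := by
  unfold bmul
  induction C with
  | nil => simp
  | cons c C ih =>
    rw [List.flatMap_cons, List.length_append, ih, List.length_map, List.length_cons]
    ring

theorem bmul_get (B C : List Bool) (l h : ℕ) (β γ : Bool) (hβ : B[l]? = some β)
    (hγ : C[h]? = some γ) : (bmul B C)[l + B.length * h]? = some (xor β γ) := by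
  induction C generalizing h with
  | nil => simp at hγ
  | cons c C ih =>
    have hl : l < B.length := by
      rw [List.getElem?_eq_some_iff] at hβ
      exact hβ.1
    have e : bmul B (c :: C) = (B.map fun b => xor b c) ++ bmul B C := by
      unfold bmul
      rw [List.flatMap_cons]
    rw [e]
    cases h with
    | zero =>
      rw [List.getElem?_cons_zero] at hγ
      injection hγ with hγ
      rw [mul_zero, add_zero, List.getElem?_append_left (by rw [List.length_map]; exact hl),
        List.getElem?_map, hβ, hγ]
      rfl
    | succ h =>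
      rw [List.getElem?_cons_succ] at hγ
      rw [List.getElem?_append_right (by rw [List.length_map]; nlinarith), List.length_map]
      have e2 : l + B.length * (h + 1) - B.length = l + B.length * h := by
        rw [mul_add, mul_one]
        omega
      rw [e2]
      exact ih h hγ

theorem bmul_assoc (A B C : List Bool) : bmul (bmul A B) C = bmul A (bmul B C) := by
  unfold bmul
  rw [List.flatMap_assoc]
  congr 1
  funext c
  rw [List.map_flatMap, List.flatMap_map]
  congr 1
  funext b
  rw [List.map_map]
  congr 1
  funext a
  exact Bool.xor_assoc a b c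

theorem bprod_add (b : ℕ → List Bool) (j n : ℕ) :
    bprod b (j + 1 + n) = bmul (bprod b j) (bprod (fun i => b (j + 1 + i)) n) := by
  induction n with
  | zero => rfl
  | succ n ih =>
    show bmul (bprod b (j + 1 + n)) (b (j + 1 + n + 1)) =
      bmul (bprod b j) (bmul (bprod (fun i => b (j + 1 + i)) n) (b (j + 1 + (n + 1))))
    rw [ih, bmul_assoc]
    rfl

theorem bprod_length (b : ℕ → List Bool) (hb : ∀ i, 2 ≤ (b i).length) (n : ℕ) :
    n < (bprod b n).length := by
  induction n with
  | zero => exact lt_of_lt_of_le (by norm_num) (hb 0)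
  | succ n ih =>
    show n + 1 < (bmul (bprod b n) (b (n + 1))).length
    rw [bmul_length]
    have := hb (n + 1)
    nlinarith

/-- the scale -/
def sc (b : ℕ → List Bool) : ℕ → ℕ
  | 0 => 1
  | n + 1 => (b n).length * sc b n

theorem sc_length (b : ℕ → List Bool) (n : ℕ) : (bprod b n).length = sc b (n + 1) := by
  induction n with
  | zero =>
    show (b 0).length = (b 0).length * 1
    rw [mul_one]
  | succ n ih =>
    show (bmul (bprod b n) (b (n + 1))).length = (b (n + 1)).length * sc b (n + 1)
    rw [bmul_length, ih, mul_comm]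

variable {b : ℕ → List Bool} {x : ℕ → Bool}

theorem x_zero (h : IsMorse b x) : x 0 = false := by
  have h1 := h.pre 0 0 (lt_of_lt_of_le (by norm_num) (h.len 0))
  have h2 := h.head 0
  have h3 : (b 0)[0]? = some (x 0) := h1
  rw [h2] at h3
  injection h3 with h3
  exact h3.symm

/-- the letters of the tail -/
theorem x_tail (h : IsMorse b x) (j n l d : ℕ) (hl : l < sc b (j + 1))
    (hd : d < (bprod (fun i => b (j + 1 + i)) n).length) :
    ∃ γ, (bprod (fun i => b (j + 1 + i)) n)[d]? = some γ ∧
      x (l + sc b (j + 1) * d) = xor (x l) γ := by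
  obtain ⟨γ, hγ⟩ : ∃ γ, (bprod (fun i => b (j + 1 + i)) n)[d]? = some γ :=
    ⟨_, List.getElem?_eq_getElem hd⟩
  refine ⟨γ, hγ, ?_⟩
  have h1 := h.pre j l (by rw [sc_length]; exact hl)
  have h2 := bmul_get _ _ l d _ _ h1 hγ
  rw [← bprod_add, sc_length] at h2
  have h3 : l + sc b (j + 1) * d < (bprod b (j + 1 + n)).length := by
    rw [List.getElem?_eq_some_iff] at h2
    exact h2.1
  have h4 := h.pre _ _ h3
  rw [h4] at h2
  injection h2

theorem x_add (h : IsMorse b x) (j l d : ℕ) (hl : l < sc b j) :
    x (l + sc b j * d) = xor (x l) (x (sc b j * d)) := by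
  cases j with
  | zero =>
    have hl' : l < 1 := hl
    have : l = 0 := by omega
    subst this
    rw [x_zero h, Bool.false_xor, zero_add]
  | succ j =>
    have hd := bprod_length (fun i => b (j + 1 + i)) (fun i => h.len _) d
    obtain ⟨γ, h1, h2⟩ := x_tail h j d l d hl hd
    obtain ⟨γ', h3, h4⟩ := x_tail h j d 0 d (by omega) hd
    rw [h1] at h3
    injection h3 with h3
    rw [zero_add, x_zero h, Bool.false_xor] at h4
    rw [h2, h4, h3]

/-- the letters of the blocks -/
theorem x_block (h : IsMorse b x) (t d : ℕ) (hd : d < (b t).length) :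
    (b t)[d]? = some (x (sc b t * d)) := by
  cases t with
  | zero =>
    have h1 := h.pre 0 d hd
    have e : sc b 0 * d = d := by
      show 1 * d = d
      rw [one_mul]
    rw [e]
    exact h1
  | succ j =>
    have hp : 0 < sc b (j + 1) := by
      rw [← sc_length]
      have := bprod_length b h.len j
      omega
    obtain ⟨γ, h1, h2⟩ := x_tail h j 0 0 d hp hd
    rw [zero_add, x_zero h, Bool.false_xor] at h2
    rw [h2]
    exact h1

/-- letters as elements of `ZMod 2` -/
def zb (c : Bool) : ZMod 2 := if c then 1 else 0

theorem zb_xor (a c : Bool) : zb (xor a c) = zb a + zb c := by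
  cases a <;> cases c <;> decide

theorem zb_inj {a c : Bool} : zb a = zb c ↔ a = c := by
  cases a <;> cases c <;> decide

theorem zb_mul (d : ℕ) (c : Bool) : (d : ZMod 2) * zb c = zb (decide (d % 2 = 1) && c) := by
  rw [← ZMod.natCast_mod d 2]
  rcases Nat.mod_two_eq_zero_or_one d with h | h
  · rw [h]
    cases c <;> decide
  · rw [h]
    cases c <;> decide

end MorseX

open MorseX

theorem morse : MORSE := by
  intro b x h
  have hpos : ∀ i, 0 < sc b i := by
    intro i
    induction i with
    | zero => exact Nat.one_pos
    | succ i ih => exact Nat.mul_pos (by have := h.len i; omega) ih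
  refine ⟨sc b, ⟨rfl, fun j => ⟨(b j).length, h.len j, rfl⟩⟩, ?_, fun i => rfl, ?_⟩
  · intro j l d hl
    show zb (x (l + sc b j * d)) = zb (x l) + zb (x (sc b j * d))
    rw [x_add h j l d hl, zb_xor]
  · intro t
    have h1 : (b t)[1]?.getD false = x (sc b t) := by
      have h2 := x_block h t 1 (by have := h.len t; omega)
      rw [mul_one] at h2
      rw [h2]
      rfl
    have h3 : (b (t + 1))[1]? = some (x (sc b (t + 1))) := by
      have h2 := x_block h (t + 1) 1 (by have := h.len (t + 1); omega)
      rwa [mul_one] at h2
    have h4 : sc b (t + 1) = sc b t * (b t).length := mul_comm _ _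
    have h5 : ∀ d : ℕ, ((if x (sc b t * d) then 1 else 0 : ZMod 2) =
        (d : ZMod 2) * (if x (sc b t) then 1 else 0)) ↔
        x (sc b t * d) = (decide (d % 2 = 1) && x (sc b t)) := by
      intro d
      show zb _ = (d : ZMod 2) * zb _ ↔ _
      rw [zb_mul, zb_inj]
    constructor
    · intro hR
      refine ⟨fun d hd => ?_, ?_⟩
      · rw [x_block h t d hd, h1]
        congr 1
        rw [← h5]
        apply hR
        show d * sc b t ≤ (b t).length * sc b t
        exact Nat.mul_le_mul_right _ hd.le
      · rw [h3, h1]
        congr 1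
        rw [h4, ← h5]
        apply hR
        exact le_rfl
    · rintro ⟨hB1, hB2⟩ d hd
      show (if x (sc b t * d) then 1 else 0 : ZMod 2) =
        (d : ZMod 2) * (if x (sc b t) then 1 else 0)
      rw [h5]
      have hd' : d ≤ (b t).length := Nat.le_of_mul_le_mul_right hd (hpos t)
      rcases Nat.lt_or_eq_of_le hd' with hd' | rfl
      · have h6 := hB1 d hd'
        rw [x_block h t d hd', h1] at h6
        injection h6
      · rw [h3, h1, h4] at hB2
        injection hB2

end Pool.Agent.N213.BM
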