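import Pool.Agent.N213.BM.Stm2
import Pool.Agent.N213.BM.Morse

/-! # Project BM, MORSE2: blocks and digits (helper250, from the file of helper72) -/

set_option autoImplicit false

namespace Pool.Agent.N213.BM

open Finset

namespace Morse2X

open MorseX

variable {b : ℕ → List Bool} {x : ℕ → Bool}

theorem sc_pos (h : IsMorse b x) (i : ℕ) : 0 < sc b i := by
  induction i with
  | zero => exact Nat.one_pos
  | succ i ih => exact Nat.mul_pos (by have := h.len i; omega) ih

theorem pair_iff (h : IsMorse b x) (t v : ℕ) (hv : v ∈ range ((b t).length - 1)) :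
    ((if x (sc b t * (v + 1)) then 1 else 0 : ZMod 2) = (if x (sc b t * v) then 1 else 0)) ↔
      (b t)[v + 1]? = (b t)[v]? := by
  rw [Finset.mem_range] at hv
  have h2 := h.len t
  rw [x_block h t (v + 1) (by omega), x_block h t v (by omega)]
  show zb _ = zb _ ↔ _
  rw [zb_inj]
  constructor
  · intro e
    rw [e]
  · intro e
    injection e

end Morse2X

open MorseX Morse2X

theorem morse2 : MORSE2 := by
  intro b x h
  have hpos := sc_pos h
  refine ⟨sc b, ⟨rfl, fun j => ⟨(b j).length, h.len j, rfl⟩⟩, ?_, fun i => rfl, ?_, ?_⟩
  · intro j l d hl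
    show zb (x (l + sc b j * d)) = zb (x l) + zb (x (sc b j * d))
    rw [x_add h j l d hl, zb_xor]
  · intro t hB d hd
    have hd' : d < (b t).length := by
      have hd2 : d * sc b t < (b t).length * sc b t := hd
      exact Nat.lt_of_mul_lt_mul_right hd2
    have h1 : (b t)[1]?.getD false = x (sc b t) := by
      have h2 := x_block h t 1 (by have := h.len t; omega)
      rw [mul_one] at h2
      rw [h2]
      rfl
    have h6 := hB d hd'
    rw [x_block h t d hd', h1] at h6
    injection h6 with h6
    show zb (x (sc b t * d)) = (d : ZMod 2) * zb (x (sc b t))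
    rw [zb_mul, zb_inj]
    exact h6
  · intro δ t hM
    have hn : sc b (t + 1) / sc b t = (b t).length := by
      show (b t).length * sc b t / sc b t = (b t).length
      exact Nat.mul_div_cancel _ (hpos t)
    rw [hn]
    refine ⟨?_, ?_⟩
    · refine hM.1.trans (le_of_eq ?_)
      congr 2
      exact (Finset.filter_congr fun v hv => pair_iff h t v hv).symm
    · refine hM.2.trans (le_of_eq ?_)
      congr 2
      exact (Finset.filter_congr fun v hv => not_congr (pair_iff h t v hv)).symm

end Pool.Agent.N213.BM
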