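import Pool.Agent.N213.BM.Stm
import Pool.Agent.H446R3.SK.Mob

/-! # Project BM: the Möbius function and periodic functions (`PER`) -/

set_option autoImplicit false

namespace Pool.Agent.N213.BM.PerX

open Finset Complex
open Pool.Agent.H446R3.SK (dav_eps)

/-- the primitive root -/
noncomputable def zz (Q : ℕ) : ℂ := Complex.exp (2 * Real.pi * Complex.I / Q)

theorem zz_prim {Q : ℕ} (hQ : 1 ≤ Q) : IsPrimitiveRoot (zz Q) Q :=
  Complex.isPrimitiveRoot_exp Q (by omega)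

theorem norm_zz (Q : ℕ) : ‖zz Q‖ = 1 := by
  have : (2 * Real.pi * Complex.I / Q : ℂ) = ((2 * Real.pi / Q : ℝ) : ℂ) * Complex.I := by
    push_cast; ring
  rw [zz, this, Complex.norm_exp_ofReal_mul_I]

theorem orth {Q : ℕ} (hQ : 1 ≤ Q) (k : ℕ) :
    ∑ h ∈ range Q, (zz Q ^ k) ^ h = if Q ∣ k then (Q : ℂ) else 0 := by
  split_ifs with hk
  · rw [((zz_prim hQ).pow_eq_one_iff_dvd k).2 hk]
    simp
  · have h1 : zz Q ^ k ≠ 1 := fun h => hk (((zz_prim hQ).pow_eq_one_iff_dvd k).1 h)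
    rw [geom_sum_eq h1, ← pow_mul, mul_comm k Q, pow_mul, (zz_prim hQ).pow_eq_one, one_pow,
      sub_self, zero_div]

theorem per_mod {Q : ℕ} {ψ : ℕ → ℂ} (hψ : ∀ n, ψ (n + Q) = ψ n) (n : ℕ) :
    ψ n = ψ (n % Q) := by
  have h1 : ∀ k m, ψ (m + Q * k) = ψ m := by
    intro k
    induction k with
    | zero => intro m; simp
    | succ k ih =>
      intro m
      rw [Nat.mul_succ, ← add_assoc, hψ, ih]
  conv_lhs => rw [← Nat.mod_add_div n Q]
  exact h1 _ _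

/-- the Fourier coefficients -/
noncomputable def cf (Q : ℕ) (ψ : ℕ → ℂ) (h : ℕ) : ℂ :=
  ∑ j ∈ range Q, ψ j * zz Q ^ ((Q - 1) * j * h)

theorem norm_cf {Q : ℕ} {ψ : ℕ → ℂ} (hb : ∀ n, ‖ψ n‖ ≤ 1) (h : ℕ) : ‖cf Q ψ h‖ ≤ Q := by
  unfold cf
  refine (norm_sum_le _ _).trans ?_
  refine (Finset.sum_le_sum (g := fun _ => (1 : ℝ)) fun j _ => ?_).trans ?_
  · rw [norm_mul, norm_pow, norm_zz, one_pow, mul_one]
    exact hb j
  · simp

theorem dvd_iff {Q : ℕ} (hQ : 1 ≤ Q) (n j : ℕ) (hj : j < Q) :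
    Q ∣ n + (Q - 1) * j ↔ j = n % Q := by
  obtain ⟨q, rfl⟩ : ∃ q, Q = q + 1 := ⟨Q - 1, by omega⟩
  rw [Nat.add_sub_cancel]
  have h1 : n + q * j + j = n + (q + 1) * j := by ring
  constructor
  · intro h
    have h2 : (n + q * j + j) % (q + 1) = j := by
      rw [Nat.add_mod, Nat.mod_eq_zero_of_dvd h, zero_add, Nat.mod_mod, Nat.mod_eq_of_lt hj]
    rw [h1, Nat.add_mul_mod_self_left] at h2
    exact h2.symm
  · intro h
    have h2 : (n + q * j + j) % (q + 1) = j := by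
      rw [h1, Nat.add_mul_mod_self_left, ← h]
    have h3 : (n + q * j + j) ≡ 0 + j [MOD (q + 1)] := by
      rw [Nat.ModEq, h2, zero_add, Nat.mod_eq_of_lt hj]
    have h4 := Nat.ModEq.add_right_cancel' j h3
    exact (Nat.modEq_zero_iff_dvd).1 h4

theorem four {Q : ℕ} (hQ : 1 ≤ Q) {ψ : ℕ → ℂ} (hψ : ∀ n, ψ (n + Q) = ψ n) (n : ℕ) :
    (Q : ℂ) * ψ n = ∑ h ∈ range Q, cf Q ψ h * zz Q ^ (h * n) := by
  have h1 : ∀ h ∈ range Q, cf Q ψ h * zz Q ^ (h * n) =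
      ∑ j ∈ range Q, ψ j * (zz Q ^ (n + (Q - 1) * j)) ^ h := by
    intro h _
    rw [cf, Finset.sum_mul]
    refine Finset.sum_congr rfl fun j _ => ?_
    rw [mul_assoc, ← pow_add, ← pow_mul]
    congr 2
    ring
  rw [Finset.sum_congr rfl h1, Finset.sum_comm]
  have h2 : ∀ j ∈ range Q, ∑ h ∈ range Q, ψ j * (zz Q ^ (n + (Q - 1) * j)) ^ h =
      if j = n % Q then (Q : ℂ) * ψ j else 0 := by
    intro j hj
    rw [← Finset.mul_sum, orth hQ]
    have := dvd_iff hQ n j (mem_range.1 hj)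
    by_cases h : j = n % Q
    · rw [if_pos h, if_pos (this.2 h), mul_comm]
    · rw [if_neg h, if_neg (fun h' => h (this.1 h')), mul_zero]
  rw [Finset.sum_congr rfl h2, Finset.sum_ite_eq', if_pos (mem_range.2 (Nat.mod_lt _ (by omega))),
    per_mod hψ n]

theorem mt_eq {Q : ℕ} (h n : ℕ) :
    Pool.Agent.H446R3.SK.mt ((h : ℝ) / Q) n = ((ArithmeticFunction.moebius n : ℤ) : ℂ) * zz Q ^ (h * n) := by
  rw [Pool.Agent.H446R3.SK.mt, zz, ← Complex.exp_nat_mul]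
  congr 2
  push_cast
  ring

theorem ioc_range (f : ℕ → ℂ) (h0 : f 0 = 0) (N : ℕ) :
    ∑ n ∈ Ioc 0 N, f n = ∑ n ∈ range (N + 1), f n := by
  rw [Finset.sum_range_succ', h0, add_zero]
  have : Ioc 0 N = (range N).image (fun i => i + 1) := by
    ext x
    simp only [mem_Ioc, mem_image, mem_range]
    constructor
    · rintro ⟨h1, h2⟩
      exact ⟨x - 1, by omega, by omega⟩
    · rintro ⟨a, ha, rfl⟩
      omega
  rw [this, Finset.sum_image (fun a _ b _ h => by omega)]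

end Pool.Agent.N213.BM.PerX

namespace Pool.Agent.N213.BM

open Finset PerX
open Pool.Agent.H446R3.SK (dav_eps)

theorem per : PER := by
  intro Q hQ ε hε
  have hQ0 : (0 : ℝ) < Q := by exact_mod_cast hQ
  obtain ⟨N0, hN0⟩ := dav_eps (ε / (2 * Q)) (by positivity)
  refine ⟨max N0 1, fun N hN ψ hψ hb => ?_⟩
  have hN1 : N0 ≤ N + 1 := by
    have := le_max_left N0 1
    omega
  have hN2 : 1 ≤ N := (le_max_right _ _).trans hN
  have hN3 : (1 : ℝ) ≤ N := by exact_mod_cast hN2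
  have key : (Q : ℂ) * ∑ n ∈ Ioc 0 N, ((ArithmeticFunction.moebius n : ℤ) : ℂ) * ψ n =
      ∑ h ∈ range Q, cf Q ψ h * ∑ n ∈ range (N + 1), Pool.Agent.H446R3.SK.mt ((h : ℝ) / Q) n := by
    have h1 : ∀ h : ℕ, ∑ n ∈ range (N + 1), Pool.Agent.H446R3.SK.mt ((h : ℝ) / Q) n =
        ∑ n ∈ Ioc 0 N, Pool.Agent.H446R3.SK.mt ((h : ℝ) / Q) n := by
      intro h
      rw [ioc_range]
      rw [Pool.Agent.H446R3.SK.mt]; simp
    simp_rw [h1]
    rw [Finset.mul_sum]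
    simp_rw [Finset.mul_sum]
    rw [Finset.sum_comm]
    refine Finset.sum_congr rfl fun n _ => ?_
    calc (Q : ℂ) * (((ArithmeticFunction.moebius n : ℤ) : ℂ) * ψ n)
        = ((ArithmeticFunction.moebius n : ℤ) : ℂ) * ((Q : ℂ) * ψ n) := by ring
      _ = ((ArithmeticFunction.moebius n : ℤ) : ℂ) *
            ∑ h ∈ range Q, cf Q ψ h * zz Q ^ (h * n) := by rw [four hQ hψ n]
      _ = _ := by
          rw [Finset.mul_sum]
          refine Finset.sum_congr rfl fun h _ => ?_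
          rw [mt_eq]
          ring
  have h2 : ‖(Q : ℂ) * ∑ n ∈ Ioc 0 N, ((ArithmeticFunction.moebius n : ℤ) : ℂ) * ψ n‖ ≤
      Q * (Q * (ε / (2 * Q) * ((N + 1 : ℕ) : ℝ))) := by
    rw [key]
    refine (norm_sum_le _ _).trans ?_
    refine (Finset.sum_le_sum (g := fun _ => (Q : ℝ) * (ε / (2 * Q) * ((N + 1 : ℕ) : ℝ)))
      fun h _ => ?_).trans ?_
    · rw [norm_mul]
      exact mul_le_mul (norm_cf hb h) (hN0 (N + 1) hN1 _) (norm_nonneg _) hQ0.le
    · rw [Finset.sum_const, card_range, nsmul_eq_mul]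
  rw [norm_mul, Complex.norm_natCast] at h2
  have h3 := le_of_mul_le_mul_left h2 hQ0
  refine h3.trans ?_
  have h4 : (Q : ℝ) * (ε / (2 * Q) * ((N + 1 : ℕ) : ℝ)) = ε / 2 * (N + 1) := by
    push_cast
    field_simp
  rw [h4]
  nlinarith

end Pool.Agent.N213.BM
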