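import Pool.Agent.N213.BM.Stm2

/-! # Project BM (helper213), leaf RIGA: mixed blocks give cancellation (helper300) -/

set_option autoImplicit false

namespace Pool.Agent.N213.BM

namespace RigAX

open Finset
open Pool.Agent.N213.QP (sg)

/-- the junction values -/
def rho (G : ℕ → ZMod 2) (m z : ℕ) : ZMod 2 := G (m * (z + 1)) + G (m * z)

lemma rho_zero {G : ℕ → ZMod 2} {m z : ℕ} : rho G m z = 0 ↔ G (m * (z + 1)) = G (m * z) := by
  unfold rho
  exact CharTwo.add_eq_zero

lemma rho_per {G : ℕ → ZMod 2} {m n : ℕ} (hm : 0 < m)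
    (h2 : ∀ l h, l < m * n → G (l + m * n * h) = G l + G (m * n * h)) {z : ℕ} (hz : z + 1 < n)
    (h : ℕ) : rho G m (z + n * h) = rho G m z := by
  unfold rho
  have e1 : m * (z + n * h + 1) = m * (z + 1) + m * n * h := by ring
  have e2 : m * (z + n * h) = m * z + m * n * h := by ring
  rw [e1, e2, h2 _ _ (Nat.mul_lt_mul_of_pos_left hz hm),
    h2 _ _ (Nat.mul_lt_mul_of_pos_left (by omega) hm)]
  have e3 : ∀ a b c : ZMod 2, (a + c) + (b + c) = a + b := by decide
  exact e3 _ _ _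

/-- counting -/
lemma cnt {n N z₀ a : ℕ} (hn : 0 < n) (Z : Finset ℕ) (Q : ℕ → Prop) [DecidablePred Q]
    (h1 : ∀ z ∈ Z, ∃ r, (z₀ + a * r) % n = z) (h2 : ∀ z ∈ Z, ∀ r, (z₀ + a * r) % n = z → Q r) :
    Z.card * (N - 1) ≤ ((range (n * (N - 1))).filter Q).card := by
  classical
  choose! r hr using h1
  have hmod : ∀ z ∈ Z, ∀ h, (z₀ + a * (r z % n + n * h)) % n = z := fun z hz h => by
    have h3 := hr z hz
    have h4 : z₀ + a * (r z % n + n * h) ≡ z₀ + a * r z [MOD n] := by
      refine Nat.ModEq.add_left _ (Nat.ModEq.mul_left _ ?_)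
      unfold Nat.ModEq
      rw [Nat.add_mul_mod_self_left, Nat.mod_mod]
    rw [h4, h3]
  have hinj : Set.InjOn (fun q : ℕ × ℕ => r q.1 % n + n * q.2)
      ((Z ×ˢ range (N - 1) : Finset (ℕ × ℕ)) : Set (ℕ × ℕ)) := by
    rintro ⟨z, h⟩ hz ⟨z', h'⟩ hz' heq
    simp only [coe_product, Set.mem_prod, mem_coe] at hz hz'
    simp only at heq
    have e1 := hmod z hz.1 h
    have e2 := hmod z' hz'.1 h'
    rw [heq] at e1
    have e3 : z = z' := e1.symm.trans e2
    subst e3
    have e4 : n * h = n * h' := by omega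
    rw [Nat.eq_of_mul_eq_mul_left hn e4]
  have hsub : (Z ×ˢ range (N - 1)).image (fun q : ℕ × ℕ => r q.1 % n + n * q.2) ⊆
      (range (n * (N - 1))).filter Q := by
    intro x hx
    rw [mem_image] at hx
    obtain ⟨⟨z, h⟩, hz, rfl⟩ := hx
    rw [mem_product, mem_range] at hz
    simp only at hz ⊢
    rw [mem_filter, mem_range]
    refine ⟨?_, h2 z hz.1 _ (hmod z hz.1 h)⟩
    have e1 := Nat.mod_lt (r z) hn
    have e2 : n * (h + 1) ≤ n * (N - 1) := Nat.mul_le_mul_left _ hz.2
    rw [Nat.mul_add, Nat.mul_one] at e2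
    omega
  have h5 := card_le_card hsub
  rwa [card_image_of_injOn hinj, card_product, card_range] at h5

lemma reach {n a z₀ z : ℕ} (hn : 0 < n) (h : Nat.Coprime a n) (hz : z < n) :
    ∃ r, (z₀ + a * r) % n = z := by
  haveI : NeZero n := ⟨hn.ne'⟩
  refine ⟨(((z : ZMod n) - z₀) * (a : ZMod n)⁻¹).val, ?_⟩
  have h1 : ((z₀ + a * (((z : ZMod n) - z₀) * (a : ZMod n)⁻¹).val : ℕ) : ZMod n) = (z : ZMod n) := by
    push_cast
    rw [ZMod.natCast_val, ZMod.cast_id', id]
    have h2 := ZMod.coe_mul_inv_eq_one a h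
    linear_combination ((z : ZMod n) - z₀) * h2
  have h3 := (ZMod.natCast_eq_natCast_iff' _ _ _).1 h1
  rw [h3, Nat.mod_eq_of_lt hz]

lemma reach' {n a z₀ z : ℕ} (hn : 0 < n) (ha : a ∣ n) (hz : z < n) (h : z % a = z₀ % a) :
    ∃ r, (z₀ + a * r) % n = z := by
  have h1 : z₀ ≤ z + n * z₀ := by nlinarith
  have h2 : a ∣ z + n * z₀ - z₀ := by
    rw [← Nat.modEq_iff_dvd' h1]
    have h3 : n * z₀ ≡ 0 [MOD a] := (Nat.modEq_zero_iff_dvd).2 (ha.mul_right _)
    have h4 : z + n * z₀ ≡ z₀ + 0 [MOD a] := Nat.ModEq.add h h3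
    exact h4.symm
  obtain ⟨r, hr⟩ := h2
  refine ⟨r, ?_⟩
  have h5 : z₀ + a * r = z + n * z₀ := by omega
  rw [h5, Nat.add_mul_mod_self_left, Nat.mod_eq_of_lt hz]

/-- the basic inequality -/
lemma star {p q m n N d B Zc K : ℕ} (hm : 0 < m) (hN : 2 ≤ N) (hd : m ≤ 16 * p * q * d)
    (hB : 2 * B * (64 * p ^ 2 * q ^ 2 * (p + q)) < m * n * N) (hK : d * K ≤ 2 * B)
    (hZ : Zc * (N - 1) ≤ K) : 2 * p * q * (p + q) * Zc < n := by
  have h0 : 0 < 2 * m * (N - 1) := by
    have : 0 < N - 1 := by omega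
    positivity
  refine Nat.lt_of_mul_lt_mul_right (a := 2 * m * (N - 1)) ?_
  calc 2 * p * q * (p + q) * Zc * (2 * m * (N - 1))
      = (Zc * (N - 1)) * m * (4 * p * q * (p + q)) := by ring
    _ ≤ K * (16 * p * q * d) * (4 * p * q * (p + q)) := by gcongr
    _ = (d * K) * (64 * p ^ 2 * q ^ 2 * (p + q)) := by ring
    _ ≤ 2 * B * (64 * p ^ 2 * q ^ 2 * (p + q)) := Nat.mul_le_mul_right _ hK
    _ < m * n * N := hB
    _ ≤ m * n * (2 * (N - 1)) := Nat.mul_le_mul_left _ (by omega)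
    _ = n * (2 * m * (N - 1)) := by ring

/-- one prime -/
lemma one_prime {p q m n N d B a : ℕ} {δ : ℝ} {G : ℕ → ZMod 2} (ha : a.Prime) (hp : 0 < p)
    (hq : 0 < q) (hm : 0 < m)
    (hn : 2 ≤ n) (hN : 2 ≤ N) (hd : m ≤ 16 * p * q * d)
    (hB : 2 * B * (64 * p ^ 2 * q ^ 2 * (p + q)) < m * n * N) (hδ2 : 2 ≤ δ * (p * q))
    (h2 : ∀ l h, l < m * n → G (l + m * n * h) = G l + G (m * n * h))
    (hM : ∀ c : ZMod 2, δ * n ≤ (((range (n - 1)).filter (fun z => rho G m z ≠ c)).card : ℝ))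
    (hC : ∃ bad : ℕ, ∀ κ < a, κ ≠ bad → ∃ z₀ : ℕ, z₀ % a = κ ∧ ∃ c : ZMod 2,
      d * ((range (n * (N - 1))).filter (fun r => rho G m (z₀ + a * r) ≠ c)).card ≤ 2 * B) :
    a ∣ n ∧ ∃ bad : ℕ, ∀ κ < a, κ ≠ bad → ∃ c : ZMod 2,
      2 * p * q * (p + q) * ((range (n - 1)).filter (fun z => z % a = κ ∧ rho G m z ≠ c)).card <
        n := by
  obtain ⟨bad, hbad⟩ := hC
  have hn0 : 0 < n := by omega
  have key : ∀ z₀ c, d * ((range (n * (N - 1))).filter
      (fun r => rho G m (z₀ + a * r) ≠ c)).card ≤ 2 * B → ∀ Z : Finset ℕ,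
      (∀ z ∈ Z, z + 1 < n ∧ rho G m z ≠ c ∧ ∃ r, (z₀ + a * r) % n = z) →
      2 * p * q * (p + q) * Z.card < n := by
    intro z₀ c hK Z hZ
    refine star hm hN hd hB hK (cnt hn0 Z _ (fun z hz => (hZ z hz).2.2) fun z hz r hr => ?_)
    obtain ⟨e1, e2, -⟩ := hZ z hz
    have e3 : z₀ + a * r = z + n * ((z₀ + a * r) / n) := by
      have := Nat.mod_add_div (z₀ + a * r) n
      rw [hr] at this
      exact this.symm
    rw [e3, rho_per hm h2 e1]
    exact e2
  constructor
  · by_contra hna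
    have hcop : Nat.Coprime a n := (Nat.Prime.coprime_iff_not_dvd ha).2 hna
    obtain ⟨κ, hκ, hκb⟩ : ∃ κ < a, κ ≠ bad := by
      by_cases hb : bad = 0
      · exact ⟨1, ha.one_lt, by omega⟩
      · exact ⟨0, ha.pos, fun h => hb h.symm⟩
    obtain ⟨z₀, -, c, hK⟩ := hbad κ hκ hκb
    have h3 := key z₀ c hK ((range (n - 1)).filter (fun z => rho G m z ≠ c)) (fun z hz => by
      rw [mem_filter, mem_range] at hz
      exact ⟨by omega, hz.2, reach hn0 hcop (by omega)⟩)
    have h4 := hM c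
    set Zc := ((range (n - 1)).filter (fun z => rho G m z ≠ c)).card
    have h5 : (2 * p * q * (p + q) * Zc : ℝ) < n := by exact_mod_cast h3
    have hpr : (1 : ℝ) ≤ p := by exact_mod_cast hp
    have hqr : (1 : ℝ) ≤ q := by exact_mod_cast hq
    have hnr : (0 : ℝ) < n := by exact_mod_cast hn0
    have h6 : (2 * p * q * (p + q) : ℝ) * (δ * n) ≤ 2 * p * q * (p + q) * Zc :=
      mul_le_mul_of_nonneg_left h4 (by positivity)
    have h7 : (2 * p * q * (p + q) : ℝ) * (δ * n) = 2 * (p + q) * n * (δ * (p * q)) := by ring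
    have h8 : 2 * ((p : ℝ) + q) * n * 2 ≤ 2 * (p + q) * n * (δ * (p * q)) :=
      mul_le_mul_of_nonneg_left hδ2 (by positivity)
    nlinarith
  · refine ⟨bad, fun κ hκ hκb => ?_⟩
    by_cases hna : a ∣ n
    · obtain ⟨z₀, hz₀, c, hK⟩ := hbad κ hκ hκb
      refine ⟨c, key z₀ c hK _ fun z hz => ?_⟩
      rw [mem_filter, mem_range] at hz
      exact ⟨by omega, hz.2.2, reach' hn0 hna (by omega) (hz.2.1.trans hz₀.symm)⟩
    · obtain ⟨z₀, hz₀, c, hK⟩ := hbad κ hκ hκb
      have hcop : Nat.Coprime a n := (Nat.Prime.coprime_iff_not_dvd ha).2 hna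
      refine ⟨c, key z₀ c hK _ fun z hz => ?_⟩
      rw [mem_filter, mem_range] at hz
      exact ⟨by omega, hz.2.2, reach hn0 hcop (by omega)⟩

/-- both primes divide `n`: contradiction -/
lemma two_primes {p q m n : ℕ} {δ : ℝ} {G : ℕ → ZMod 2} (hp : p.Prime) (hq : q.Prime)
    (hpq : p ≠ q) (hp3 : 3 ≤ p) (hq3 : 3 ≤ q) (hn : 0 < n) (hδ2 : 2 ≤ δ * (p * q))
    (hM : ∀ c : ZMod 2, δ * n ≤ (((range (n - 1)).filter (fun z => rho G m z ≠ c)).card : ℝ))
    (h1 : q ∣ n ∧ ∃ bad : ℕ, ∀ κ < q, κ ≠ bad → ∃ c : ZMod 2,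
      2 * p * q * (p + q) * ((range (n - 1)).filter (fun z => z % q = κ ∧ rho G m z ≠ c)).card <
        n)
    (h2 : p ∣ n ∧ ∃ bad : ℕ, ∀ κ < p, κ ≠ bad → ∃ c : ZMod 2,
      2 * p * q * (p + q) * ((range (n - 1)).filter (fun z => z % p = κ ∧ rho G m z ≠ c)).card <
        n) : False := by
  classical
  obtain ⟨hqn, badq, hbq⟩ := h1
  obtain ⟨hpn, badp, hbp⟩ := h2
  choose! cq hcq using hbq
  choose! cp hcp using hbp
  have hcop : Nat.Coprime q p := (Nat.coprime_primes hq hp).2 (Ne.symm hpq)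
  have hpos : 0 < q * p := Nat.mul_pos hq.pos hp.pos
  obtain ⟨n', hn'⟩ := hcop.mul_dvd_of_dvd_of_dvd hqn hpn
  -- constants agree
  have agree : ∀ κ < q, κ ≠ badq → ∀ l < p, l ≠ badp → ¬ (κ = q - 1 ∧ l = p - 1) →
      cq κ = cp l := by
    intro κ hκ hκb l hl hlb hne
    by_contra hc
    have hZ1 := hcq κ hκ hκb
    have hZ2 := hcp l hl hlb
    obtain ⟨z1, hz1, hz2⟩ := Nat.chineseRemainder hcop κ l
    have hz1' : (z1 % (q * p)) % q = κ := by
      rw [Nat.mod_mul_right_mod, hz1, Nat.mod_eq_of_lt hκ]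
    have hz2' : (z1 % (q * p)) % p = l := by
      rw [Nat.mod_mul_left_mod, hz2, Nat.mod_eq_of_lt hl]
    set y := z1 % (q * p) with hy
    have hylt : y < q * p := Nat.mod_lt _ hpos
    have hy1 : y + 1 < q * p := by
      rcases Nat.lt_or_ge (y + 1) (q * p) with h | h
      · exact h
      · exfalso
        have hye : y = q * p - 1 := by omega
        have e1 : y + 1 = q * p := by omega
        have e2 : y % q = q - 1 := by
          have e3 : y = q * (p - 1) + (q - 1) := by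
            obtain ⟨p', hp'⟩ : ∃ p', p = p' + 1 := ⟨p - 1, by omega⟩
            subst hp'
            rw [Nat.add_sub_cancel]
            rw [Nat.mul_add] at hye
            omega
          rw [e3, Nat.mul_add_mod, Nat.mod_eq_of_lt (by omega)]
        have e4 : y % p = p - 1 := by
          have e3 : y = p * (q - 1) + (p - 1) := by
            obtain ⟨q', hq'⟩ : ∃ q', q = q' + 1 := ⟨q - 1, by omega⟩
            subst hq'
            rw [Nat.add_sub_cancel]
            rw [Nat.mul_comm (q' + 1) p, Nat.mul_add] at hye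
            omega
          rw [e3, Nat.mul_add_mod, Nat.mod_eq_of_lt (by omega)]
        exact hne ⟨hz1'.symm.trans e2, hz2'.symm.trans e4⟩
    have hsub : (range n').image (fun h => y + q * p * h) ⊆
        (range (n - 1)).filter (fun z => z % q = κ ∧ rho G m z ≠ cq κ) ∪
        (range (n - 1)).filter (fun z => z % p = l ∧ rho G m z ≠ cp l) := by
      intro z hz
      rw [mem_image] at hz
      obtain ⟨h, hh, rfl⟩ := hz
      rw [mem_range] at hh
      have e1 : q * p * (h + 1) ≤ n := by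
        rw [hn']
        exact Nat.mul_le_mul_left _ hh
      rw [Nat.mul_add, Nat.mul_one] at e1
      have e2 : (y + q * p * h) % q = κ := by
        rw [Nat.mul_assoc, Nat.add_mul_mod_self_left, hz1']
      have e3 : (y + q * p * h) % p = l := by
        rw [Nat.mul_comm q p, Nat.mul_assoc, Nat.add_mul_mod_self_left, hz2']
      rw [mem_union, mem_filter, mem_filter, mem_range]
      by_cases h4 : rho G m (y + q * p * h) = cq κ
      · right
        refine ⟨by omega, e3, fun h5 => hc (h4.symm.trans h5)⟩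
      · left
        exact ⟨by omega, e2, h4⟩
    have hcard := (card_le_card hsub).trans (card_union_le _ _)
    rw [card_image_of_injective _ (fun a b (hab : y + q * p * a = y + q * p * b) =>
      Nat.eq_of_mul_eq_mul_left hpos (by omega)), card_range] at hcard
    set u := ((range (n - 1)).filter (fun z => z % q = κ ∧ rho G m z ≠ cq κ)).card
    set v := ((range (n - 1)).filter (fun z => z % p = l ∧ rho G m z ≠ cp l)).card
    have e5 : 2 * p * q * (p + q) * (u + v) < 2 * p * q * n' := by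
      have e6 : 2 * p * q * n' = n + n := by rw [hn']; ring
      rw [Nat.mul_add, e6]
      omega
    rw [Nat.mul_assoc] at e5
    have e7 := Nat.lt_of_mul_lt_mul_left e5
    have e8 : 1 * (u + v) ≤ (p + q) * (u + v) := Nat.mul_le_mul_right _ (by omega)
    omega
  -- classes which are good and different from `-1`
  have pick : ∀ a b : ℕ, 3 ≤ a → ∃ κ < a, κ ≠ b ∧ κ ≠ a - 1 := by
    intro a b ha
    by_cases hb : b = 0
    · exact ⟨1, by omega, by omega, by omega⟩
    · exact ⟨0, by omega, by omega, by omega⟩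
  obtain ⟨l0, hl0, hl0b, hl01⟩ := pick p badp hp3
  obtain ⟨k0, hk0, hk0b, hk01⟩ := pick q badq hq3
  set c := cp l0 with hcdef
  have hallq : ∀ κ < q, κ ≠ badq → cq κ = c := fun κ hκ hκb =>
    agree κ hκ hκb l0 hl0 hl0b fun h => hl01 h.2
  have hallp : ∀ l < p, l ≠ badp → cp l = c := fun l hl hlb => by
    rw [← agree k0 hk0 hk0b l hl hlb fun h => hk01 h.1]
    exact hallq k0 hk0 hk0b
  -- the total count
  have hcov : (range (n - 1)).filter (fun z => rho G m z ≠ c) ⊆
      (range n).filter (fun z => z % q = badq ∧ z % p = badp) ∪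
      (((range q).filter (fun κ => κ ≠ badq)).biUnion fun κ =>
        (range (n - 1)).filter (fun z => z % q = κ ∧ rho G m z ≠ cq κ)) ∪
      (((range p).filter (fun κ => κ ≠ badp)).biUnion fun κ =>
        (range (n - 1)).filter (fun z => z % p = κ ∧ rho G m z ≠ cp κ)) := by
    intro z hz
    rw [mem_filter, mem_range] at hz
    rw [mem_union, mem_union, mem_filter, mem_range, mem_biUnion, mem_biUnion]
    by_cases e1 : z % q = badq
    · by_cases e2 : z % p = badp
      · exact Or.inl (Or.inl ⟨by omega, e1, e2⟩)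
      · right
        have e3 := Nat.mod_lt z hp.pos
        refine ⟨z % p, by rw [mem_filter, mem_range]; exact ⟨e3, e2⟩, ?_⟩
        rw [mem_filter, mem_range, hallp _ e3 e2]
        exact ⟨hz.1, rfl, hz.2⟩
    · left; right
      have e3 := Nat.mod_lt z hq.pos
      refine ⟨z % q, by rw [mem_filter, mem_range]; exact ⟨e3, e1⟩, ?_⟩
      rw [mem_filter, mem_range, hallq _ e3 e1]
      exact ⟨hz.1, rfl, hz.2⟩
  have hbb : ((range n).filter (fun z => z % q = badq ∧ z % p = badp)).card ≤ n' := by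
    have h3 : ((range n).filter (fun z => z % q = badq ∧ z % p = badp)).card ≤
        (range n').card := by
      refine card_le_card_of_injOn (fun z => z / (q * p)) (fun z hz => ?_) (fun z hz z' hz' h => ?_)
      · rw [mem_coe, mem_filter, mem_range] at hz
        rw [mem_coe, mem_range]
        refine Nat.div_lt_of_lt_mul ?_
        rw [← hn']
        exact hz.1
      · rw [mem_coe, mem_filter, mem_range] at hz hz'
        have e1 : z ≡ z' [MOD q] := hz.2.1.trans hz'.2.1.symm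
        have e2 : z ≡ z' [MOD p] := hz.2.2.trans hz'.2.2.symm
        have e3 : z ≡ z' [MOD (q * p)] := (Nat.modEq_and_modEq_iff_modEq_mul hcop).1 ⟨e1, e2⟩
        have e4 := Nat.mod_add_div z (q * p)
        have e5 := Nat.mod_add_div z' (q * p)
        have e6 : z / (q * p) = z' / (q * p) := h
        rw [← e4, ← e5, e6, e3]
    rwa [card_range] at h3
  have hF := (card_le_card hcov).trans ((card_union_le _ _).trans
    (Nat.add_le_add_right (card_union_le _ _) _))
  set F := ((range (n - 1)).filter (fun z => rho G m z ≠ c)).card with hFdef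
  set w := 2 * p * q * (p + q) with hw
  have hs1 : w * (((range q).filter (fun κ => κ ≠ badq)).biUnion fun κ =>
        (range (n - 1)).filter (fun z => z % q = κ ∧ rho G m z ≠ cq κ)).card ≤ q * n := by
    refine (Nat.mul_le_mul_left w card_biUnion_le).trans ?_
    rw [mul_sum]
    refine (sum_le_card_nsmul _ _ n fun κ hκ => ?_).trans ?_
    · rw [mem_filter, mem_range] at hκ
      exact (hcq κ hκ.1 hκ.2).le
    · rw [smul_eq_mul]
      refine Nat.mul_le_mul_right _ ((card_filter_le _ _).trans (by rw [card_range]))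
  have hs2 : w * (((range p).filter (fun κ => κ ≠ badp)).biUnion fun κ =>
        (range (n - 1)).filter (fun z => z % p = κ ∧ rho G m z ≠ cp κ)).card ≤ p * n := by
    refine (Nat.mul_le_mul_left w card_biUnion_le).trans ?_
    rw [mul_sum]
    refine (sum_le_card_nsmul _ _ n fun κ hκ => ?_).trans ?_
    · rw [mem_filter, mem_range] at hκ
      exact (hcp κ hκ.1 hκ.2).le
    · rw [smul_eq_mul]
      refine Nat.mul_le_mul_right _ ((card_filter_le _ _).trans (by rw [card_range]))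
  have hwF : w * F ≤ 3 * (p + q) * n := by
    calc w * F ≤ w * (n' + _ + _) := Nat.mul_le_mul_left w (hF.trans
          (Nat.add_le_add_right (Nat.add_le_add_right hbb _) _))
      _ = w * n' + w * _ + w * _ := by rw [Nat.mul_add, Nat.mul_add]
      _ ≤ w * n' + q * n + p * n := Nat.add_le_add (Nat.add_le_add_left hs1 _) hs2
      _ = 3 * (p + q) * n := by
          have e6 : w * n' = 2 * (p + q) * n := by rw [hw, hn']; ring
          rw [e6]; ring
  have h4 := hM c
  have h5 : ((w : ℕ) : ℝ) * F ≤ 3 * (p + q) * n := by exact_mod_cast hwF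
  have hpr : (3 : ℝ) ≤ p := by exact_mod_cast hp3
  have hqr : (3 : ℝ) ≤ q := by exact_mod_cast hq3
  have hnr : (0 : ℝ) < n := by exact_mod_cast hn
  have hwr : ((w : ℕ) : ℝ) = 2 * p * q * (p + q) := by rw [hw]; push_cast; ring
  have h6 : ((w : ℕ) : ℝ) * (δ * n) ≤ w * F := mul_le_mul_of_nonneg_left h4 (by positivity)
  have h7 : ((w : ℕ) : ℝ) * (δ * n) = 2 * (p + q) * n * (δ * (p * q)) := by rw [hwr]; ring
  have h8 : 2 * ((p : ℝ) + q) * n * 2 ≤ 2 * (p + q) * n * (δ * (p * q)) :=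
    mul_le_mul_of_nonneg_left hδ2 (by positivity)
  have h9 : 0 < ((p : ℝ) + q) * n := by positivity
  nlinarith

/-- the sum of signs -/
lemma sum_sg (R : ℕ) (u : ℕ → ZMod 2) : ∑ x ∈ range R, sg (u x) =
    (((R : ℝ) - 2 * (((range R).filter (fun x => u x ≠ 0)).card : ℝ) : ℝ) : ℂ) := by
  have h1 : ∀ x, sg (u x) = 1 - 2 * (if u x ≠ 0 then (1 : ℂ) else 0) := fun x => by
    unfold Pool.Agent.N213.QP.sg
    by_cases h : u x = 0
    · simp [h]
    · simp [h]; norm_num
  rw [sum_congr rfl fun x _ => h1 x, sum_sub_distrib, ← mul_sum, sum_boole]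
  simp

lemma exists_sigma {R : ℕ} {u : ℕ → ZMod 2} {η : ℝ}
    (h : (1 - η) * R < ‖∑ x ∈ range R, sg (u x)‖) :
    ∃ σ : ZMod 2, 2 * (((range R).filter (fun x => u x ≠ σ)).card : ℝ) < η * R := by
  rw [sum_sg, Complex.norm_real, Real.norm_eq_abs] at h
  rcases abs_cases ((R : ℝ) - 2 * (((range R).filter (fun x => u x ≠ 0)).card : ℝ)) with h1 | h1
  · refine ⟨0, ?_⟩
    rw [h1.1] at h
    linarith
  · refine ⟨1, ?_⟩
    rw [h1.1] at h
    have h2 : ((range R).filter (fun x => u x ≠ 1)).card +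
        ((range R).filter (fun x => u x ≠ 0)).card = R := by
      have h3 : (range R).filter (fun x => u x ≠ 1) = (range R).filter (fun x => ¬ u x ≠ 0) := by
        refine filter_congr fun x _ => ?_
        have : ∀ y : ZMod 2, y ≠ 1 ↔ ¬ y ≠ 0 := by decide
        exact this _
      rw [h3, Nat.add_comm, card_filter_add_card_filter_not, card_range]
    have h4 : (((range R).filter (fun x => u x ≠ 1)).card : ℝ) +
        (((range R).filter (fun x => u x ≠ 0)).card : ℝ) = R := by exact_mod_cast h2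
    linarith

end RigAX

open Finset RigAX in
/-- mixed blocks give cancellation -/
theorem riga : CORE → RIGA := by
  intro hcore p q δ hp hq hpq hp3 hq3 hδ hδ2
  have hp0 : 0 < p := hp.pos
  have hq0 : 0 < q := hq.pos
  have hpr : (3 : ℝ) ≤ p := by exact_mod_cast hp3
  have hqr : (3 : ℝ) ≤ q := by exact_mod_cast hq3
  refine ⟨1 / (64 * p ^ 2 * q ^ 2 * (p + q)), 8 * p * q, by positivity, ?_, ?_⟩
  · rw [div_le_one (by positivity)]
    have h1 : (1 : ℝ) ≤ (p : ℝ) ^ 2 := by nlinarith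
    have h2 : (1 : ℝ) ≤ (q : ℝ) ^ 2 := by nlinarith
    have h3 : (1 : ℝ) ≤ (p : ℝ) ^ 2 * (q : ℝ) ^ 2 := by nlinarith
    nlinarith
  intro m n N G hDm hn1 hDN h1 h2 hmix ep eq
  have hpq9 : 72 ≤ 8 * p * q := by nlinarith
  have hm : 0 < m := by omega
  have hN : 2 ≤ N := by omega
  have hM : ∀ c : ZMod 2, δ * n ≤ (((range (n - 1)).filter (fun z => rho G m z ≠ c)).card : ℝ) := by
    intro c
    obtain ⟨m1, m2⟩ := hmix
    have hc : c = 0 ∨ c = 1 := by
      revert c
      decide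
    rcases hc with rfl | rfl
    · refine m2.trans (le_of_eq ?_)
      congr 2
      refine filter_congr fun z _ => ?_
      rw [Ne, Ne, rho_zero]
    · refine m1.trans (le_of_eq ?_)
      congr 2
      refine filter_congr fun z _ => ?_
      have : ∀ y : ZMod 2, y ≠ 1 ↔ y = 0 := by decide
      rw [this, rho_zero]
  have hn2 : 2 ≤ n := by
    by_contra hlt
    have hn : n = 1 := by omega
    have h3 := hM 0
    rw [hn] at h3
    simp at h3
    linarith
  by_contra hcon
  push Not at hcon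
  obtain ⟨σ, hσ⟩ := exists_sigma hcon
  set B := ((range (m * n * N)).filter (fun x => G (p * x + ep) + G (q * x + eq) ≠ σ)).card with hB
  have hB1 : 2 * B * (64 * p ^ 2 * q ^ 2 * (p + q)) < m * n * N := by
    have h3 : (0 : ℝ) < 64 * p ^ 2 * q ^ 2 * (p + q) := by positivity
    rw [one_div_mul_eq_div, lt_div_iff₀ h3] at hσ
    exact_mod_cast hσ
  obtain ⟨d, hd⟩ : ∃ d, d = m / (8 * p * q) := ⟨_, rfl⟩
  have hpos8 : 0 < 8 * p * q := by omega
  have hd1 : 1 ≤ d := by
    rw [hd]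
    exact (Nat.one_le_div_iff hpos8).2 hDm
  have hd2 : 8 * p * q * d ≤ m := by
    rw [hd]
    exact Nat.mul_div_le m _
  have hd3 : m ≤ 16 * p * q * d := by
    have h3 : m < 8 * p * q * d + 8 * p * q := by
      rw [hd]
      exact Nat.lt_mul_div_succ m hpos8
    have h4 : 8 * p * q * 1 ≤ 8 * p * q * d := Nat.mul_le_mul_left _ hd1
    have h5 : 16 * p * q * d = 8 * p * q * d + 8 * p * q * d := by ring
    omega
  have hT : m * (n * (N - 1) + 2) ≤ m * n * N := by
    obtain ⟨N', hN'⟩ : ∃ N', N = N' + 1 := ⟨N - 1, by omega⟩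
    subst hN'
    rw [Nat.add_sub_cancel]
    have h3 : m * 2 ≤ m * n := Nat.mul_le_mul_left _ hn2
    nlinarith
  have hq' := one_prime (a := q) hq hp0 hq0 hm hn2 hN hd3 hB1 hδ2 h2 hM (by
    obtain ⟨bad, hbad⟩ := hcore p q m d (m * n * N) (n * (N - 1)) G ep eq σ hp hq hpq hd1 hd2 hT h1
    refine ⟨bad, fun κ hκ hκb => ?_⟩
    obtain ⟨z₀, e1, c, e2, -⟩ := hbad κ hκ hκb
    exact ⟨z₀, e1, c, e2⟩)
  have hp' := one_prime (a := p) hp hp0 hq0 hm hn2 hN hd3 hB1 hδ2 h2 hM (by
    obtain ⟨bad, hbad⟩ := hcore q p m d (m * n * N) (n * (N - 1)) G eq ep σ hq hp hpq.symm hd1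
      (by
        have : 8 * q * p * d = 8 * p * q * d := by ring
        omega) hT h1
    refine ⟨bad, fun κ hκ hκb => ?_⟩
    obtain ⟨z₀, e1, c, e2, -⟩ := hbad κ hκ hκb
    refine ⟨z₀, e1, c, e2.trans (le_of_eq ?_)⟩
    rw [hB]
    congr 2
    refine filter_congr fun x _ => ?_
    rw [add_comm])
  exact two_primes hp hq hpq hp3 hq3 (by omega) hδ2 hM hq' hp'

end Pool.Agent.N213.BM
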