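import Pool.Agent.N213.BM.Stm2

/-! # Project BM: irregular junctions give cancellation -/

set_option autoImplicit false

namespace Pool.Agent.N213.BM

namespace RigJX

open Finset
open Pool.Agent.N213.QP (sg)

theorem exists_sigma (R : ℕ) (Ξ : ℕ → ZMod 2) (η : ℝ)
    (h : (1 - η) * (R : ℝ) < ‖∑ x ∈ range R, sg (Ξ x)‖) :
    ∃ σ : ZMod 2, 2 * (((range R).filter (fun x => Ξ x ≠ σ)).card : ℝ) < η * R := by
  have h01 : ∀ y : ZMod 2, y = 0 ∨ y = 1 := by decide
  have hs : ∑ x ∈ range R, sg (Ξ x) = (((((range R).filter (fun x => Ξ x ≠ 1)).card : ℝ) -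
      (((range R).filter (fun x => Ξ x ≠ 0)).card : ℝ) : ℝ) : ℂ) := by
    push_cast
    rw [← Finset.sum_boole, ← Finset.sum_boole, ← Finset.sum_sub_distrib]
    refine Finset.sum_congr rfl fun x _ => ?_
    unfold sg
    rcases h01 (Ξ x) with e | e <;> rw [e] <;> norm_num
  have hA : (((range R).filter (fun x => Ξ x ≠ 1)).card : ℝ) +
      (((range R).filter (fun x => Ξ x ≠ 0)).card : ℝ) = R := by
    rw [← Finset.sum_boole, ← Finset.sum_boole, ← Finset.sum_add_distrib]
    have e1 : ∀ x ∈ range R, ((if Ξ x ≠ 1 then 1 else 0) + (if Ξ x ≠ 0 then 1 else 0) : ℝ) = 1 := by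
      intro x _
      rcases h01 (Ξ x) with e | e <;> rw [e] <;> norm_num
    rw [Finset.sum_congr rfl e1]
    simp
  rw [hs, Complex.norm_real, Real.norm_eq_abs] at h
  rcases abs_cases ((((range R).filter (fun x => Ξ x ≠ 1)).card : ℝ) -
      (((range R).filter (fun x => Ξ x ≠ 0)).card : ℝ)) with ⟨e, _⟩ | ⟨e, _⟩
  · refine ⟨0, ?_⟩
    rw [e] at h
    nlinarith
  · refine ⟨1, ?_⟩
    rw [e] at h
    nlinarith

theorem per {m n : ℕ} {G : ℕ → ZMod 2} (hm : 0 < m)
    (h2 : ∀ l h, l < m * n → G (l + m * n * h) = G l + G (m * n * h)) (z h : ℕ)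
    (hz : z + 1 < n) :
    G (m * (z + n * h + 1)) + G (m * (z + n * h)) = G (m * (z + 1)) + G (m * z) := by
  have e1 : m * (z + n * h + 1) = m * (z + 1) + m * n * h := by ring
  have e2 : m * (z + n * h) = m * z + m * n * h := by ring
  have h3 : ∀ a b c : ZMod 2, a + c + (b + c) = a + b := by decide
  rw [e1, e2, h2 _ _ (Nat.mul_lt_mul_of_pos_left hz hm),
    h2 _ _ (Nat.mul_lt_mul_of_pos_left (by omega) hm), h3]

theorem count (q n N z₀ : ℕ) (hn : 1 ≤ n) (Y : Finset ℕ) (P : ℕ → Prop) [DecidablePred P]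
    (hY : ∀ z ∈ Y, (∃ r, (z₀ + q * r) % n = z) ∧ ∀ h, P (z + n * h)) :
    Y.card * (N - 1) ≤ ((range (n * (N - 1))).filter (fun r => P (z₀ + q * r))).card := by
  have h0 : ∀ z, ∃ r, z ∈ Y → r < n ∧ (z₀ + q * r) % n = z := by
    intro z
    by_cases hz : z ∈ Y
    · obtain ⟨r, hr⟩ := (hY z hz).1
      refine ⟨r % n, fun _ => ⟨Nat.mod_lt _ hn, ?_⟩⟩
      rw [← hr, Nat.add_mod, Nat.mul_mod, Nat.mod_mod, ← Nat.mul_mod, ← Nat.add_mod]
    · exact ⟨0, fun h => absurd h hz⟩
  choose g hg using h0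
  rw [← Finset.card_range (N - 1), ← Finset.card_product, Finset.card_range]
  refine Finset.card_le_card_of_injOn (fun w => g w.1 + n * w.2) ?_ ?_
  · intro w hw
    rw [Finset.mem_coe, Finset.mem_product, Finset.mem_range] at hw
    obtain ⟨h1, h2⟩ := hg w.1 hw.1
    show g w.1 + n * w.2 ∈ _
    rw [Finset.mem_coe, Finset.mem_filter, Finset.mem_range]
    constructor
    · calc g w.1 + n * w.2 < n + n * w.2 := by omega
        _ = n * (w.2 + 1) := by ring
        _ ≤ n * (N - 1) := Nat.mul_le_mul_left _ hw.2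
    · have e : z₀ + q * (g w.1 + n * w.2) = w.1 + n * ((z₀ + q * (g w.1 + n * w.2)) / n) := by
        have e1 : (z₀ + q * (g w.1 + n * w.2)) % n = w.1 := by
          have e2 : z₀ + q * (g w.1 + n * w.2) = z₀ + q * g w.1 + n * (q * w.2) := by ring
          rw [e2, Nat.add_mul_mod_self_left, h2]
        conv_lhs => rw [← Nat.mod_add_div (z₀ + q * (g w.1 + n * w.2)) n, e1]
      show P (z₀ + q * (g w.1 + n * w.2))
      rw [e]
      exact (hY w.1 hw.1).2 _
  · intro w hw w' hw' he
    rw [Finset.mem_coe, Finset.mem_product, Finset.mem_range] at hw hw'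
    obtain ⟨h1, h2⟩ := hg w.1 hw.1
    obtain ⟨h1', h2'⟩ := hg w'.1 hw'.1
    have he' : g w.1 + n * w.2 = g w'.1 + n * w'.2 := he
    have e1 : g w.1 = g w'.1 := by
      have := congrArg (· % n) he'
      simp only [Nat.add_mul_mod_self_left] at this
      rwa [Nat.mod_eq_of_lt h1, Nat.mod_eq_of_lt h1'] at this
    have e2 : w.2 = w'.2 := by
      rw [e1] at he'
      exact Nat.eq_of_mul_eq_mul_left hn (Nat.add_left_cancel he')
    have e3 : w.1 = w'.1 := by rw [← h2, ← h2', e1]
    exact Prod.ext e3 e2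

theorem ex_r {q n z₀ z : ℕ} (hq : q.Prime) (hn : 2 ≤ n) (hz : z < n)
    (h : (z % q = z₀ % q ∧ q ∣ n) ∨ ¬ q ∣ n) : ∃ r, (z₀ + q * r) % n = z := by
  have key : ∀ K, z₀ ≤ K → K ≡ z₀ [MOD q] → K % n = z → ∃ r, (z₀ + q * r) % n = z := by
    intro K h1 h2 h3
    obtain ⟨r, hr⟩ := (Nat.modEq_iff_dvd' h1).1 h2.symm
    refine ⟨r, ?_⟩
    rw [← hr, Nat.add_sub_cancel' h1, h3]
  rcases h with ⟨h1, h2⟩ | h1
  · refine key (z + n * z₀) ?_ ?_ ?_
    · nlinarith
    · have : n * z₀ ≡ 0 [MOD q] := (Nat.modEq_zero_iff_dvd.2 (h2.mul_right z₀))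
      exact (Nat.ModEq.add h1 this)
    · rw [Nat.add_mul_mod_self_left, Nat.mod_eq_of_lt hz]
  · have hco : Nat.Coprime q n := (Nat.Prime.coprime_iff_not_dvd hq).2 h1
    obtain ⟨k, hk1, hk2⟩ := Nat.chineseRemainder hco z₀ z
    refine key (k + q * n * z₀) ?_ ?_ ?_
    · have h3 : 1 ≤ q * n := Nat.mul_pos hq.pos (by omega)
      nlinarith
    · have h3 : q * n * z₀ ≡ 0 [MOD q] :=
        Nat.modEq_zero_iff_dvd.2 ((Dvd.intro _ rfl : q ∣ q * n).mul_right z₀)
      exact hk1.add h3
    · have h3 : (k + q * n * z₀) % n = k % n := by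
        rw [show k + q * n * z₀ = k + n * (q * z₀) by ring, Nat.add_mul_mod_self_left]
      rw [h3]
      exact Eq.trans hk2 (Nat.mod_eq_of_lt hz)

theorem side (hC : CORE) {p q m n N : ℕ} {G : ℕ → ZMod 2} {ε : ZMod 2} (hp : p.Prime)
    (hq : q.Prime) (hpq : p ≠ q) (hm : 64 * p * q ≤ m) (hn : 2 ≤ n) (hN : 2 ≤ N)
    (hlin : ∀ l < m, G l = (l : ZMod 2) * ε)
    (h1 : ∀ l h, l < m → G (l + m * h) = G l + G (m * h))
    (h2 : ∀ l h, l < m * n → G (l + m * n * h) = G l + G (m * n * h)) (ep eq : ℕ) (σ : ZMod 2) :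
    ∃ bad : ℕ, ∀ κ < q, κ ≠ bad → ∀ Y : Finset ℕ, (∀ z ∈ Y, z < n - 1 ∧
      G (m * (z + 1)) + G (m * z) ≠ (m : ZMod 2) * ε ∧ ((z % q = κ ∧ q ∣ n) ∨ ¬ q ∣ n)) →
      (Y.card : ℝ) * (m * N) ≤ 64 * p * q * (((range (m * n * N)).filter
        (fun x => G (p * x + ep) + G (q * x + eq) ≠ σ)).card : ℝ) := by
  have hpp := hp.pos
  have hqp := hq.pos
  have hpq0 : 0 < p * q := Nat.mul_pos hpp hqp
  have hm0 : 0 < m := by nlinarith
  have hk : 4 ≤ m / (16 * (p * q)) := by
    rw [Nat.le_div_iff_mul_le (by omega)]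
    nlinarith
  have hk2 : m < 16 * (p * q) * (m / (16 * (p * q)) + 1) := by
    have := Nat.lt_mul_div_succ m (show 0 < 16 * (p * q) by omega)
    exact this
  have hk3 : 16 * (p * q) * (m / (16 * (p * q))) ≤ m := Nat.mul_div_le m _
  obtain ⟨bad, hbad⟩ := hC p q m (2 * (m / (16 * (p * q)))) (m * n * N) (n * (N - 1)) G ep eq σ
    hp hq hpq (by omega) (by nlinarith) (by
      obtain ⟨N', rfl⟩ : ∃ N', N = N' + 1 := ⟨N - 1, by omega⟩
      rw [Nat.add_sub_cancel]
      calc m * (n * N' + 2) ≤ m * (n * N' + n) := Nat.mul_le_mul_left _ (by omega)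
        _ = m * n * (N' + 1) := by ring) h1
  refine ⟨bad, fun κ hκ hκb Y hY => ?_⟩
  obtain ⟨z₀, hz₀, c, hc1, hc2⟩ := hbad κ hκ hκb
  obtain rfl := hc2 ε hlin (by omega)
  have h3 := count q n N z₀ (by omega) Y
    (fun z => G (m * (z + 1)) + G (m * z) ≠ (m : ZMod 2) * ε) (fun z hz => by
      obtain ⟨ha, hb, hd⟩ := hY z hz
      refine ⟨ex_r hq hn (by omega) ?_, fun h => ?_⟩
      · rcases hd with ⟨hd1, hd2⟩ | hd
        · exact Or.inl ⟨by rw [hd1, hz₀], hd2⟩
        · exact Or.inr hd
      · show G (m * (z + n * h + 1)) + G (m * (z + n * h)) ≠ _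
        rw [per hm0 h2 z h (by omega)]
        exact hb)
  have h4 : (2 * (m / (16 * (p * q)))) * (Y.card * (N - 1)) ≤ 2 * ((range (m * n * N)).filter
      (fun x => G (p * x + ep) + G (q * x + eq) ≠ σ)).card :=
    (Nat.mul_le_mul_left _ h3).trans hc1
  set B := ((range (m * n * N)).filter (fun x => G (p * x + ep) + G (q * x + eq) ≠ σ)).card
  set k := m / (16 * (p * q))
  have h5 : (Y.card : ℝ) * (m * N) ≤ 64 * p * q * B := by
    have h6 : Y.card * (m * N) ≤ 64 * (p * q) * B := by
      have e1 : m ≤ 32 * (p * q) * k := by nlinarith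
      have e2 : N ≤ 2 * (N - 1) := by omega
      calc Y.card * (m * N) ≤ Y.card * ((32 * (p * q) * k) * (2 * (N - 1))) :=
            Nat.mul_le_mul_left _ (Nat.mul_le_mul e1 e2)
        _ = 32 * (p * q) * (2 * k * (Y.card * (N - 1))) := by ring
        _ ≤ 32 * (p * q) * (2 * B) := Nat.mul_le_mul_left _ h4
        _ = 64 * (p * q) * B := by ring
    have h7 : ((Y.card * (m * N) : ℕ) : ℝ) ≤ ((64 * (p * q) * B : ℕ) : ℝ) := by exact_mod_cast h6
    push_cast at h7
    linarith
  exact h5

theorem crt_card {p q n a b : ℕ} (hco : Nat.Coprime p q) (hp : 0 < p) (hq : 0 < q)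
    (hd : p * q ∣ n) :
    ((range n).filter (fun z => z % q = a ∧ z % p = b)).card ≤ n / (p * q) := by
  rw [← Finset.card_range (n / (p * q))]
  refine Finset.card_le_card_of_injOn (fun z => z / (p * q)) ?_ ?_
  · intro z hz
    rw [Finset.mem_coe, Finset.mem_filter, Finset.mem_range] at hz
    show z / (p * q) ∈ _
    rw [Finset.mem_coe, Finset.mem_range]
    exact Nat.div_lt_div_of_lt_of_dvd hd hz.1
  · intro z hz z' hz' he
    rw [Finset.mem_coe, Finset.mem_filter] at hz hz'
    have e1 : z ≡ z' [MOD q] := hz.2.1.trans hz'.2.1.symm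
    have e2 : z ≡ z' [MOD p] := hz.2.2.trans hz'.2.2.symm
    have e3 : z ≡ z' [MOD (p * q)] := (Nat.modEq_and_modEq_iff_modEq_mul hco).1 ⟨e2, e1⟩
    have he' : z / (p * q) = z' / (p * q) := he
    rw [← Nat.div_add_mod z (p * q), ← Nat.div_add_mod z' (p * q), he', e3]

end RigJX

open Finset RigJX in
theorem rigj : CORE → RIGJ := by
  intro hC p q δ hp hq hpq hp3 hq3 hδ hδpq
  have hp0 : (0 : ℝ) < p := by exact_mod_cast hp.pos
  have hq0 : (0 : ℝ) < q := by exact_mod_cast hq.pos
  have hη0 : (0 : ℝ) < min 1 (δ / (128 * p * q * (p + q))) := lt_min one_pos (by positivity)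
  refine ⟨min 1 (δ / (128 * p * q * (p + q))), 64 * p * q, hη0, min_le_left _ _, ?_⟩
  have hη1 : min 1 (δ / (128 * p * q * (p + q))) ≤ δ / (128 * p * q * (p + q)) := min_le_right _ _
  generalize min 1 (δ / (128 * p * q * (p + q))) = η at hη0 hη1
  intro m n N G ε hm hn hN hlin h1 h2 hX ep eq
  by_contra hcon
  push Not at hcon
  have hpq0 : 0 < p * q := Nat.mul_pos hp.pos hq.pos
  have hn2 : 2 ≤ n := by
    by_contra h
    have hn1 : n = 1 := by omega
    subst hn1
    simp at hX
    linarith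
  have hN2 : 2 ≤ N := by nlinarith
  have hm0 : 0 < m := by nlinarith
  obtain ⟨σ, hσ⟩ := exists_sigma _ _ _ hcon
  obtain ⟨bq, hbq⟩ := side hC hp hq hpq hm hn2 hN2 hlin h1 h2 ep eq σ
  obtain ⟨bp, hbp⟩ := side hC hq hp hpq.symm (by nlinarith) hn2 hN2 hlin h1 h2 eq ep σ
  have hBB : ((range (m * n * N)).filter (fun x => G (q * x + eq) + G (p * x + ep) ≠ σ)).card =
      ((range (m * n * N)).filter (fun x => G (p * x + ep) + G (q * x + eq) ≠ σ)).card := by
    congr 1
    refine Finset.filter_congr fun x _ => ?_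
    rw [add_comm]
  rw [hBB] at hbp
  set B : ℝ := (((range (m * n * N)).filter
    (fun x => G (p * x + ep) + G (q * x + eq) ≠ σ)).card : ℝ)
  have hmN : (0 : ℝ) < m * N := by
    have : (0 : ℝ) < m := by exact_mod_cast hm0
    have : (0 : ℝ) < N := by exact_mod_cast (by omega : 0 < N)
    positivity
  have hn0 : (0 : ℝ) < n := by exact_mod_cast (by omega : 0 < n)
  have key : ∀ y : ℝ, y * (m * N) ≤ 64 * p * q * B → y ≤ 32 * p * q * η * n := by
    intro y hy
    have e1 : 64 * p * q * B ≤ 32 * p * q * η * n * (m * N) := by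
      push_cast at hσ
      have e2 : 2 * B ≤ η * (m * n * N) := hσ.le
      calc 64 * p * q * B = 32 * p * q * (2 * B) := by ring
        _ ≤ 32 * p * q * (η * (m * n * N)) := by gcongr
        _ = 32 * p * q * η * n * (m * N) := by ring
    exact le_of_mul_le_mul_right (hy.trans e1) hmN
  set X := (range (n - 1)).filter (fun z => G (m * (z + 1)) + G (m * z) ≠ (m : ZMod 2) * ε)
  have hη2 : 128 * p * q * (p + q) * η ≤ δ := by
    rw [le_div_iff₀ (by positivity)] at hη1
    linarith
  have hp3' : (3 : ℝ) ≤ p := by exact_mod_cast hp3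
  have hq3' : (3 : ℝ) ≤ q := by exact_mod_cast hq3
  have hsmall : 32 * p * q * η * n < δ * n := by
    have e1 : 0 < p * q * η * n := by positivity
    have e2 : 128 * p * q * (p + q) * η * n ≤ δ * n := by gcongr
    nlinarith
  have hXm : ∀ z ∈ X, z < n - 1 ∧ G (m * (z + 1)) + G (m * z) ≠ (m : ZMod 2) * ε := by
    intro z hz
    rw [Finset.mem_filter, Finset.mem_range] at hz
    exact hz
  by_cases hqn : q ∣ n
  · by_cases hpn : p ∣ n
    · have hco : Nat.Coprime p q := (Nat.coprime_primes hp hq).2 hpq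
      have hd : p * q ∣ n := hco.mul_dvd_of_dvd_of_dvd hpn hqn
      have hsub : X ⊆ (((range q).erase bq).biUnion (fun κ => X.filter (fun z => z % q = κ)) ∪
          ((range p).erase bp).biUnion (fun κ => X.filter (fun z => z % p = κ))) ∪
          (range n).filter (fun z => z % q = bq ∧ z % p = bp) := by
        intro z hz
        rw [Finset.mem_union, Finset.mem_union]
        by_cases ha : z % q = bq
        · by_cases hb : z % p = bp
          · right
            rw [Finset.mem_filter, Finset.mem_range]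
            have := (hXm z hz).1
            exact ⟨by omega, ha, hb⟩
          · left; right
            rw [Finset.mem_biUnion]
            exact ⟨z % p, Finset.mem_erase.2 ⟨hb, Finset.mem_range.2 (Nat.mod_lt _ hp.pos)⟩,
              Finset.mem_filter.2 ⟨hz, rfl⟩⟩
        · left; left
          rw [Finset.mem_biUnion]
          exact ⟨z % q, Finset.mem_erase.2 ⟨ha, Finset.mem_range.2 (Nat.mod_lt _ hq.pos)⟩,
            Finset.mem_filter.2 ⟨hz, rfl⟩⟩
      have c1 : ((((range q).erase bq).biUnion (fun κ => X.filter (fun z => z % q = κ))).card : ℝ) ≤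
          q * (32 * p * q * η * n) := by
        have e1 : ((((range q).erase bq).biUnion (fun κ => X.filter (fun z => z % q = κ))).card : ℝ)
            ≤ ∑ κ ∈ (range q).erase bq, ((X.filter (fun z => z % q = κ)).card : ℝ) := by
          exact_mod_cast Finset.card_biUnion_le
        refine e1.trans ?_
        have e2 : ∀ κ ∈ (range q).erase bq, ((X.filter (fun z => z % q = κ)).card : ℝ) ≤
            32 * p * q * η * n := by
          intro κ hκ
          rw [Finset.mem_erase, Finset.mem_range] at hκ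
          refine key _ (hbq κ hκ.2 hκ.1 _ fun z hz => ?_)
          rw [Finset.mem_filter] at hz
          exact ⟨(hXm z hz.1).1, (hXm z hz.1).2, Or.inl ⟨hz.2, hqn⟩⟩
        refine (Finset.sum_le_sum e2).trans ?_
        rw [Finset.sum_const, nsmul_eq_mul]
        have e3 : (((range q).erase bq).card : ℝ) ≤ q := by
          have := Finset.card_le_card (Finset.erase_subset bq (range q))
          rw [Finset.card_range] at this
          exact_mod_cast this
        gcongr
      have c2 : ((((range p).erase bp).biUnion (fun κ => X.filter (fun z => z % p = κ))).card : ℝ) ≤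
          p * (32 * p * q * η * n) := by
        have e1 : ((((range p).erase bp).biUnion (fun κ => X.filter (fun z => z % p = κ))).card : ℝ)
            ≤ ∑ κ ∈ (range p).erase bp, ((X.filter (fun z => z % p = κ)).card : ℝ) := by
          exact_mod_cast Finset.card_biUnion_le
        refine e1.trans ?_
        have e2 : ∀ κ ∈ (range p).erase bp, ((X.filter (fun z => z % p = κ)).card : ℝ) ≤
            32 * p * q * η * n := by
          intro κ hκ
          rw [Finset.mem_erase, Finset.mem_range] at hκ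
          refine key _ ((hbp κ hκ.2 hκ.1 _ fun z hz => ?_).trans (le_of_eq (by ring)))
          rw [Finset.mem_filter] at hz
          exact ⟨(hXm z hz.1).1, (hXm z hz.1).2, Or.inl ⟨hz.2, hpn⟩⟩
        refine (Finset.sum_le_sum e2).trans ?_
        rw [Finset.sum_const, nsmul_eq_mul]
        have e3 : (((range p).erase bp).card : ℝ) ≤ p := by
          have := Finset.card_le_card (Finset.erase_subset bp (range p))
          rw [Finset.card_range] at this
          exact_mod_cast this
        gcongr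
      have c3 : (((range n).filter (fun z => z % q = bq ∧ z % p = bp)).card : ℝ) ≤
          n / (p * q) := by
        have e1 := crt_card (a := bq) (b := bp) hco hp.pos hq.pos hd
        have e2 : ((n / (p * q) : ℕ) : ℝ) ≤ n / (p * q) := by
          have := @Nat.cast_div_le ℝ _ _ _ n (p * q)
          push_cast at this
          exact this
        exact (by exact_mod_cast e1 : (((range n).filter
          (fun z => z % q = bq ∧ z % p = bp)).card : ℝ) ≤ ((n / (p * q) : ℕ) : ℝ)).trans e2
      have c4 : (X.card : ℝ) ≤ q * (32 * p * q * η * n) + p * (32 * p * q * η * n) +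
          n / (p * q) := by
        have e1 := (Finset.card_le_card hsub).trans ((Finset.card_union_le _ _).trans
          (Nat.add_le_add_right (Finset.card_union_le _ _) _))
        have e2 : (X.card : ℝ) ≤ ((((range q).erase bq).biUnion
            (fun κ => X.filter (fun z => z % q = κ))).card : ℝ) +
          ((((range p).erase bp).biUnion (fun κ => X.filter (fun z => z % p = κ))).card : ℝ) +
          (((range n).filter (fun z => z % q = bq ∧ z % p = bp)).card : ℝ) := by exact_mod_cast e1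
        linarith
      have c5 : (n : ℝ) / (p * q) ≤ δ / 2 * n := by
        rw [div_le_iff₀ (by positivity)]
        nlinarith
      have c6 : 0 < p * q * η * n * (p + q) := by positivity
      have c7 : 128 * p * q * (p + q) * η * n ≤ δ * n := by gcongr
      have c8 : q * (32 * p * q * η * n) + p * (32 * p * q * η * n) =
        32 * (p * q * η * n * (p + q)) := by ring
      have c9 : 128 * p * q * (p + q) * η * n = 128 * (p * q * η * n * (p + q)) := by ring
      linarith
    · obtain ⟨κ, hκ, hκb⟩ : ∃ κ < p, κ ≠ bp := by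
        by_cases h : bp = 0
        · exact ⟨1, by omega, by omega⟩
        · exact ⟨0, by omega, fun h' => h h'.symm⟩
      have e1 := key _ ((hbp κ hκ hκb X fun z hz =>
        ⟨(hXm z hz).1, (hXm z hz).2, Or.inr hpn⟩).trans (le_of_eq (by ring)))
      linarith
  · obtain ⟨κ, hκ, hκb⟩ : ∃ κ < q, κ ≠ bq := by
      by_cases h : bq = 0
      · exact ⟨1, by omega, by omega⟩
      · exact ⟨0, by omega, fun h' => h h'.symm⟩
    have e1 := key _ (hbq κ hκ hκb X fun z hz => ⟨(hXm z hz).1, (hXm z hz).2, Or.inr hqn⟩)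
    linarith

end Pool.Agent.N213.BM
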