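import Pool.Agent.N213.BM.Stm2

/-! # Project BM: one window gains a factor (helper143) -/

set_option autoImplicit false

namespace Pool.Agent.N213.BM

open Finset

namespace StepX

theorem sumr (A B : ℕ) (f : ℕ → ℂ) :
    ∑ x ∈ range (A * B), f x = ∑ b ∈ range B, ∑ a ∈ range A, f (a + A * b) := by
  induction B with
  | zero => simp
  | succ B ih =>
    rw [Nat.mul_succ, Finset.sum_range_add, ih, Finset.sum_range_succ]
    congr 1
    refine Finset.sum_congr rfl fun a _ => ?_
    rw [add_comm]

end StepX

/-- `STEP` -/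
theorem step : STEP := by
  classical
  intro a M R F η τ A hη0 hη1 hτ hF hA hM h v
  have hsum : ∑ x ∈ range (a * M * R), F (x + a * M * R * v) =
      ∑ α ∈ range M, ∑ X ∈ range R, ∑ u ∈ range a, F (u + a * (α + M * (X + R * v))) := by
    rw [StepX.sumr, Finset.sum_comm]
    rw [Finset.sum_comm (s := range M) (t := range R)]
    rw [Finset.sum_comm (s := range (a * M)) (t := range R)]
    refine Finset.sum_congr rfl fun X _ => ?_
    rw [StepX.sumr]
    refine Finset.sum_congr rfl fun α _ => Finset.sum_congr rfl fun u _ => ?_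
    congr 1
    ring
  have hJ : ∀ α X, ‖∑ u ∈ range a, F (u + a * (α + M * (X + R * v)))‖ ≤ τ * a := fun α X => hF _
  have ha0 : (0 : ℝ) ≤ a := Nat.cast_nonneg a
  have hR0 : (0 : ℝ) ≤ R := Nat.cast_nonneg R
  have hM0 : (0 : ℝ) ≤ M := Nat.cast_nonneg M
  have hone : ∀ α ∈ range M, ‖∑ X ∈ range R, ∑ u ∈ range a, F (u + a * (α + M * (X + R * v)))‖ ≤
      τ * a * R - if α ∈ A then τ * a * R * η else 0 := by
    intro α _
    split_ifs with hα
    · obtain ⟨κ, h1, h2⟩ := h α hα v
      have e : ∑ X ∈ range R, ∑ u ∈ range a, F (u + a * (α + M * (X + R * v))) =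
          (∑ u ∈ range a, F (u + a * (α + M * (0 + R * v)))) * ∑ X ∈ range R, κ X := by
        rw [Finset.mul_sum]
        refine Finset.sum_congr rfl fun X hX => ?_
        rw [Finset.sum_mul]
        refine Finset.sum_congr rfl fun u hu => ?_
        have h3 := h1 u (mem_range.1 hu) X (mem_range.1 hX)
        have e1 : u + a * (α + M * (X + R * v)) = u + a * α + a * M * X + a * M * R * v := by ring
        have e2 : u + a * (α + M * (0 + R * v)) = u + a * α + a * M * R * v := by ring
        rw [e1, e2, h3]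
      rw [e, norm_mul]
      have h3 : ‖∑ u ∈ range a, F (u + a * (α + M * (0 + R * v)))‖ * ‖∑ X ∈ range R, κ X‖ ≤
          (τ * a) * ((1 - η) * R) := mul_le_mul (hJ α 0) h2 (norm_nonneg _) (by positivity)
      refine h3.trans (le_of_eq ?_)
      ring
    · rw [sub_zero]
      refine (norm_sum_le_of_le _ fun X _ => hJ α X).trans (le_of_eq ?_)
      rw [Finset.sum_const, card_range, nsmul_eq_mul]
      ring
  rw [hsum]
  refine (norm_sum_le_of_le _ hone).trans ?_
  rw [Finset.sum_sub_distrib, Finset.sum_const, card_range, nsmul_eq_mul, ← Finset.sum_filter,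
    Finset.sum_const, nsmul_eq_mul]
  have hcard : ((range M).filter (fun α => α ∈ A)).card = A.card := by
    congr 1
    ext α
    rw [mem_filter]
    exact ⟨fun h => h.2, fun h => ⟨hA h, h⟩⟩
  rw [hcard]
  have hMA : (M : ℝ) ≤ 2 * A.card := by exact_mod_cast hM
  have h5 : 0 ≤ τ * a * R * η := by positivity
  have h6 := mul_le_mul_of_nonneg_right hMA h5
  push_cast
  nlinarith

end Pool.Agent.N213.BM
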