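import Pool.Agent.N213.BM.Main3
import Pool.Agent.N213.BM.Words3
import Pool.Agent.N213.BM.Clo3
import Pool.Agent.N213.BM.Core
import Pool.Agent.N213.BM.RigA
import Pool.Agent.N213.BM.RigJ
import Pool.Agent.N213.BM.Gad2
import Pool.Agent.N213.BM.Step
import Pool.Agent.N213.BM.HypA
import Pool.Agent.N213.BM.Per
import Pool.Agent.N213.BM.Morse2

/-! # Project BM: assembly -/

set_option autoImplicit false

namespace Pool.Agent.N213.BM

open Finset
open MorseX Morse2X

theorem main3' : MAIN3 := main3 per (riga core) (rigj core) gad2 step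

theorem words3' : WORDS3 := words3 per main3'

variable {b : ℕ → List Bool} {x : ℕ → Bool}

/-- letters as elements of `ZMod 2` -/
def gx (x : ℕ → Bool) : ℕ → ZMod 2 := fun n => if x n then 1 else 0

theorem sc_sc (h : IsMorse b x) : Sc (sc b) :=
  ⟨rfl, fun j => ⟨(b j).length, h.len j, rfl⟩⟩

theorem sc_dig (h : IsMorse b x) : Dig (sc b) (gx x) := by
  intro j l d hl
  show zb (x (l + sc b j * d)) = zb (x l) + zb (x (sc b j * d))
  rw [x_add h j l d hl, zb_xor]

theorem closed_of (h : IsMorse b x) (hh : Hyp3 (sc b) (gx x)) : CLOS x :=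
  clo3 words3' (sc_sc h) (sc_dig h) hh

theorem linB_lin (h : IsMorse b x) (t : ℕ) (hB : LinB (b t)) : Lin (sc b) (gx x) t := by
  have hpos := sc_pos h
  intro d hd
  have hd' : d < (b t).length := by
    have hd2 : d * sc b t < (b t).length * sc b t := hd
    exact Nat.lt_of_mul_lt_mul_right hd2
  have h1 : (b t)[1]?.getD false = x (sc b t) := by
    have h2 := x_block h t 1 (by have := h.len t; omega)
    rw [mul_one] at h2
    rw [h2]
    rfl
  have h6 := hB d hd'
  rw [x_block h t d hd', h1] at h6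
  injection h6 with h6
  show zb (x (sc b t * d)) = (d : ZMod 2) * zb (x (sc b t))
  rw [zb_mul, zb_inj]
  exact h6

theorem clos_short (h : IsMorse b x) (K T : ℕ)
    (hKT : ∀ t, T ≤ t → (b t).length ≤ K ∨ LinB (b t)) : CLOS x := by
  refine closed_of h (Hyp2.hyp3 (hypa (sc b) (gx x) (sc_sc h) (sc_dig h) K T ?_))
  intro t ht
  rcases hKT t ht with h1 | h1
  · exact Or.inl (Nat.mul_le_mul_right _ h1)
  · exact Or.inr (linB_lin h t h1)

/-- the word `b s × b (s + 1) × ⋯ × b (s + n)` -/
def tl (b : ℕ → List Bool) (s n : ℕ) : List Bool := bprod (fun i => b (s + i)) n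

theorem tl_length (s n : ℕ) : (tl b s n).length * sc b s = sc b (s + n + 1) := by
  unfold tl
  rw [sc_length]
  have : ∀ k, sc (fun i => b (s + i)) k * sc b s = sc b (s + k) := by
    intro k
    induction k with
    | zero => exact one_mul _
    | succ k ih =>
      show (b (s + k)).length * sc (fun i => b (s + i)) k * sc b s = (b (s + k)).length * sc b (s + k)
      rw [mul_assoc, ih]
  exact this (n + 1)

theorem tl_get (h : IsMorse b x) (s n d : ℕ) (hd : d < (tl b s n).length) :
    (tl b s n)[d]? = some (x (sc b s * d)) := by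
  cases s with
  | zero =>
    have e : tl b 0 n = bprod b n := by
      unfold tl
      congr 1
      funext i
      rw [zero_add]
    rw [e] at hd ⊢
    have := h.pre n d hd
    rw [this]
    show some (x d) = some (x (1 * d))
    rw [one_mul]
  | succ j =>
    obtain ⟨γ, h1, h2⟩ := x_tail h j n 0 d (by rw [← sc_length]; have := bprod_length b h.len j; omega) hd
    rw [zero_add, x_zero h, Bool.false_xor] at h2
    rw [h2]
    exact h1

theorem tl_div (h : IsMorse b x) (s n : ℕ) : sc b (s + n + 1) / sc b s = (tl b s n).length := by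
  rw [← tl_length]
  exact Nat.mul_div_cancel _ (sc_pos h s)

theorem mixed_tl (h : IsMorse b x) (δ : ℝ) (s n : ℕ) (hM : MixedB δ (tl b s n)) :
    Mixed δ (gx x) (sc b s) (sc b (s + n + 1) / sc b s) := by
  rw [tl_div h]
  have key : ∀ v ∈ range ((tl b s n).length - 1),
      (gx x (sc b s * (v + 1)) = gx x (sc b s * v) ↔ (tl b s n)[v + 1]? = (tl b s n)[v]?) := by
    intro v hv
    rw [Finset.mem_range] at hv
    rw [tl_get h s n (v + 1) (by omega), tl_get h s n v (by omega)]
    show zb _ = zb _ ↔ _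
    rw [zb_inj]
    constructor
    · intro e
      rw [e]
    · intro e
      injection e
  refine ⟨?_, ?_⟩
  · refine hM.1.trans (le_of_eq ?_)
    congr 2
    exact (Finset.filter_congr fun v hv => key v hv).symm
  · refine hM.2.trans (le_of_eq ?_)
    congr 2
    exact (Finset.filter_congr fun v hv => not_congr (key v hv)).symm

theorem clos_mixed (h : IsMorse b x) (δ : ℝ) (hδ : 0 < δ)
    (hM : ∀ T, ∃ s n, T ≤ s ∧ MixedB δ (tl b s n)) : CLOS x := by
  refine closed_of h (Or.inr (Or.inl ⟨δ, hδ, fun T => ?_⟩))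
  obtain ⟨s, n, h1, h2⟩ := hM T
  exact ⟨s, s + n + 1, h1, by omega, mixed_tl h δ s n h2⟩

/-- after the linear word `u` the proportion of the irregular neighbours in `w` is at least `δ` -/
def BreakB (δ : ℝ) (u w : List Bool) : Prop :=
  LinB u ∧ δ * w.length ≤ (((range (w.length - 1)).filter (fun v =>
    xor (w[v + 1]?.getD false) (w[v]?.getD false) ≠
      (decide (u.length % 2 = 1) && u[1]?.getD false))).card : ℝ)

theorem break_tl (h : IsMorse b x) (δ : ℝ) (s n m : ℕ)
    (hM : BreakB δ (tl b s n) (tl b (s + n + 1) m)) :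
    Break δ (sc b) (gx x) s (s + n + 1) (s + n + 1 + m + 1) := by
  obtain ⟨h1, h2⟩ := hM
  have hlen2 : 2 ≤ (tl b s n).length := by
    have e := tl_length (b := b) s n
    have hk : sc b s * 2 ≤ sc b (s + n + 1) := by
      obtain ⟨k, hk, e2⟩ := (sc_sc h).quot s (n + 1)
      have e3 : s + (n + 1) = s + n + 1 := by ring
      rw [e3] at e2
      rw [e2]
      refine Nat.mul_le_mul_left _ (le_trans ?_ hk)
      calc 2 = 2 ^ 1 := by norm_num
        _ ≤ 2 ^ (n + 1) := Nat.pow_le_pow_right (by norm_num) (by omega)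
    rw [← e, mul_comm] at hk
    exact Nat.le_of_mul_le_mul_right hk (sc_pos h s)
  have hu1 : (tl b s n)[1]?.getD false = x (sc b s) := by
    rw [tl_get h s n 1 (by omega), mul_one]
    rfl
  refine ⟨?_, ?_⟩
  · intro z hz
    have hz' : z < (tl b s n).length := by
      rw [← tl_length (b := b) s n, mul_comm] at hz
      exact Nat.lt_of_mul_lt_mul_right hz
    have h6 := h1 z hz'
    rw [tl_get h s n z hz', hu1] at h6
    injection h6 with h6
    show zb (x (sc b s * z)) = (z : ZMod 2) * zb (x (sc b s))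
    rw [zb_mul, zb_inj]
    exact h6
  · rw [tl_div h (s + n + 1) m, tl_div h s n]
    refine h2.trans (le_of_eq ?_)
    congr 2
    refine (Finset.filter_congr fun v hv => ?_).symm
    rw [Finset.mem_range] at hv
    rw [tl_get h (s + n + 1) m (v + 1) (by omega), tl_get h (s + n + 1) m v (by omega), hu1]
    show zb _ + zb _ ≠ ((tl b s n).length : ZMod 2) * zb (x (sc b s)) ↔ _
    rw [zb_mul, ← zb_xor, not_iff_not, zb_inj]
    rfl

theorem clos_break (h : IsMorse b x) (δ : ℝ) (hδ : 0 < δ)
    (hM : ∀ T, ∃ s n m, T ≤ s ∧ T ≤ (tl b s n).length ∧ BreakB δ (tl b s n) (tl b (s + n + 1) m)) :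
    CLOS x := by
  refine closed_of h (Or.inr (Or.inr ⟨δ, hδ, fun T => ?_⟩))
  obtain ⟨s, n, m, h1, h2, h3⟩ := hM T
  refine ⟨s, s + n + 1, s + n + 1 + m + 1, h1, by omega, by omega, ?_, break_tl h δ s n m h3⟩
  rw [← tl_length]
  exact Nat.mul_le_mul_right _ h2

end Pool.Agent.N213.BM
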