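import Pool.Agent.N213.BM.Main4
import Pool.Agent.N213.BM.Words4
import Pool.Agent.N213.BM.Clo4
import Pool.Agent.N213.BM.Fin

/-! # Project DM: assembly -/

set_option autoImplicit false

namespace Pool.Agent.N213.BM

open Finset
open MorseX Morse2X

variable {b : ℕ → List Bool} {x : ℕ → Bool}

theorem closed_of4 (hK : RIGK) (h : IsMorse b x) (hh : Hyp4 (sc b) (gx x)) : CLOS x :=
  clo4 (words4 per (main4 per (riga core) (rigj core) gad2 step hK)) (sc_sc h) (sc_dig h) hh

/-- the letter number `v` of `w`, plus `v` modulo 2 if `e` is true -/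
def letter (e : Bool) (w : List Bool) (v : ℕ) : Bool :=
  xor (w[v]?.getD false) (decide (v % 2 = 1) && e)

/-- `w`, or `w + 0101...`, has at most `K` changes and is balanced -/
def BalB (K : ℕ) (δ : ℝ) (w : List Bool) : Prop := ∃ e : Bool,
  ((range (w.length - 1)).filter (fun v => letter e w (v + 1) ≠ letter e w v)).card ≤ K ∧
  ∀ c : Bool, δ * w.length ≤ (((range w.length).filter (fun v => letter e w v = c)).card : ℝ)

theorem bal_tl (h : IsMorse b x) (K : ℕ) (δ : ℝ) (s n : ℕ) (hM : BalB K δ (tl b s n)) :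
    ∃ ε : ZMod 2, Bal K δ (fun z => gx x (sc b s * z) + (z : ZMod 2) * ε)
      (sc b (s + n + 1) / sc b s) := by
  obtain ⟨e, h1, h2⟩ := hM
  refine ⟨zb e, ?_, ?_⟩
  all_goals rw [tl_div h]
  all_goals
    have key : ∀ v, v < (tl b s n).length →
        gx x (sc b s * v) + (v : ZMod 2) * zb e = zb (letter e (tl b s n) v) := by
      intro v hv
      rw [zb_mul]
      show zb (x (sc b s * v)) + _ = _
      unfold letter
      rw [tl_get h s n v hv, zb_xor]
      rfl
  · refine le_trans (le_of_eq ?_) h1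
    congr 1
    refine Finset.filter_congr fun v hv => ?_
    rw [Finset.mem_range] at hv
    show gx x (sc b s * (v + 1)) + ((v + 1 : ℕ) : ZMod 2) * zb e ≠
      gx x (sc b s * v) + (v : ZMod 2) * zb e ↔ _
    rw [key (v + 1) (by omega), key v (by omega), not_iff_not, zb_inj]
  · intro v
    obtain ⟨c, rfl⟩ : ∃ c, zb c = v := by
      have : ∀ v : ZMod 2, ∃ c, zb c = v := by decide
      exact this v
    refine (h2 c).trans (le_of_eq ?_)
    congr 2
    refine (Finset.filter_congr fun v hv => ?_).symm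
    rw [Finset.mem_range] at hv
    show gx x (sc b s * v) + (v : ZMod 2) * zb e = zb c ↔ _
    rw [key v hv, zb_inj]

theorem clos_bal (hK : RIGK) (h : IsMorse b x) (K : ℕ) (δ : ℝ) (hδ : 0 < δ)
    (hM : ∀ T, ∃ s n, T ≤ s ∧ T ≤ (tl b s n).length ∧ BalB K δ (tl b s n)) : CLOS x := by
  refine closed_of4 hK h (Or.inr ⟨K, δ, hδ, fun T => ?_⟩)
  obtain ⟨s, n, h1, h2, h3⟩ := hM T
  refine ⟨s, s + n + 1, h1, by omega, ?_, bal_tl h K δ s n h3⟩
  rw [← tl_length]
  exact Nat.mul_le_mul_right _ h2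

end Pool.Agent.N213.BM
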