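import Pool.Agent.N213.BM.Stm

/-! # Project BM: gadgets in a window (helper169) -/

set_option autoImplicit false

namespace Pool.Agent.N213.BM

namespace GadX

theorem two_fail {p M b y d : ℕ} (hp : 1 ≤ p) (hM : 8 * p + 16 ≤ M) (h3 : 3 ≤ d) (h6 : d ≤ 6)
    (h1 : M < (p * y + b) % M + p + 2) (h2 : M < (p * (y + d) + b) % M + p + 2) : False := by
  have e1 := Nat.mod_add_div (p * y + b) M
  have e2 := Nat.mod_add_div (p * (y + d) + b) M
  have l1 := Nat.mod_lt (p * y + b) (show 0 < M by omega)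
  have l2 := Nat.mod_lt (p * (y + d) + b) (show 0 < M by omega)
  generalize (p * y + b) % M = r at *
  generalize (p * (y + d) + b) % M = r' at *
  generalize (p * y + b) / M = k at *
  generalize (p * (y + d) + b) / M = k' at *
  have hd1 : p * 3 ≤ p * d := Nat.mul_le_mul_left _ h3
  have hd2 : p * d ≤ p * 6 := Nat.mul_le_mul_left _ h6
  rw [mul_add] at e2
  generalize p * d = w at *
  generalize p * y = z at *
  rcases le_or_gt k' k with h | h
  · have := Nat.mul_le_mul_left M h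
    omega
  · obtain ⟨j, rfl⟩ := Nat.exists_eq_add_of_lt h
    have : M * (k + j + 1) = M * k + M * j + M := by ring
    omega

theorem pad {p q M b b' : ℕ} (hp : 1 ≤ p) (hpq : p ≤ q) (hM : 8 * q + 16 ≤ M) :
    ∃ y, y ≤ 6 ∧ (p * y + b) % M + p + 2 ≤ M ∧ (q * y + b') % M + q + 2 ≤ M := by
  by_contra hcon
  push Not at hcon
  have h0 := hcon 0 (by norm_num)
  have h3 := hcon 3 (by norm_num)
  have h6 := hcon 6 (by norm_num)
  have P1 : ¬ (M < (p * 0 + b) % M + p + 2 ∧ M < (p * 3 + b) % M + p + 2) := fun h =>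
    two_fail (y := 0) (d := 3) hp (by omega) (by norm_num) (by norm_num) h.1 h.2
  have P2 : ¬ (M < (p * 0 + b) % M + p + 2 ∧ M < (p * 6 + b) % M + p + 2) := fun h =>
    two_fail (y := 0) (d := 6) hp (by omega) (by norm_num) (by norm_num) h.1 h.2
  have P3 : ¬ (M < (p * 3 + b) % M + p + 2 ∧ M < (p * 6 + b) % M + p + 2) := fun h =>
    two_fail (y := 3) (d := 3) hp (by omega) (by norm_num) (by norm_num) h.1 h.2
  have Q1 : ¬ (M < (q * 0 + b') % M + q + 2 ∧ M < (q * 3 + b') % M + q + 2) := fun h =>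
    two_fail (y := 0) (d := 3) (hp.trans hpq) (by omega) (by norm_num) (by norm_num) h.1 h.2
  have Q2 : ¬ (M < (q * 0 + b') % M + q + 2 ∧ M < (q * 6 + b') % M + q + 2) := fun h =>
    two_fail (y := 0) (d := 6) (hp.trans hpq) (by omega) (by norm_num) (by norm_num) h.1 h.2
  have Q3 : ¬ (M < (q * 3 + b') % M + q + 2 ∧ M < (q * 6 + b') % M + q + 2) := fun h =>
    two_fail (y := 3) (d := 3) (hp.trans hpq) (by omega) (by norm_num) (by norm_num) h.1 h.2
  rcases le_or_gt ((p * 0 + b) % M + p + 2) M with a0 | a0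
  · have c0 := h0 a0
    rcases le_or_gt ((p * 3 + b) % M + p + 2) M with a3 | a3
    · exact Q1 ⟨c0, h3 a3⟩
    · rcases le_or_gt ((p * 6 + b) % M + p + 2) M with a6 | a6
      · exact Q2 ⟨c0, h6 a6⟩
      · exact P3 ⟨a3, a6⟩
  · rcases le_or_gt ((p * 3 + b) % M + p + 2) M with a3 | a3
    · rcases le_or_gt ((p * 6 + b) % M + p + 2) M with a6 | a6
      · exact Q3 ⟨h3 a3, h6 a6⟩
      · exact P2 ⟨a0, a6⟩
    · exact P1 ⟨a0, a3⟩

theorem sc_pos {L : ℕ → ℕ} (h : Sc L) : ∀ s, 0 < L s := by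
  intro s
  induction s with
  | zero => rw [h.zero]; exact one_pos
  | succ s ih =>
    obtain ⟨l, hl, e⟩ := h.step s
    rw [e]
    exact Nat.mul_pos (by omega) ih

theorem sc_quot {L : ℕ → ℕ} (h : Sc L) (s : ℕ) : ∀ i, ∃ m, 2 ^ i ≤ m ∧ L (s + i) = L s * m := by
  intro i
  induction i with
  | zero => exact ⟨1, le_refl _, by rw [add_zero, mul_one]⟩
  | succ i ih =>
    obtain ⟨m, hm, e⟩ := ih
    obtain ⟨l, hl, e'⟩ := h.step (s + i)
    refine ⟨m * l, ?_, ?_⟩
    · rw [pow_succ]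
      exact Nat.mul_le_mul hm hl
    · rw [← add_assoc, e', e]
      ring

/-- one multiplier -/
theorem one {g : ℕ → ZMod 2} {A0 M M' M3 p c0 c1 α0 α1 R : ℕ}
    (D1 : ∀ l h, l < A0 * M → g (l + A0 * M * h) = g l + g (A0 * M * h))
    (D2 : ∀ l h, l < A0 * M * M' * M3 → g (l + A0 * M * M' * M3 * h) = g l + g (A0 * M * M' * M3 * h))
    (hR : R ≤ M') (hA0 : 0 < A0) (hM : 0 < M) (hc0 : c0 < A0)
    (h0 : (p * α0 + c1) % M + p + 2 ≤ M)
    (h1 : (p * α1 + (p * α0 + c1) / M / M') % M3 + p + 2 ≤ M3)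
    {u v x : ℕ} (hu : u < A0) (hx : x < R) :
    g (p * (u + A0 * (α0 + M * x + M * M' * α1) + A0 * M * M' * M3 * v) + (c0 + A0 * c1)) =
      g ((p * u + c0) % A0 + A0 * ((p * α0 + c1) % M + (p * u + c0) / A0)) +
      g (A0 * M * (p * x + ((p * α0 + c1) / M % M' +
        M' * ((p * α1 + (p * α0 + c1) / M / M') % M3)))) +
      g (A0 * M * M' * M3 * ((p * α1 + (p * α0 + c1) / M / M') / M3 + p * v)) := by
  have e1 := Nat.mod_add_div (p * u + c0) A0
  have e2 := Nat.mod_add_div (p * α0 + c1) M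
  have e3 := Nat.mod_add_div ((p * α0 + c1) / M) M'
  have e4 := Nat.mod_add_div (p * α1 + (p * α0 + c1) / M / M') M3
  have l1 := Nat.mod_lt (p * u + c0) hA0
  have l3 := Nat.mod_lt ((p * α0 + c1) / M) (show 0 < M' by omega)
  have hb : (p * u + c0) / A0 ≤ p := by
    rw [← Nat.lt_succ_iff, Nat.div_lt_iff_lt_mul hA0]
    have h5 : p * (u + 1) ≤ p * A0 := Nat.mul_le_mul_left _ hu
    have h6 : p.succ * A0 = p * A0 + A0 := Nat.succ_mul _ _
    rw [mul_add, mul_one] at h5
    omega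
  generalize (p * α1 + (p * α0 + c1) / M / M') % M3 = r1 at *
  generalize (p * α1 + (p * α0 + c1) / M / M') / M3 = γ at *
  generalize (p * α0 + c1) / M % M' = e0r at *
  generalize (p * α0 + c1) / M / M' = f1 at *
  generalize (p * α0 + c1) / M = e at *
  generalize (p * α0 + c1) % M = r0 at *
  generalize (p * u + c0) % A0 = low at *
  generalize (p * u + c0) / A0 = b at *
  have hA : low + A0 * (r0 + b) < A0 * M := by
    have h5 : A0 * (r0 + b + 1) ≤ A0 * M := Nat.mul_le_mul_left _ (by omega)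
    rw [mul_add, mul_one] at h5
    omega
  have hB : A0 * M * (p * x + (e0r + M' * r1)) < A0 * M * M' * M3 := by
    rw [mul_assoc (A0 * M)]
    apply Nat.mul_lt_mul_of_pos_left _ (Nat.mul_pos hA0 hM)
    have h5 : p * x ≤ p * M' := Nat.mul_le_mul_left _ (by omega)
    have h6 : M' * (r1 + p + 1) ≤ M' * M3 := Nat.mul_le_mul_left _ (by omega)
    have h7 : M' * (r1 + p + 1) = M' * r1 + p * M' + M' := by ring
    omega
  have hn : p * (u + A0 * (α0 + M * x + M * M' * α1) + A0 * M * M' * M3 * v) + (c0 + A0 * c1) =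
      (low + A0 * (r0 + b)) + A0 * M * ((p * x + (e0r + M' * r1)) + M' * M3 * (γ + p * v)) := by
    have : p * (u + A0 * (α0 + M * x + M * M' * α1) + A0 * M * M' * M3 * v) + (c0 + A0 * c1) =
      (p * u + c0) + A0 * (p * α0 + c1) + A0 * M * (p * x) + A0 * M * M' * (p * α1) +
        A0 * M * M' * M3 * (p * v) := by ring
    rw [this, ← e1, ← e2, ← e3]
    have h9 : f1 + p * α1 = r1 + M3 * γ := by omega
    calc low + A0 * b + A0 * (r0 + M * (e0r + M' * f1)) + A0 * M * (p * x) +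
          A0 * M * M' * (p * α1) + A0 * M * M' * M3 * (p * v) =
        low + A0 * b + A0 * r0 + A0 * M * e0r + A0 * M * (p * x) +
          A0 * M * M' * (f1 + p * α1) + A0 * M * M' * M3 * (p * v) := by ring
      _ = _ := by rw [h9]; ring
  rw [hn, D1 _ _ hA]
  have h10 : A0 * M * ((p * x + (e0r + M' * r1)) + M' * M3 * (γ + p * v)) =
      A0 * M * (p * x + (e0r + M' * r1)) + A0 * M * M' * M3 * (γ + p * v) := by ring
  rw [h10, D2 _ _ hB, add_assoc]

end GadX

open GadX in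
/-- GAD: gadgets in a window. -/
theorem gad : GAD := by
  intro p q a Λ R hp hpq ha hR1 hR L hL g hg c s
  obtain ⟨M, hM, eM⟩ := sc_quot hL s a
  obtain ⟨M', hM', eM'⟩ := sc_quot hL (s + a) Λ
  obtain ⟨M3, hM3, eM3⟩ := sc_quot hL (s + a + Λ) a
  have hA0 := sc_pos hL s
  have eW : L (s + (2 * a + Λ)) = L s * M * M' * M3 := by
    rw [← eM, ← eM', ← eM3]
    congr 1
    ring
  have hMq : 8 * q + 16 ≤ M := ha.trans hM
  have hM3q : 8 * q + 16 ≤ M3 := ha.trans hM3
  have hM'R : R ≤ M' := hR.trans hM'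
  have hc := Nat.mod_add_div c (L s)
  have hc0 := Nat.mod_lt c hA0
  obtain ⟨α0, hα0, p0, q0⟩ := pad (b := c / L s) (b' := c / L s) hp hpq hMq
  obtain ⟨α1, hα1, p1, q1⟩ := pad (b := (p * α0 + c / L s) / M / M')
    (b' := (q * α0 + c / L s) / M / M') hp hpq hM3q
  have D1 : ∀ l h, l < L s * M → g (l + L s * M * h) = g l + g (L s * M * h) := by
    intro l h hl
    rw [← eM] at hl ⊢
    exact hg _ l h hl
  have D2 : ∀ l h, l < L s * M * M' * M3 →
      g (l + L s * M * M' * M3 * h) = g l + g (L s * M * M' * M3 * h) := by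
    intro l h hl
    rw [← eW] at hl ⊢
    exact hg _ l h hl
  have hMpos : 0 < M := by omega
  have h2 : ∀ z : ZMod 2, z + z = 0 := fun z => CharTwo.add_self_eq_zero z
  refine ⟨fun x => α0 + M * x + M * M' * α1, (p * α0 + c / L s) / M % M' +
    M' * ((p * α1 + (p * α0 + c / L s) / M / M') % M3), (q * α0 + c / L s) / M % M' +
    M' * ((q * α1 + (q * α0 + c / L s) / M / M') % M3), ?_, ?_, ?_, ?_⟩
  · intro x hx
    rw [eW, show L s * M * M' * M3 = L s * (M * M' * M3) by ring]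
    apply Nat.mul_lt_mul_of_pos_left _ hA0
    have h5 : M * (x + 1) ≤ M * M' := Nat.mul_le_mul_left _ (by omega)
    rw [mul_add, mul_one] at h5
    have h6 : M * M' * α1 ≤ M * M' * 6 := Nat.mul_le_mul_left _ hα1
    have h7 : M * M' * 7 ≤ M * M' * M3 := Nat.mul_le_mul_left _ (by omega)
    show α0 + M * x + M * M' * α1 < M * M' * M3
    omega
  · intro x _ y _ hxy
    have h5 : α0 + M * x + M * M' * α1 = α0 + M * y + M * M' * α1 := hxy
    exact Nat.eq_of_mul_eq_mul_left hMpos (by omega)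
  · intro u hu v x hx
    have f1 := one (p := p) (c0 := c % L s) (c1 := c / L s) D1 D2 hM'R hA0 hMpos hc0 p0 p1 hu
      (v := v) hx
    have f2 := one (p := p) (c0 := c % L s) (c1 := c / L s) D1 D2 hM'R hA0 hMpos hc0 p0 p1 hu
      (v := v) (show 0 < R by omega)
    rw [hc, ← eW, ← eM] at f1 f2
    rw [f1, f2, mul_zero, zero_add]
    linear_combination h2 (g ((p * u + c % L s) % L s + L s * ((p * α0 + c / L s) % M +
      (p * u + c % L s) / L s))) +
      h2 (g (L (s + (2 * a + Λ)) * ((p * α1 + (p * α0 + c / L s) / M / M') / M3 + p * v)))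
  · intro u hu v x hx
    have f1 := one (p := q) (c0 := c % L s) (c1 := c / L s) D1 D2 hM'R hA0 hMpos hc0 q0 q1 hu
      (v := v) hx
    have f2 := one (p := q) (c0 := c % L s) (c1 := c / L s) D1 D2 hM'R hA0 hMpos hc0 q0 q1 hu
      (v := v) (show 0 < R by omega)
    rw [hc, ← eW, ← eM] at f1 f2
    rw [f1, f2, mul_zero, zero_add]
    linear_combination h2 (g ((q * u + c % L s) % L s + L s * ((q * α0 + c / L s) % M +
      (q * u + c % L s) / L s))) +
      h2 (g (L (s + (2 * a + Λ)) * ((q * α1 + (q * α0 + c / L s) / M / M') / M3 + q * v)))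

end Pool.Agent.N213.BM
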