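import Mathlib
import Pool.Agent.N213.BM.Stm2

/-! # Project BM, second part: BM/HYPB, mixed blocks (helper288) -/

set_option autoImplicit false

namespace Pool.Agent.N213.BM

open Finset Filter Topology

namespace HypBX

/-- a property which is inherited by `z + n i`, `i < h`, holds at least `h` times as often -/
theorem count (n h : ℕ) (P Q : ℕ → Prop) [DecidablePred P] [DecidablePred Q]
    (hPQ : ∀ i < h, ∀ z, z + 1 < n → P z → Q (z + n * i)) :
    h * ((range (n - 1)).filter P).card ≤ ((range (n * h - 1)).filter Q).card := by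
  have h1 : ((((range (n - 1)).filter P) ×ˢ range h)).card ≤ ((range (n * h - 1)).filter Q).card := by
    refine card_le_card_of_injOn (fun x : ℕ × ℕ => x.1 + n * x.2) ?_ ?_
    · rintro ⟨z, i⟩ hx
      simp only [coe_product, coe_filter, coe_range, Set.mem_prod, Set.mem_ofPred_eq,
        Set.mem_Iio, mem_range] at hx
      obtain ⟨⟨hz, hP⟩, hi⟩ := hx
      have hz' : z + 1 < n := by omega
      simp only [coe_filter, mem_range, Set.mem_ofPred_eq]
      refine ⟨?_, hPQ i hi z hz' hP⟩
      have h2 : n * i + n ≤ n * h := by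
        calc n * i + n = n * (i + 1) := by ring
          _ ≤ n * h := Nat.mul_le_mul_left n hi
      omega
    · rintro ⟨z, i⟩ hx ⟨z', i'⟩ hx' he
      simp only [coe_product, coe_filter, coe_range, Set.mem_prod, Set.mem_ofPred_eq,
        Set.mem_Iio, mem_range] at hx hx'
      have hz : z < n := by omega
      have hz' : z' < n := by omega
      have he' : z + n * i = z' + n * i' := he
      have e1 : z = z' := by
        have h3 : (z + n * i) % n = (z' + n * i') % n := by rw [he']
        rwa [Nat.add_mul_mod_self_left, Nat.add_mul_mod_self_left, Nat.mod_eq_of_lt hz,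
          Nat.mod_eq_of_lt hz'] at h3
      have hn : 0 < n := by omega
      have e2 : n * i = n * i' := by omega
      rw [Prod.mk.injEq]
      exact ⟨e1, Nat.eq_of_mul_eq_mul_left hn e2⟩
  rwa [card_product, card_range, mul_comm] at h1

theorem pos {L : ℕ → ℕ} (hL : Sc L) (j : ℕ) : 0 < L j := by
  induction j with
  | zero => rw [hL.zero]; exact one_pos
  | succ j ih =>
    obtain ⟨l, hl, e⟩ := hL.step j
    rw [e]
    positivity

end HypBX

open HypBX

theorem hypb : HYPB := by
  intro L g hL hg δ hδ hM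
  refine Or.inr (Or.inl ⟨δ, hδ, fun T => ?_⟩)
  obtain ⟨t, ht, hm1, hm2⟩ := hM T
  refine ⟨t, ht, ?_⟩
  obtain ⟨n, hn, en⟩ := hL.step t
  obtain ⟨a, ha, ea⟩ := hL.step (t + 1)
  obtain ⟨b, hb, eb⟩ := hL.step (t + 1 + 1)
  have hpos := pos hL t
  have e1 : L (t + 1) / L t = n := by
    rw [en]
    exact Nat.mul_div_cancel _ hpos
  have e3 : L (t + 3) / L t = n * (b * a) := by
    have e : L (t + 3) = n * (b * a) * L t := by
      rw [show t + 3 = t + 1 + 1 + 1 from rfl, eb, ea, en]
      ring
    rw [e]
    exact Nat.mul_div_cancel _ hpos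
  rw [e1] at hm1 hm2
  rw [e3]
  have key : ∀ i < b * a, ∀ z, z + 1 < n →
      g (L t * (z + n * i + 1)) = g (L t * (z + 1)) + g (L (t + 1) * i) ∧
      g (L t * (z + n * i)) = g (L t * z) + g (L (t + 1) * i) := by
    intro i _ z hz
    constructor
    · rw [← hg (t + 1) (L t * (z + 1)) i (by
        rw [en, mul_comm n]
        exact Nat.mul_lt_mul_of_pos_left hz hpos)]
      congr 1
      rw [en]
      ring
    · rw [← hg (t + 1) (L t * z) i (by
        rw [en, mul_comm n]
        exact Nat.mul_lt_mul_of_pos_left (by omega) hpos)]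
      congr 1
      rw [en]
      ring
  have hc : ((n * (b * a) : ℕ) : ℝ) = ((b * a : ℕ) : ℝ) * n := by push_cast; ring
  have hba : (0 : ℝ) ≤ ((b * a : ℕ) : ℝ) := Nat.cast_nonneg _
  constructor
  · have h1 := count n (b * a) (fun z => g (L t * (z + 1)) = g (L t * z))
      (fun z => g (L t * (z + 1)) = g (L t * z)) fun i hi z hz hP => by
        obtain ⟨k1, k2⟩ := key i hi z hz
        rw [k1, k2, hP]
    have h2 : ((b * a : ℕ) : ℝ) *
        (((range (n - 1)).filter (fun z => g (L t * (z + 1)) = g (L t * z))).card : ℝ) ≤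
        (((range (n * (b * a) - 1)).filter
          (fun z => g (L t * (z + 1)) = g (L t * z))).card : ℝ) := by exact_mod_cast h1
    refine le_trans ?_ h2
    rw [hc]
    calc δ * (((b * a : ℕ) : ℝ) * n) = ((b * a : ℕ) : ℝ) * (δ * n) := by ring
      _ ≤ _ := mul_le_mul_of_nonneg_left hm1 hba
  · have h1 := count n (b * a) (fun z => g (L t * (z + 1)) ≠ g (L t * z))
      (fun z => g (L t * (z + 1)) ≠ g (L t * z)) fun i hi z hz hP => by
        obtain ⟨k1, k2⟩ := key i hi z hz
        rw [k1, k2]
        exact fun h => hP (add_right_cancel h)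
    have h2 : ((b * a : ℕ) : ℝ) *
        (((range (n - 1)).filter (fun z => g (L t * (z + 1)) ≠ g (L t * z))).card : ℝ) ≤
        (((range (n * (b * a) - 1)).filter
          (fun z => g (L t * (z + 1)) ≠ g (L t * z))).card : ℝ) := by exact_mod_cast h1
    refine le_trans ?_ h2
    rw [hc]
    calc δ * (((b * a : ℕ) : ℝ) * n) = ((b * a : ℕ) : ℝ) * (δ * n) := by ring
      _ ≤ _ := mul_le_mul_of_nonneg_left hm2 hba

end Pool.Agent.N213.BM
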