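import Pool.Agent.N213.BM.Stm
import Pool.Agent.W699.TLKat

/-! # Project BM: the criterion of Katai with blocks -/

set_option autoImplicit false

namespace Pool.Agent.N213.BM

open Finset
open Pool.Agent.W208.TL (KF KAT)

theorem kf_mu : KF (fun n => ((ArithmeticFunction.moebius n : ℤ) : ℂ)) := by
  have hb : ∀ n : ℕ, ‖((ArithmeticFunction.moebius n : ℤ) : ℂ)‖ ≤ 1 := by
    intro n
    rw [Complex.norm_intCast]
    have := ArithmeticFunction.abs_moebius_le_one (n := n)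
    exact_mod_cast this
  refine ⟨hb, fun _ => -1, fun n => ((ArithmeticFunction.moebius n : ℤ) : ℂ), fun _ => by simp, hb, ?_⟩
  intro p n hp hpn
  show ((ArithmeticFunction.moebius (p * n) : ℤ) : ℂ) = -1 * ((ArithmeticFunction.moebius n : ℤ) : ℂ)
  rw [ArithmeticFunction.isMultiplicative_moebius.map_mul_of_coprime
    ((Nat.Prime.coprime_iff_not_dvd hp).2 hpn), ArithmeticFunction.moebius_apply_prime hp]
  push_cast
  ring

/-- splitting a sum into blocks -/
theorem split_blocks (F : ℕ → ℂ) (hF : ∀ n, ‖F n‖ ≤ 1) (B : ℕ) (hB : 1 ≤ B) (δ : ℝ) (hδ : 0 ≤ δ)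
    (h : ∀ t, ‖∑ x ∈ range B, F (x + B * t)‖ ≤ δ * B) (M : ℕ) :
    ‖∑ m ∈ Ioc 0 M, F m‖ ≤ δ * (M + 1) + B + 1 := by
  have h1 : ∀ T : ℕ, ‖∑ m ∈ range (B * T), F m‖ ≤ δ * (B * T) := by
    intro T
    induction T with
    | zero => simp
    | succ T ih =>
      have e : ∑ m ∈ range (B * (T + 1)), F m =
          ∑ m ∈ range (B * T), F m + ∑ x ∈ range B, F (x + B * T) := by
        rw [mul_add, mul_one, sum_range_add]
        congr 1
        exact sum_congr rfl fun x _ => by rw [add_comm]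
      rw [e]
      refine (norm_add_le _ _).trans ?_
      have := h T
      push_cast
      linarith
  have h2 : ‖∑ m ∈ range (M + 1), F m‖ ≤ δ * (M + 1) + B := by
    have e := Nat.div_add_mod (M + 1) B
    set T := (M + 1) / B
    set u := (M + 1) % B
    have hu : u < B := Nat.mod_lt _ (by omega)
    rw [← e, sum_range_add]
    refine (norm_add_le _ _).trans ?_
    have h3 : ‖∑ x ∈ range u, F (B * T + x)‖ ≤ B := by
      refine (norm_sum_le _ _).trans ?_
      refine (sum_le_card_nsmul _ _ 1 fun x _ => hF _).trans ?_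
      rw [card_range, nsmul_eq_mul, mul_one]
      exact_mod_cast hu.le
    have h4 : δ * (B * T) ≤ δ * (M + 1) := by
      apply mul_le_mul_of_nonneg_left _ hδ
      have : B * T ≤ M + 1 := by omega
      exact_mod_cast this
    have := h1 T
    linarith
  have e : ∑ m ∈ Ioc 0 M, F m = ∑ m ∈ range (M + 1), F m - F 0 := by
    rw [range_eq_Ico, sum_eq_sum_Ico_succ_bot (Nat.succ_pos M), add_sub_cancel_left]
    rfl
  rw [e]
  refine (norm_sub_le _ _).trans ?_
  have := hF 0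
  linarith

theorem kat_blocks (ε : ℝ) (hε : 0 < ε) (Kb : ℕ) : ∃ (P : Finset ℕ) (δ : ℝ) (N₀ : ℕ), 0 < δ ∧ δ < 1 ∧
    (∀ p ∈ P, p.Prime ∧ Kb < p) ∧ ∀ N, N₀ ≤ N → ∀ F : ℕ → ℂ, (∀ n, ‖F n‖ ≤ 1) →
    (∀ p ∈ P, ∀ q ∈ P, p < q → ∃ B : ℕ, 1 ≤ B ∧ (B : ℝ) ≤ δ * N ∧
      ∀ t, ‖∑ x ∈ range B, F (p * (x + B * t)) * star (F (q * (x + B * t)))‖ ≤
        δ * B) → ∀ f, KF f → ‖∑ n ∈ Ioc 0 N, f n * F n‖ ≤ ε * N := by
  obtain ⟨P, hP, δ, hδ, hδ1, N₀, h⟩ := Pool.Agent.W699.TLKat.kat ε Kb hε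
  obtain ⟨N₁, hN₁⟩ := exists_nat_ge (8 / δ)
  refine ⟨P, δ / 4, max N₀ N₁, by positivity, by linarith, hP, ?_⟩
  intro N hN F hF hyp f hf
  have hNN1 : 8 / δ ≤ N := hN₁.trans (by exact_mod_cast (le_max_right _ _).trans hN)
  rw [div_le_iff₀ hδ] at hNN1
  have hN0 : (0 : ℝ) ≤ N := Nat.cast_nonneg _
  have main : ∀ p ∈ P, ∀ q ∈ P, p < q → ∀ M : ℕ, M ≤ N →
      ‖∑ m ∈ Ioc 0 M, F (p * m) * star (F (q * m))‖ ≤ δ * N := by
    intro p hp q hq hpq M hM
    obtain ⟨B, hB1, hB2, hB3⟩ := hyp p hp q hq hpq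
    have := split_blocks (fun m => F (p * m) * star (F (q * m))) (fun n => by
      rw [norm_mul, norm_star]
      exact mul_le_one₀ (hF _) (norm_nonneg _) (hF _)) B hB1 (δ / 4) (by positivity) hB3 M
    refine this.trans ?_
    have hMr : (M : ℝ) ≤ N := by exact_mod_cast hM
    have : δ / 4 * (M + 1) ≤ δ / 4 * (N + 1) := by gcongr
    nlinarith
  refine h N ((le_max_left _ _).trans hN) F hF ?_ f hf
  intro p hp q hq hne M _ hM
  rcases lt_or_gt_of_ne hne with h1 | h1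
  · exact main p hp q hq h1 M hM
  · have e : ∑ m ∈ Ioc 0 M, F (p * m) * star (F (q * m)) =
        star (∑ m ∈ Ioc 0 M, F (q * m) * star (F (p * m))) := by
      rw [star_sum]
      refine sum_congr rfl fun m _ => ?_
      rw [star_mul, star_star]
    rw [e, norm_star]
    exact main q hq p hp h1 M hM

end Pool.Agent.N213.BM
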