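import Pool.Agent.N213.BM.Stm

/-! # Project BM: independent windows (helper896) -/

set_option autoImplicit false

namespace Pool.Agent.N213.BM

open Finset

namespace LCx

theorem sumr (A B : ℕ) (f : ℕ → ℂ) :
    ∑ x ∈ range (A * B), f x = ∑ b ∈ range B, ∑ a ∈ range A, f (a + A * b) := by
  induction B with
  | zero => simp
  | succ B ih =>
    rw [Nat.mul_succ, Finset.sum_range_add, ih, Finset.sum_range_succ]
    congr 1
    refine Finset.sum_congr rfl fun a _ => ?_
    rw [add_comm]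

theorem card_le {M R : ℕ} (p : ℕ → ℕ) (h1 : ∀ x < R, p x < M)
    (h2 : ∀ x < R, ∀ y < R, p x = p y → x = y) : R ≤ M := by
  have h := Finset.card_le_card_of_injOn (s := range R) (t := range M) p
    (fun x hx => mem_coe.2 (mem_range.2 (h1 x (mem_range.1 (mem_coe.1 hx)))))
    (fun x hx y hy hxy => h2 x (mem_range.1 (mem_coe.1 hx)) y (mem_range.1 (mem_coe.1 hy)) hxy)
  rwa [card_range, card_range] at h

theorem win {M R : ℕ} (p : ℕ → ℕ) (k : ℕ → ℂ) (θ B : ℝ) (H : ℕ → ℂ)
    (h1 : ∀ x < R, p x < M)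
    (h2 : ∀ x < R, ∀ y < R, p x = p y → x = y) (hk : ‖∑ x ∈ range R, k x‖ ≤ R - θ)
    (hB : 0 ≤ B) (hH : ∀ n, ‖H n‖ ≤ B)
    (h : ∀ x < R, H (p x) = H (p 0) * k x) :
    ‖∑ c ∈ range M, H c‖ ≤ B * (M - θ) := by
  classical
  have hcard := card_le p h1 h2
  have himg : (range R).image p ⊆ range M := by
    intro c hc
    obtain ⟨x, hx, rfl⟩ := mem_image.1 hc
    exact mem_range.2 (h1 x (mem_range.1 hx))
  have hinj : Set.InjOn p (range R : Finset ℕ) := by
    intro x hx y hy hxy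
    exact h2 x (mem_range.1 (mem_coe.1 hx)) y (mem_range.1 (mem_coe.1 hy)) hxy
  have hsplit : ∑ c ∈ range M, H c =
      ∑ c ∈ range M \ (range R).image p, H c + ∑ x ∈ range R, H (p x) := by
    rw [← Finset.sum_sdiff himg, Finset.sum_image hinj]
  have hb1 : ‖∑ x ∈ range R, H (p x)‖ ≤ B * (R - θ) := by
    rw [Finset.sum_congr rfl fun x hx => h x (mem_range.1 hx), ← Finset.mul_sum, norm_mul]
    exact mul_le_mul (hH _) hk (norm_nonneg _) hB
  have hb2 : ‖∑ c ∈ range M \ (range R).image p, H c‖ ≤ (M - R) * B := by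
    refine (norm_sum_le_of_le _ fun c _ => hH _).trans ?_
    rw [Finset.sum_const, nsmul_eq_mul, card_sdiff_of_subset himg, card_range,
      Finset.card_image_of_injOn hinj, card_range, Nat.cast_sub hcard]
  rw [hsplit]
  refine (norm_add_le _ _).trans ?_
  linarith

theorem pos {L : ℕ → ℕ} (hL : Sc L) (j : ℕ) : 0 < L j := by
  induction j with
  | zero => rw [hL.zero]; exact one_pos
  | succ j ih =>
    obtain ⟨l, hl, h⟩ := hL.step j
    rw [h]
    positivity

theorem dvd {L : ℕ → ℕ} (hL : Sc L) (j i : ℕ) : L j ∣ L (j + i) := by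
  induction i with
  | zero => exact dvd_rfl
  | succ i ih =>
    obtain ⟨l, _, h⟩ := hL.step (j + i)
    rw [← add_assoc, h]
    exact Dvd.dvd.mul_left ih l

theorem main {L : ℕ → ℕ} (hL : Sc L) (W R C : ℕ) (pat : ℕ → ℕ → ℕ) (κ : ℕ → ℕ → ℂ) (θ : ℝ)
    (F : ℕ → ℂ) (hθ : 0 ≤ θ) (hF : ∀ n, ‖F n‖ ≤ 1) (S : Finset ℕ) : ∀ S₀ t : ℕ,
    (∀ s ∈ S, ∀ s' ∈ S, s < s' → s + W ≤ s') → (∀ s ∈ S, s + W ≤ S₀) →
    (∀ s ∈ S, L (s + W) ≤ C * L s) →
    (∀ s ∈ S, ∀ x < R, L s * pat s x < L (s + W)) →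
    (∀ s ∈ S, ∀ x < R, ∀ y < R, pat s x = pat s y → x = y) →
    (∀ s ∈ S, ‖∑ x ∈ range R, κ s x‖ ≤ R - θ) →
    (∀ s ∈ S, ∀ u < L s, ∀ v, ∀ x < R, F (u + L s * pat s x + L (s + W) * v) =
      F (u + L s * pat s 0 + L (s + W) * v) * κ s x) →
    ‖∑ x ∈ range (L S₀), F (x + L S₀ * t)‖ ≤ L S₀ * (1 - θ / C) ^ S.card := by
  induction S using Finset.induction_on_max with
  | empty =>
    intro S₀ t _ _ _ _ _ _ _
    refine (norm_sum_le_of_le _ fun x _ => hF _).trans ?_
    rw [Finset.sum_const, card_range, nsmul_eq_mul, card_empty, pow_zero]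
  | insert a S ha ih =>
    intro S₀ t hsep hS0 hC hpl hpi hk h
    have hm : a ∈ insert a S := mem_insert_self a S
    have haS : a ∉ S := fun h => lt_irrefl _ (ha a h)
    have hLa := pos hL a
    obtain ⟨M, hM⟩ := dvd hL a W
    obtain ⟨k, hk0⟩ : ∃ k, L S₀ = L (a + W) * k := by
      have := dvd hL (a + W) (S₀ - (a + W))
      rwa [Nat.add_sub_cancel' (hS0 a hm)] at this
    have hMC : M ≤ C := by
      have h1 := hC a hm
      rw [hM, mul_comm C] at h1
      exact Nat.le_of_mul_le_mul_left h1 hLa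
    have hM0 : 0 < M := by
      have h1 := pos hL (a + W)
      rw [hM] at h1
      exact Nat.pos_of_mul_pos_left h1
    have hpM : ∀ x < R, pat a x < M := by
      intro x hx
      have h1 := hpl a hm x hx
      rw [hM] at h1
      exact Nat.lt_of_mul_lt_mul_left h1
    have hRM : R ≤ M := card_le (pat a) hpM (hpi a hm)
    have hMR : (0 : ℝ) < M := by exact_mod_cast hM0
    have hMCR : (M : ℝ) ≤ C := by exact_mod_cast hMC
    have hCR : (0 : ℝ) < C := lt_of_lt_of_le hMR hMCR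
    have hθR : θ ≤ R := by
      have := (norm_nonneg _).trans (hk a hm)
      linarith
    have hnn : 0 ≤ 1 - θ / C := by
      have h2 : (R : ℝ) ≤ M := by exact_mod_cast hRM
      rw [sub_nonneg, div_le_one hCR]
      linarith
    obtain ⟨D, hD⟩ : ∃ D : ℝ, D = (1 - θ / C) ^ S.card := ⟨_, rfl⟩
    have hD0 : 0 ≤ D := by rw [hD]; exact pow_nonneg hnn _
    obtain ⟨J, hJ⟩ : ∃ J : ℕ → ℂ, ∀ v, J v = ∑ u ∈ range (L a), F (u + L a * v) :=
      ⟨_, fun _ => rfl⟩
    have hJn : ∀ v, ‖J v‖ ≤ L a * D := by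
      intro v
      rw [hJ, hD]
      exact ih a v (fun s hs s' hs' => hsep s (mem_insert_of_mem hs) s' (mem_insert_of_mem hs'))
        (fun s hs => hsep s (mem_insert_of_mem hs) a hm (ha s hs))
        (fun s hs => hC s (mem_insert_of_mem hs)) (fun s hs => hpl s (mem_insert_of_mem hs))
        (fun s hs => hpi s (mem_insert_of_mem hs)) (fun s hs => hk s (mem_insert_of_mem hs))
        (fun s hs => h s (mem_insert_of_mem hs))
    have hwin : ∀ v, ‖∑ c ∈ range M, J (c + M * v)‖ ≤ L a * D * (M - θ) := by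
      intro v
      refine win (pat a) (κ a) θ (L a * D) (fun c => J (c + M * v)) hpM (hpi a hm) (hk a hm)
        (by positivity) (fun c => hJn _) ?_
      intro x hx
      show J (pat a x + M * v) = J (pat a 0 + M * v) * κ a x
      rw [hJ, hJ, Finset.sum_mul]
      refine Finset.sum_congr rfl fun u hu => ?_
      have h1 := h a hm u (mem_range.1 hu) v x hx
      rw [hM] at h1
      have e1 : u + L a * (pat a x + M * v) = u + L a * pat a x + L a * M * v := by ring
      have e2 : u + L a * (pat a 0 + M * v) = u + L a * pat a 0 + L a * M * v := by ring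
      rw [e1, e2, h1]
    have hsum : ∑ x ∈ range (L S₀), F (x + L S₀ * t) =
        ∑ b ∈ range k, ∑ c ∈ range M, J (c + M * (b + k * t)) := by
      rw [hk0, sumr]
      refine Finset.sum_congr rfl fun b _ => ?_
      rw [hM, sumr]
      refine Finset.sum_congr rfl fun c _ => ?_
      rw [hJ]
      refine Finset.sum_congr rfl fun u _ => ?_
      congr 1
      ring
    have hMθ : (M : ℝ) - θ ≤ M * (1 - θ / C) := by
      have h1 : (M : ℝ) * (θ / C) ≤ θ := by
        rw [mul_div_assoc', div_le_iff₀ hCR]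
        nlinarith
      linarith
    rw [hsum, card_insert_of_notMem haS, pow_succ, ← hD]
    calc ‖∑ b ∈ range k, ∑ c ∈ range M, J (c + M * (b + k * t))‖
        ≤ ∑ b ∈ range k, (L a * D * (M - θ) : ℝ) := norm_sum_le_of_le _ fun b _ => hwin _
      _ = k * (L a * D * (M - θ)) := by rw [Finset.sum_const, card_range, nsmul_eq_mul]
      _ ≤ k * (L a * D * (M * (1 - θ / C))) := by gcongr
      _ = L S₀ * (D * (1 - θ / C)) := by
        rw [hk0, hM]
        push_cast
        ring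

end LCx

/-- `LC` -/
theorem lc : LC := by
  intro L hL W S₀ R C S pat κ θ F t _ hθ hsep hS0 hC hpl hpi hk hF h
  exact LCx.main hL W R C pat κ θ F hθ hF S S₀ t hsep hS0 hC hpl hpi hk h

end Pool.Agent.N213.BM
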