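import Pool.Agent.N213.BM.Kat

/-! # Project BM: the main theorem -/

set_option autoImplicit false

namespace Pool.Agent.N213.BM

open Finset Filter Topology
open Pool.Agent.N213.QP (sg sg_add sg_zero sg_one norm_sg zmod2)
open Pool.Agent.W208.TL (KF KAT)

theorem Sc.quot {L : ℕ → ℕ} (hL : Sc L) (j i : ℕ) : ∃ k, 2 ^ i ≤ k ∧ L (j + i) = L j * k := by
  induction i with
  | zero => exact ⟨1, by simp, by simp⟩
  | succ i ih =>
    obtain ⟨k, hk, e⟩ := ih
    obtain ⟨l, hl, e2⟩ := hL.step (j + i)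
    refine ⟨k * l, ?_, ?_⟩
    · rw [pow_succ]; exact Nat.mul_le_mul hk hl
    · rw [← add_assoc, e2, e]; ring

theorem Sc.pos {L : ℕ → ℕ} (hL : Sc L) (j : ℕ) : 0 < L j := by
  obtain ⟨k, hk, e⟩ := hL.quot 0 j
  rw [zero_add, hL.zero, one_mul] at e
  rw [e]
  exact lt_of_lt_of_le (by positivity) hk

theorem small_quot {K : ℕ} {L : ℕ → ℕ} {s W : ℕ} (h : Small K L s W) (i : ℕ) (hi : i ≤ W) :
    L (s + i) ≤ K ^ i * L s := by
  induction i with
  | zero => simp
  | succ i ih =>
    have h1 := ih (by omega)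
    have h2 := h (s + i) (by omega) (by omega)
    calc L (s + (i + 1)) ≤ K * L (s + i) := h2
      _ ≤ K * (K ^ i * L s) := Nat.mul_le_mul_left _ h1
      _ = _ := by ring

theorem Dig.zero {L : ℕ → ℕ} (hL : Sc L) {g : ℕ → ZMod 2} (hg : Dig L g) : g 0 = 0 := by
  have := hg 0 0 0 (hL.pos 0)
  simp only [mul_zero, add_zero] at this
  linear_combination (-1 : ZMod 2) * this

theorem star_sg (x : ZMod 2) : star (sg x) = sg x := by
  rcases zmod2 x with h | h <;> rw [h]
  · rw [sg_zero]; simp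
  · rw [sg_one]; simp

theorem zsq (x : ZMod 2) : x + x = 0 := CharTwo.add_self_eq_zero x

/-- a sequence of irregular levels in good windows -/
theorem exists_windows {K : ℕ} {L : ℕ → ℕ} {g : ℕ → ZMod 2}
    (h : ∀ W T, ∃ t, T + W ≤ t ∧ Small K L (t - W) (2 * W) ∧ ¬ Reg L g t) (W T e : ℕ) (he : e ≤ W)
    (r : ℕ) : ∃ S : Finset ℕ, S.card = r ∧ (∀ s ∈ S, ∀ s' ∈ S, s < s' → s + W ≤ s') ∧
      ∀ s ∈ S, T ≤ s ∧ Small K L s W ∧ ¬ Reg L g (s + e) := by
  induction r with
  | zero => exact ⟨∅, by simp, by simp, by simp⟩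
  | succ r ih =>
    obtain ⟨S, hc, hs, hp⟩ := ih
    obtain ⟨t, h1, h2, h3⟩ := h W (T + S.sup id + W + 1)
    have hsup : ∀ s ∈ S, s ≤ S.sup id := fun s hs => le_sup (f := id) hs
    have hn : t - e ∉ S := by
      intro hm
      have := hsup _ hm
      omega
    refine ⟨insert (t - e) S, ?_, ?_, ?_⟩
    · rw [card_insert_of_notMem hn, hc]
    · intro s hs1 s' hs2 hlt
      rw [mem_insert] at hs1 hs2
      rcases hs1 with rfl | hs1
      · rcases hs2 with rfl | hs2
        · omega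
        · have := hsup _ hs2
          omega
      · rcases hs2 with rfl | hs2
        · have := hsup _ hs1
          omega
        · exact hs s hs1 s' hs2 hlt
    · intro s hs1
      rw [mem_insert] at hs1
      rcases hs1 with rfl | hs1
      · refine ⟨by omega, ?_, ?_⟩
        · intro j hj1 hj2
          exact h2 j (by omega) (by omega)
        · have : t - e + e = t := by omega
          rw [this]
          exact h3
      · exact hp s hs1

/-- a pair `p < q`: one window -/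
theorem one_window (hR : RIG) {K : ℕ} {L : ℕ → ℕ} (hL : Sc L) {g : ℕ → ZMod 2} (hg : Dig L g)
    {p q j₀ a W s R : ℕ} (hp : 1 ≤ p) (hpq : p < q) (hq : q.Prime) (hKq : K < q)
    (hj : 2 * p * q < 2 ^ j₀) (hW : a + j₀ + 2 ≤ W) (hRR : K ^ (j₀ + 2) * (q + 2) + 2 ≤ R)
    (hS : Small K L s W) (hI : ¬ Reg L g (s + (a + j₀))) (ηp ηq : ℕ) :
    ‖∑ x ∈ range R, sg ((g (L (s + a) * (p * x + ηp)) + g (L (s + a) * ηp)) +
      (g (L (s + a) * (q * x + ηq)) + g (L (s + a) * ηq)))‖ ≤ R - 2 := by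
  set f : ℕ → ZMod 2 := fun x => (g (L (s + a) * (p * x + ηp)) + g (L (s + a) * ηp)) +
      (g (L (s + a) * (q * x + ηq)) + g (L (s + a) * ηq)) with hf
  have hf0 : f 0 = 0 := by
    simp only [hf, mul_zero, zero_add]
    rw [zsq, zsq, add_zero]
  have hex : ∃ x < R, f x = 1 := by
    by_contra hno
    push Not at hno
    apply hI
    obtain ⟨m, hm, em⟩ := hL.quot (s + a) j₀
    obtain ⟨l₁, hl₁, e₁⟩ := hL.step (s + (a + j₀))
    obtain ⟨l₂, hl₂, e₂⟩ := hL.step (s + (a + j₀) + 1)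
    have hLa := hL.pos (s + a)
    have hLt := hL.pos (s + (a + j₀))
    have hLt1 := hL.pos (s + (a + j₀) + 1)
    rw [add_assoc s a j₀] at em
    have hl₁K : l₁ ≤ K := by
      have := hS (s + (a + j₀)) (by omega) (by omega)
      rw [e₁] at this
      exact Nat.le_of_mul_le_mul_right this hLt
    have hl₂K : l₂ ≤ K := by
      have := hS (s + (a + j₀) + 1) (by omega) (by omega)
      rw [e₂] at this
      exact Nat.le_of_mul_le_mul_right this hLt1
    have ee : L (s + (a + j₀) + 2) = L (s + a) * (m * (l₁ * l₂)) := by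
      show L (s + (a + j₀) + 1 + 1) = _
      rw [e₂, e₁, em]; ring
    have hmn : m * (l₁ * l₂) ≤ K ^ (j₀ + 2) := by
      have hS' : Small K L (s + a) (j₀ + 2) := by
        intro j hj1 hj2
        exact hS j (by omega) (by omega)
      have := small_quot hS' (j₀ + 2) le_rfl
      have e3 : s + a + (j₀ + 2) = s + (a + j₀) + 2 := by ring
      rw [e3, ee, mul_comm (K ^ _)] at this
      exact Nat.le_of_mul_le_mul_left this hLa
    have key := hR p q m (l₁ * l₂) R (fun z => g (L (s + a) * z)) ηp ηq hp hpq hq ?_ ?_ ?_ ?_ ?_ ?_ ?_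
    · intro d hd
      have hd1 : d ≤ l₁ := by
        rw [e₁] at hd
        exact Nat.le_of_mul_le_mul_right hd hLt
      have hd2 : d < l₁ * l₂ := by nlinarith
      have := key d hd2
      rw [em, mul_assoc]
      exact this
    · apply Nat.Coprime.mul_right
      · rw [Nat.Prime.coprime_iff_not_dvd hq]
        intro hd
        have := Nat.le_of_dvd (by omega) hd
        omega
      · rw [Nat.Prime.coprime_iff_not_dvd hq]
        intro hd
        have := Nat.le_of_dvd (by omega) hd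
        omega
    · nlinarith
    · omega
    · have := Nat.mul_le_mul_right (q + 2) hmn
      omega
    · intro l h hl
      have := hg (s + (a + j₀)) (L (s + a) * l) h (by
        rw [em]
        exact Nat.mul_lt_mul_of_pos_left hl hLa)
      show g (L (s + a) * (l + m * h)) = g (L (s + a) * l) + g (L (s + a) * (m * h))
      rw [em] at this
      rw [mul_add, ← mul_assoc (L (s + a)) m h]
      exact this
    · intro l h hl
      have := hg (s + (a + j₀) + 2) (L (s + a) * l) h (by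
        rw [ee]
        exact Nat.mul_lt_mul_of_pos_left hl hLa)
      show g (L (s + a) * (l + m * (l₁ * l₂) * h)) =
        g (L (s + a) * l) + g (L (s + a) * (m * (l₁ * l₂) * h))
      rw [ee] at this
      rw [mul_add, ← mul_assoc (L (s + a)) (m * (l₁ * l₂)) h]
      exact this
    · intro x hx
      have h1 := hno x hx
      rcases zmod2 (f x) with h2 | h2
      · simp only [hf] at h2
        have h3 := zsq (g (L (s + a) * ηp))
        have h4 := zsq (g (L (s + a) * ηq))
        show g (L (s + a) * (p * x + ηp)) + g (L (s + a) * (q * x + ηq)) =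
          g (L (s + a) * ηp) + g (L (s + a) * ηq)
        linear_combination h2 - h3 - h4
      · exact absurd h2 h1
  obtain ⟨x₁, hx₁, hfx⟩ := hex
  have hne : x₁ ≠ 0 := by
    rintro rfl
    rw [hf0] at hfx
    exact absurd hfx (by decide)
  have hR2 : 2 ≤ R := by omega
  have hsub : ({0, x₁} : Finset ℕ) ⊆ range R := by
    intro y hy
    rw [mem_insert, mem_singleton] at hy
    rw [mem_range]
    rcases hy with rfl | rfl
    · omega
    · exact hx₁
  have e : ∑ x ∈ range R, sg (f x) = ∑ x ∈ range R \ {0, x₁}, sg (f x) := by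
    rw [← sum_sdiff hsub, sum_pair (Ne.symm hne), hf0, hfx, sg_zero, sg_one]
    ring
  show ‖∑ x ∈ range R, sg (f x)‖ ≤ R - 2
  rw [e]
  refine (norm_sum_le _ _).trans ?_
  refine (sum_le_card_nsmul _ _ 1 fun x _ => (norm_sg _).le).trans ?_
  rw [card_sdiff_of_subset hsub, card_range, card_pair (Ne.symm hne), nsmul_eq_mul, mul_one]
  push_cast [hR2]
  exact le_rfl

theorem per_mul {L : ℕ → ℕ} {T : ℕ} {ψ : ℕ → ℂ} (hψ : ∀ n, ψ (n + L T) = ψ n) (n k : ℕ) :
    ψ (n + L T * k) = ψ n := by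
  induction k with
  | zero => simp
  | succ k ih =>
    have : n + L T * (k + 1) = n + L T * k + L T := by ring
    rw [this, hψ, ih]

/-- a pair `p < q`: blocks -/
theorem pair_block (hR : RIG) (hG : GAD) (hC : LC) {K : ℕ} {L : ℕ → ℕ} (hL : Sc L) {g : ℕ → ZMod 2}
    (hg : Dig L g) (hirr : ∀ W T, ∃ t, T + W ≤ t ∧ Small K L (t - W) (2 * W) ∧ ¬ Reg L g t)
    (T : ℕ) (ψ : ℕ → ℂ) (hψ : ∀ n, ψ (n + L T) = ψ n) (hψ1 : ∀ n, ‖ψ n‖ ≤ 1)
    (p q : ℕ) (hp : 1 ≤ p) (hpq : p < q) (hq : q.Prime) (hKq : K < q) (δ : ℝ) (hδ : 0 < δ) :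
    ∃ S₀ : ℕ, ∀ c t : ℕ, ‖∑ x ∈ range (L S₀),
      (ψ (p * (x + L S₀ * t) + c) * sg (g (p * (x + L S₀ * t) + c))) *
      star (ψ (q * (x + L S₀ * t) + c) * sg (g (q * (x + L S₀ * t) + c)))‖ ≤ δ * L S₀ := by
  set j₀ := 2 * p * q with hj₀
  set a := 8 * q + 16 with ha
  set R := K ^ (j₀ + 2) * (q + 2) + 2 with hRd
  set Λ := R + j₀ + 2 with hΛ
  set W := 2 * a + Λ with hWd
  have hj : 2 * p * q < 2 ^ j₀ := Nat.lt_two_pow_self
  have ha2 : 8 * q + 16 ≤ 2 ^ a := (Nat.lt_two_pow_self (n := a)).le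
  have hRΛ : R ≤ 2 ^ Λ := le_trans (by omega) (Nat.lt_two_pow_self (n := Λ)).le
  -- K ≥ 2
  have hK2 : 2 ≤ K := by
    obtain ⟨t, h1, h2, _⟩ := hirr 1 0
    obtain ⟨l, hl, e⟩ := hL.step t
    have := h2 t (by omega) (by omega)
    rw [e] at this
    have := Nat.le_of_mul_le_mul_right this (hL.pos t)
    omega
  set C := K ^ W with hCd
  have hC2 : 2 ≤ C := by
    calc 2 ≤ 2 ^ W := by
          calc 2 = 2 ^ 1 := by norm_num
            _ ≤ 2 ^ W := Nat.pow_le_pow_right (by norm_num) (by omega)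
      _ ≤ K ^ W := Nat.pow_le_pow_left hK2 _
  have hCr : (2 : ℝ) ≤ C := by exact_mod_cast hC2
  have hρ1 : (1 : ℝ) - 2 / C < 1 := by
    have : (0 : ℝ) < 2 / C := by positivity
    linarith
  obtain ⟨r, hr⟩ := exists_pow_lt_of_lt_one hδ hρ1
  obtain ⟨S, hSc, hSs, hSp⟩ := exists_windows hirr W T (a + j₀) (by omega) r
  refine ⟨S.sup id + W, fun c t => ?_⟩
  set S₀ := S.sup id + W with hS₀
  have hgad := hG p q a Λ R hp hpq.le ha2 (by omega) hRΛ L hL g hg c
  choose pat ηp ηq h1 h2 h3 h4 using hgad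
  set κ : ℕ → ℕ → ℂ := fun s x => sg ((g (L (s + a) * (p * x + ηp s)) + g (L (s + a) * ηp s)) +
      (g (L (s + a) * (q * x + ηq s)) + g (L (s + a) * ηq s))) with hκ
  have key := hC L hL W S₀ R C S pat κ 2 (fun n => (ψ (p * n + c) * sg (g (p * n + c))) *
      star (ψ (q * n + c) * sg (g (q * n + c)))) t (by omega) (by norm_num) hSs ?_ ?_ ?_ ?_ ?_ ?_ ?_
  · refine key.trans ?_
    rw [hSc, mul_comm]
    exact mul_le_mul_of_nonneg_right hr.le (Nat.cast_nonneg _)
  · intro s hs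
    have := le_sup (f := id) hs
    simp only [id] at this
    omega
  · intro s hs
    exact small_quot (hSp s hs).2.1 W le_rfl
  · intro s _ x hx
    exact h1 s x hx
  · intro s _ x hx y hy
    exact h2 s x hx y hy
  · intro s hs
    exact one_window hR hL hg hp hpq hq hKq hj (by omega) le_rfl (hSp s hs).2.1 (hSp s hs).2.2 _ _
  · intro n
    show ‖(ψ (p * n + c) * sg (g (p * n + c))) * star (ψ (q * n + c) * sg (g (q * n + c)))‖ ≤ 1
    rw [norm_mul, norm_star, norm_mul, norm_mul, norm_sg, norm_sg, mul_one, mul_one]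
    exact mul_le_one₀ (hψ1 _) (norm_nonneg _) (hψ1 _)
  · intro s hs u hu v x hx
    obtain ⟨k, _, ek⟩ : ∃ k, 0 ≤ k ∧ L s = L T * k := by
      obtain ⟨k, _, ek⟩ := hL.quot T (s - T)
      have : T + (s - T) = s := by have := (hSp s hs).1; omega
      rw [this] at ek
      exact ⟨k, Nat.zero_le _, ek⟩
    have hper : ∀ b y : ℕ, ψ (b * (u + L s * pat s y + L (s + W) * v) + c) =
        ψ (b * (u + L (s + W) * v) + c) := by
      intro b y
      have : b * (u + L s * pat s y + L (s + W) * v) + c =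
          b * (u + L (s + W) * v) + c + L T * (k * (b * pat s y)) := by
        rw [ek]; ring
      rw [this, per_mul hψ]
    have e3 := h3 s u hu v x hx
    have e4 := h4 s u hu v x hx
    show (ψ (p * (u + L s * pat s x + L (s + W) * v) + c) *
        sg (g (p * (u + L s * pat s x + L (s + W) * v) + c))) *
      star (ψ (q * (u + L s * pat s x + L (s + W) * v) + c) *
        sg (g (q * (u + L s * pat s x + L (s + W) * v) + c))) =
      (ψ (p * (u + L s * pat s 0 + L (s + W) * v) + c) *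
        sg (g (p * (u + L s * pat s 0 + L (s + W) * v) + c))) *
      star (ψ (q * (u + L s * pat s 0 + L (s + W) * v) + c) *
        sg (g (q * (u + L s * pat s 0 + L (s + W) * v) + c))) * κ s x
    have e5 : g (p * (u + L s * pat s x + L (s + W) * v) + c) +
        g (q * (u + L s * pat s x + L (s + W) * v) + c) =
        (g (p * (u + L s * pat s 0 + L (s + W) * v) + c) +
        g (q * (u + L s * pat s 0 + L (s + W) * v) + c)) +
        ((g (L (s + a) * (p * x + ηp s)) + g (L (s + a) * ηp s)) +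
      (g (L (s + a) * (q * x + ηq s)) + g (L (s + a) * ηq s))) := by
      have z1 := zsq (g (p * (u + L s * pat s 0 + L (s + W) * v) + c))
      have z2 := zsq (g (q * (u + L s * pat s 0 + L (s + W) * v) + c))
      rw [hWd] at z1 z2 ⊢
      linear_combination e3 + e4 - z1 - z2
    have e6 := congrArg sg e5
    rw [sg_add, sg_add (_ + _) (_ + _), sg_add (g (p * (u + L s * pat s 0 + L (s + W) * v) + c))] at e6
    rw [star_mul, star_mul, star_sg, star_sg, hper p x, hper q x, hper p 0, hper q 0]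
    simp only [hκ]
    linear_combination (ψ (p * (u + L (s + W) * v) + c) * star (ψ (q * (u + L (s + W) * v) + c))) * e6

theorem reg_lin {L : ℕ → ℕ} (hL : Sc L) {g : ℕ → ZMod 2} (hg : Dig L g) {T : ℕ}
    (h : ∀ t, T ≤ t → Reg L g t) : ∀ n t, T ≤ t → g (L t * n) = (n : ZMod 2) * g (L t) := by
  intro n
  induction n using Nat.strong_induction_on with
  | _ n ih =>
    intro t ht
    by_cases hn : n * L t ≤ L (t + 1)
    · exact h t ht n hn
    · obtain ⟨l, hl, e⟩ := hL.step t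
      have hlt := hL.pos t
      have hln : l < n := by
        rw [e] at hn
        by_contra h'
        exact hn (Nat.mul_le_mul_right _ (by omega))
      have hdm := Nat.mod_add_div n l
      have hmod : n % l < l := Nat.mod_lt _ (by omega)
      have hdiv : n / l < n := Nat.div_lt_self (by omega) (by omega)
      have e1 : L t * n = L t * (n % l) + L (t + 1) * (n / l) := by
        conv_lhs => rw [← hdm]
        rw [e]; ring
      have e2 := hg (t + 1) (L t * (n % l)) (n / l) (by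
        rw [e, mul_comm l]
        exact Nat.mul_lt_mul_of_pos_left hmod hlt)
      have e3 := ih (n % l) (by omega) t ht
      have e4 := ih (n / l) hdiv (t + 1) (by omega)
      have e5 := h t ht l (by rw [e])
      have e6 : L t * l = L (t + 1) := by rw [e]; ring
      rw [e6] at e5
      rw [e1, e2, e3, e4, e5]
      have e7 : (n : ZMod 2) = (n % l : ℕ) + (l : ZMod 2) * (n / l : ℕ) := by
        conv_lhs => rw [← hdm]
        push_cast
        ring
      rw [e7]
      ring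

theorem main_reg (hPER : PER) {L : ℕ → ℕ} (hL : Sc L) {g : ℕ → ZMod 2} (hg : Dig L g) {T₀ : ℕ}
    (h : ∀ t, T₀ ≤ t → Reg L g t) (T : ℕ) (ψ : ℕ → ℂ) (hψ : ∀ n, ψ (n + L T) = ψ n)
    (hψ1 : ∀ n, ‖ψ n‖ ≤ 1) (ε : ℝ) (hε : 0 < ε) : ∃ N₀ : ℕ, ∀ N : ℕ, N₀ ≤ N →
  ∀ c : ℕ, ‖∑ n ∈ Ioc 0 N, ((ArithmeticFunction.moebius n : ℤ) : ℂ) *
    (ψ (n + c) * sg (g (n + c)))‖ ≤ ε * N := by
  set T₁ := max T T₀ with hT₁
  have hL1 := hL.pos T₁
  obtain ⟨k, _, ek⟩ : ∃ k, 0 ≤ k ∧ L T₁ = L T * k := by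
    obtain ⟨k, _, ek⟩ := hL.quot T (T₁ - T)
    have : T + (T₁ - T) = T₁ := by have := le_max_left T T₀; omega
    rw [this] at ek
    exact ⟨k, Nat.zero_le _, ek⟩
  have hlin := reg_lin hL hg h
  have hper : ∀ n, g (n + 2 * L T₁) = g n := by
    intro n
    have hdm := Nat.mod_add_div n (L T₁)
    have hmod : n % L T₁ < L T₁ := Nat.mod_lt _ hL1
    have e1 : g n = g (n % L T₁) + ((n / L T₁ : ℕ) : ZMod 2) * g (L T₁) := by
      conv_lhs => rw [← hdm]
      rw [hg T₁ _ _ hmod, hlin _ T₁ (le_max_right _ _)]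
    have e2 : g (n + 2 * L T₁) = g (n % L T₁) + ((n / L T₁ + 2 : ℕ) : ZMod 2) * g (L T₁) := by
      have : n + 2 * L T₁ = n % L T₁ + L T₁ * (n / L T₁ + 2) := by
        conv_lhs => rw [← hdm]
        ring
      rw [this, hg T₁ _ _ hmod, hlin _ T₁ (le_max_right _ _)]
    rw [e1, e2]
    push_cast
    have : (2 : ZMod 2) = 0 := by decide
    rw [this]
    ring
  obtain ⟨N₀, h0⟩ := hPER (2 * L T₁) (by omega) ε hε
  refine ⟨N₀, fun N hN c => ?_⟩
  refine h0 N hN (fun n => ψ (n + c) * sg (g (n + c))) ?_ ?_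
  · intro n
    have e1 : n + 2 * L T₁ + c = n + c + 2 * L T₁ := by ring
    show ψ (n + 2 * L T₁ + c) * sg (g (n + 2 * L T₁ + c)) = ψ (n + c) * sg (g (n + c))
    rw [e1, hper]
    have e2 : n + c + 2 * L T₁ = n + c + L T * (k * 2) := by rw [ek]; ring
    rw [e2, per_mul hψ]
  · intro n
    rw [norm_mul, norm_sg, mul_one]
    exact hψ1 _

theorem main (hPER : PER) (hR : RIG) (hG : GAD) (hC : LC) : MAIN := by
  intro L g hL hg hH T ψ hψ hψ1 ε hε
  rcases hH with ⟨T₀, h⟩ | ⟨K, hirr⟩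
  · exact main_reg hPER hL hg h T ψ hψ hψ1 ε hε
  · obtain ⟨P, δ, N₁, hδ, hδ1, hP, hkat⟩ := kat_blocks ε hε (K + 2)
    have hpb : ∀ p q : ℕ, 1 ≤ p ∧ p < q ∧ q.Prime ∧ K < q → ∃ S₀ : ℕ, ∀ c t : ℕ,
      ‖∑ x ∈ range (L S₀),
      (ψ (p * (x + L S₀ * t) + c) * sg (g (p * (x + L S₀ * t) + c))) *
      star (ψ (q * (x + L S₀ * t) + c) * sg (g (q * (x + L S₀ * t) + c)))‖ ≤ δ * L S₀ :=
      fun p q h => pair_block hR hG hC hL hg hirr T ψ hψ hψ1 p q h.1 h.2.1 h.2.2.1 h.2.2.2 δ hδ
    choose! Sf hSf using hpb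
    set M := ∑ p ∈ P, ∑ q ∈ P, L (Sf p q) with hM
    obtain ⟨N₂, hN₂⟩ := exists_nat_ge ((M : ℝ) / δ)
    refine ⟨max N₁ N₂, fun N hN c => ?_⟩
    refine hkat N ((le_max_left _ _).trans hN) (fun n => ψ (n + c) * sg (g (n + c))) ?_ ?_ _ kf_mu
    · intro n
      rw [norm_mul, norm_sg, mul_one]
      exact hψ1 _
    · intro p hp q hq hpq
      obtain ⟨hq1, hq2⟩ := hP q hq
      obtain ⟨hp1, hp2⟩ := hP p hp
      refine ⟨L (Sf p q), hL.pos _, ?_, fun t => ?_⟩
      · have h1 : L (Sf p q) ≤ M := by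
          calc L (Sf p q) ≤ ∑ q ∈ P, L (Sf p q) :=
                single_le_sum (f := fun q => L (Sf p q)) (fun _ _ => Nat.zero_le _) hq
            _ ≤ _ := single_le_sum (f := fun p => ∑ q ∈ P, L (Sf p q)) (fun _ _ => Nat.zero_le _) hp
        have h2 : (M : ℝ) ≤ δ * N := by
          have h3 : (M : ℝ) / δ ≤ N := hN₂.trans (by exact_mod_cast (le_max_right _ _).trans hN)
          rw [div_le_iff₀ hδ] at h3
          linarith
        have h3 : (L (Sf p q) : ℝ) ≤ M := by exact_mod_cast h1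
        linarith
      · exact hSf p q ⟨by omega, hpq, hq1, by omega⟩ c t

end Pool.Agent.N213.BM
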