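import Pool.Agent.N213.BM.Stm2
import Pool.Agent.N213.BM.Main

/-! # Project BM: the main theorem for blocks of unbounded length -/

set_option autoImplicit false

namespace Pool.Agent.N213.BM

open Finset Filter Topology
open Pool.Agent.N213.QP (sg sg_add sg_zero sg_one norm_sg zmod2)
open Pool.Agent.W208.TL (KF KAT)

/-- averages over blocks of length `L j` are at most `τ` -/
def Dec (L : ℕ → ℕ) (F : ℕ → ℂ) (j : ℕ) (τ : ℝ) : Prop :=
  ∀ t : ℕ, ‖∑ x ∈ range (L j), F (x + L j * t)‖ ≤ τ * L j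

theorem sum_blocks (a k : ℕ) (F : ℕ → ℂ) (t : ℕ) : ∑ x ∈ range (a * k), F (x + a * k * t) =
    ∑ i ∈ range k, ∑ x ∈ range a, F (x + a * (i + k * t)) := by
  have h : ∀ k₁ : ℕ, ∑ x ∈ range (a * k₁), F (x + a * k * t) =
      ∑ i ∈ range k₁, ∑ x ∈ range a, F (x + a * (i + k * t)) := by
    intro k₁
    induction k₁ with
    | zero => simp
    | succ k₁ ih =>
      rw [mul_add, mul_one, sum_range_add, ih, sum_range_succ]
      congr 1
      refine sum_congr rfl fun x _ => ?_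
      congr 1
      ring
  exact h k

theorem Dec.mono {L : ℕ → ℕ} (hL : Sc L) {F : ℕ → ℂ} {j j' : ℕ} {τ : ℝ} (h : Dec L F j τ)
    (hj : j ≤ j') : Dec L F j' τ := by
  intro t
  obtain ⟨k, _, e⟩ := hL.quot j (j' - j)
  have e' : j + (j' - j) = j' := by omega
  rw [e'] at e
  rw [e, sum_blocks]
  calc ‖∑ i ∈ range k, ∑ x ∈ range (L j), F (x + L j * (i + k * t))‖
      ≤ ∑ i ∈ range k, τ * L j := norm_sum_le_of_le _ fun i _ => h _
    _ = τ * ((L j * k : ℕ) : ℝ) := by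
        rw [sum_const, card_range, nsmul_eq_mul]; push_cast; ring

/-- a window -/
def Win (L : ℕ → ℕ) (g : ℕ → ZMod 2) (p q T : ℕ) (η : ℝ) (S₀ : ℕ) : Prop :=
  ∃ lo mid hi M R : ℕ, S₀ ≤ lo ∧ T ≤ mid ∧ lo ≤ mid ∧ L mid = L lo * M ∧ L hi = L mid * R ∧
    8 * (q + 1) ≤ M ∧
    ∀ ep eq : ℕ, ‖∑ x ∈ range R, sg (g (L mid * (p * x + ep)) + g (L mid * (q * x + eq)))‖ ≤
      (1 - η) * R

theorem window (hG : GAD2) (hS : STEP) {L : ℕ → ℕ} (hL : Sc L) {g : ℕ → ZMod 2} (hg : Dig L g)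
    {p q T : ℕ} (hp : 1 ≤ p) (hpq : p ≤ q) {η : ℝ} (hη : 0 ≤ η) (hη1 : η ≤ 1)
    {ψ : ℕ → ℂ} (hψ : ∀ n, ψ (n + L T) = ψ n) {S₀ : ℕ} (hW : Win L g p q T η S₀) {τ : ℝ}
    (hτ : 0 ≤ τ) : ∃ S₁ : ℕ, ∀ c : ℕ,
    Dec L (fun n => (ψ (p * n + c) * sg (g (p * n + c))) * star (ψ (q * n + c) * sg (g (q * n + c))))
      S₀ τ →
    Dec L (fun n => (ψ (p * n + c) * sg (g (p * n + c))) * star (ψ (q * n + c) * sg (g (q * n + c))))
      S₁ (τ * (1 - η / 2)) := by
  obtain ⟨lo, mid, hi, M, R, h1, h2, h3, h4, h5, h6, h7⟩ := hW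
  refine ⟨hi, fun c hD => ?_⟩
  have hD' := hD.mono hL h1
  obtain ⟨A, hA1, hA2, hA3⟩ := hG L hL g hg p q c lo mid M hp hpq h3 h4 h6
  obtain ⟨k, _, ek⟩ : ∃ k, 0 ≤ k ∧ L mid = L T * k := by
    obtain ⟨k, _, ek⟩ := hL.quot T (mid - T)
    have : T + (mid - T) = mid := by omega
    rw [this] at ek
    exact ⟨k, Nat.zero_le _, ek⟩
  have key := hS (L lo) M R (fun n => (ψ (p * n + c) * sg (g (p * n + c))) *
    star (ψ (q * n + c) * sg (g (q * n + c)))) η τ A hη hη1 hτ hD' hA1 hA2 ?_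
  · intro v
    have := key v
    rw [← h4, ← h5] at this
    exact this
  · intro α hα v
    obtain ⟨ep, eq, K, hK⟩ := hA3 α hα
    refine ⟨fun x => sg (g (L mid * (p * (x + R * v) + ep)) + g (L mid * (q * (x + R * v) + eq))) *
      sg (g (L mid * (p * (R * v) + ep)) + g (L mid * (q * (R * v) + eq))), ?_, ?_⟩
    · intro u hu x _
      have e1 : u + L lo * α + L lo * M * x + L lo * M * R * v =
          u + L lo * α + L mid * (x + R * v) := by rw [h4]; ring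
      have e2 : u + L lo * α + L lo * M * R * v = u + L lo * α + L mid * (R * v) := by rw [h4]; ring
      have hper : ∀ b X : ℕ, ψ (b * (u + L lo * α + L mid * X) + c) = ψ (b * (u + L lo * α) + c) := by
        intro b X
        have : b * (u + L lo * α + L mid * X) + c = b * (u + L lo * α) + c + L T * (k * (b * X)) := by
          rw [ek]; ring
        rw [this, per_mul hψ]
      have k1 := congrArg sg (hK u hu (x + R * v))
      have k2 := congrArg sg (hK u hu (R * v))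
      rw [sg_add, sg_add (K u)] at k1 k2
      rw [e1, e2]
      simp only []
      rw [star_mul, star_mul, star_sg, star_sg, hper p (x + R * v), hper q (x + R * v),
        hper p (R * v), hper q (R * v)]
      have hsq : ∀ z : ZMod 2, sg z * sg z = 1 := by
        intro z
        rw [← sg_add, zsq, sg_zero]
      have k3 := hsq (g (L mid * (p * (R * v) + ep)) + g (L mid * (q * (R * v) + eq)))
      set a1 := sg (g (p * (u + L lo * α + L mid * (x + R * v)) + c))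
      set a2 := sg (g (q * (u + L lo * α + L mid * (x + R * v)) + c))
      set b1 := sg (g (p * (u + L lo * α + L mid * (R * v)) + c))
      set b2 := sg (g (q * (u + L lo * α + L mid * (R * v)) + c))
      set z1 := sg (g (L mid * (p * (x + R * v) + ep)) + g (L mid * (q * (x + R * v) + eq)))
      set z2 := sg (g (L mid * (p * (R * v) + ep)) + g (L mid * (q * (R * v) + eq)))
      set y1 := ψ (p * (u + L lo * α) + c)
      set y2 := star (ψ (q * (u + L lo * α) + c))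
      calc y1 * a1 * (a2 * y2) = y1 * y2 * (a1 * a2) := by ring
        _ = y1 * y2 * (sg (K u) * z1) := by rw [k1]
        _ = y1 * y2 * (sg (K u) * (z1 * (z2 * z2))) := by rw [k3, mul_one]
        _ = y1 * y2 * (sg (K u) * z2) * (z1 * z2) := by ring
        _ = y1 * y2 * (b1 * b2) * (z1 * z2) := by rw [k2]
        _ = y1 * b1 * (b2 * y2) * (z1 * z2) := by ring
    · rw [← sum_mul, norm_mul, norm_sg, mul_one]
      have := h7 (p * (R * v) + ep) (q * (R * v) + eq)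
      have e : ∑ x ∈ range R, sg (g (L mid * (p * (x + R * v) + ep)) +
          g (L mid * (q * (x + R * v) + eq))) =
          ∑ x ∈ range R, sg (g (L mid * (p * x + (p * (R * v) + ep))) +
          g (L mid * (q * x + (q * (R * v) + eq)))) := by
        refine sum_congr rfl fun x _ => ?_
        congr 3
        · congr 1; ring
        · congr 1; ring
      rw [e]
      exact this

theorem pair_iter (hG : GAD2) (hS : STEP) {L : ℕ → ℕ} (hL : Sc L) {g : ℕ → ZMod 2} (hg : Dig L g)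
    {p q T : ℕ} (hp : 1 ≤ p) (hpq : p ≤ q) {η : ℝ} (hη : 0 < η) (hη1 : η ≤ 1)
    {ψ : ℕ → ℂ} (hψ : ∀ n, ψ (n + L T) = ψ n) (hψ1 : ∀ n, ‖ψ n‖ ≤ 1)
    (hW : ∀ S₀, Win L g p q T η S₀) (δ : ℝ) (hδ : 0 < δ) :
    ∃ S₀ : ℕ, ∀ c t : ℕ, ‖∑ x ∈ range (L S₀),
      (ψ (p * (x + L S₀ * t) + c) * sg (g (p * (x + L S₀ * t) + c))) *
      star (ψ (q * (x + L S₀ * t) + c) * sg (g (q * (x + L S₀ * t) + c)))‖ ≤ δ * L S₀ := by
  have main : ∀ r : ℕ, ∃ S₀ : ℕ, ∀ c : ℕ, Dec L (fun n => (ψ (p * n + c) * sg (g (p * n + c))) *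
      star (ψ (q * n + c) * sg (g (q * n + c)))) S₀ ((1 - η / 2) ^ r) := by
    intro r
    induction r with
    | zero =>
      refine ⟨0, fun c t => ?_⟩
      rw [hL.zero, pow_zero, sum_range_one]
      rw [norm_mul, norm_star, norm_mul, norm_mul, norm_sg, norm_sg, mul_one, mul_one]
      push_cast
      rw [mul_one]
      exact mul_le_one₀ (hψ1 _) (norm_nonneg _) (hψ1 _)
    | succ r ih =>
      obtain ⟨S₀, h⟩ := ih
      obtain ⟨S₁, h1⟩ := window hG hS hL hg hp hpq hη.le hη1 hψ (hW S₀)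
        (τ := (1 - η / 2) ^ r) (by apply pow_nonneg; linarith)
      refine ⟨S₁, fun c => ?_⟩
      rw [pow_succ]
      exact h1 c (h c)
  obtain ⟨r, hr⟩ := exists_pow_lt_of_lt_one hδ (show 1 - η / 2 < 1 by linarith)
  obtain ⟨S₀, h⟩ := main r
  exact ⟨S₀, fun c t => (h c t).trans (mul_le_mul_of_nonneg_right hr.le (Nat.cast_nonneg _))⟩

theorem Sc.quot' {L : ℕ → ℕ} (hL : Sc L) {j j' : ℕ} (h : j ≤ j') :
    ∃ k, 2 ^ (j' - j) ≤ k ∧ L j' = L j * k := by
  obtain ⟨k, hk, e⟩ := hL.quot j (j' - j)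
  have e' : j + (j' - j) = j' := by omega
  rw [e'] at e
  exact ⟨k, hk, e⟩

theorem win_mix (hR : RIGA) {L : ℕ → ℕ} (hL : Sc L) {g : ℕ → ZMod 2} (hg : Dig L g) {δ : ℝ}
    (hδ : 0 < δ) (hM : ∀ T, ∃ t, T ≤ t ∧ Mixed δ g (L t) (L (t + 3) / L t)) (T : ℕ)
    {p q : ℕ} (hp : p.Prime) (hq : q.Prime) (hpq : p ≠ q) (hp3 : 3 ≤ p) (hq3 : 3 ≤ q)
    (h2 : 2 ≤ δ * (p * q)) : ∃ η : ℝ, 0 < η ∧ η ≤ 1 ∧ ∀ S₀, Win L g p q T η S₀ := by
  obtain ⟨η, D, hη, hη1, hRA⟩ := hR p q δ hp hq hpq hp3 hq3 hδ h2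
  refine ⟨η, hη, hη1, fun S₀ => ?_⟩
  obtain ⟨t, ht, hmix⟩ := hM (S₀ + T + (8 * (q + 1)) + D)
  set mid := S₀ + T + 8 * (q + 1) with hmid
  have hpow : ∀ n : ℕ, n ≤ 2 ^ n := fun n => (Nat.lt_two_pow_self (n := n)).le
  obtain ⟨M, hM1, eM⟩ := hL.quot' (j := S₀) (j' := mid) (by omega)
  obtain ⟨m, hm1, em⟩ := hL.quot' (j := mid) (j' := t) (by omega)
  obtain ⟨n, hn1, en⟩ := hL.quot' (j := t) (j' := t + 3) (by omega)
  obtain ⟨N, hN1, eN⟩ := hL.quot' (j := t + 3) (j' := t + 3 + D) (by omega)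
  have hLt := hL.pos t
  have hLm := hL.pos mid
  have hn : L (t + 3) / L t = n := by rw [en]; exact Nat.mul_div_cancel_left _ hLt
  rw [hn] at hmix
  have hm : D ≤ m := (hpow D).trans ((Nat.pow_le_pow_right (by norm_num) (by omega)).trans hm1)
  have hN : D ≤ N := (hpow D).trans ((Nat.pow_le_pow_right (by norm_num) (by omega)).trans hN1)
  have hn1' : 1 ≤ n := le_trans Nat.one_le_two_pow hn1
  refine ⟨S₀, mid, t + 3 + D, M, m * n * N, le_rfl, by omega, by omega, eM, ?_, ?_, ?_⟩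
  · rw [eN, en, em]; ring
  · exact (hpow _).trans ((Nat.pow_le_pow_right (by norm_num) (by omega)).trans hM1)
  · refine hRA m n N (fun k => g (L mid * k)) hm hn1' hN ?_ ?_ ?_
    · intro l h hl
      have := hg t (L mid * l) h (by rw [em]; exact Nat.mul_lt_mul_of_pos_left hl hLm)
      show g (L mid * (l + m * h)) = g (L mid * l) + g (L mid * (m * h))
      rw [em] at this
      rw [mul_add, ← mul_assoc (L mid) m h]
      exact this
    · intro l h hl
      have e3 : L (t + 3) = L mid * (m * n) := by rw [en, em]; ring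
      have := hg (t + 3) (L mid * l) h (by rw [e3]; exact Nat.mul_lt_mul_of_pos_left hl hLm)
      show g (L mid * (l + m * n * h)) = g (L mid * l) + g (L mid * (m * n * h))
      rw [e3] at this
      rw [mul_add, ← mul_assoc (L mid) (m * n) h]
      exact this
    · unfold Mixed at hmix ⊢
      have e : ∀ z, g (L mid * (m * z)) = g (L t * z) := by
        intro z; rw [em, mul_assoc]
      simp only [e]
      exact hmix

theorem win_jun (hR : RIGJ) {L : ℕ → ℕ} (hL : Sc L) {g : ℕ → ZMod 2} (hg : Dig L g) {δ : ℝ}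
    (hδ : 0 < δ) (hM : ∀ T, ∃ t, T ≤ t ∧ T * L t ≤ L (t + 1) ∧ Jun δ L g t) (T : ℕ)
    {p q : ℕ} (hp : p.Prime) (hq : q.Prime) (hpq : p ≠ q) (hp3 : 3 ≤ p) (hq3 : 3 ≤ q)
    (h2 : 2 ≤ δ * (p * q)) : ∃ η : ℝ, 0 < η ∧ η ≤ 1 ∧ ∀ S₀, Win L g p q T η S₀ := by
  obtain ⟨η, D, hη, hη1, hRJ⟩ := hR p q δ hp hq hpq hp3 hq3 hδ h2
  refine ⟨η, hη, hη1, fun S₀ => ?_⟩
  obtain ⟨t, ht, hbig, hlin, hjun⟩ := hM (S₀ + T + (8 * (q + 1)) + D)
  have hpow : ∀ n : ℕ, n ≤ 2 ^ n := fun n => (Nat.lt_two_pow_self (n := n)).le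
  obtain ⟨M, hM1, eM⟩ := hL.quot' (j := t - 8 * (q + 1)) (j' := t) (by omega)
  obtain ⟨m, hm1, em⟩ := hL.quot' (j := t) (j' := t + 1) (by omega)
  obtain ⟨n, hn1, en⟩ := hL.quot' (j := t + 1) (j' := t + 3) (by omega)
  obtain ⟨N, hN1, eN⟩ := hL.quot' (j := t + 3) (j' := t + 3 + D) (by omega)
  have hLt := hL.pos t
  have hLt1 := hL.pos (t + 1)
  have hm' : L (t + 1) / L t = m := by rw [em]; exact Nat.mul_div_cancel_left _ hLt
  have hn' : L (t + 3) / L (t + 1) = n := by rw [en]; exact Nat.mul_div_cancel_left _ hLt1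
  rw [hm', hn'] at hjun
  have hm : D ≤ m := by
    rw [em, mul_comm (L t)] at hbig
    have := Nat.le_of_mul_le_mul_right hbig hLt
    omega
  have hN : D ≤ N := (hpow D).trans ((Nat.pow_le_pow_right (by norm_num) (by omega)).trans hN1)
  have hn1' : 1 ≤ n := le_trans Nat.one_le_two_pow hn1
  refine ⟨t - 8 * (q + 1), t, t + 3 + D, M, m * n * N, by omega, by omega, by omega, eM, ?_, ?_, ?_⟩
  · rw [eN, en, em]; ring
  · exact (hpow _).trans ((Nat.pow_le_pow_right (by norm_num) (by omega)).trans hM1)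
  · refine hRJ m n N (fun k => g (L t * k)) (g (L t)) hm hn1' hN ?_ ?_ ?_ ?_
    · intro l hl
      exact hlin l (by rw [em, mul_comm]; exact Nat.mul_lt_mul_of_pos_left hl hLt)
    · intro l h hl
      have := hg (t + 1) (L t * l) h (by rw [em]; exact Nat.mul_lt_mul_of_pos_left hl hLt)
      show g (L t * (l + m * h)) = g (L t * l) + g (L t * (m * h))
      rw [em] at this
      rw [mul_add, ← mul_assoc (L t) m h]
      exact this
    · intro l h hl
      have e3 : L (t + 3) = L t * (m * n) := by rw [en, em]; ring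
      have := hg (t + 3) (L t * l) h (by rw [e3]; exact Nat.mul_lt_mul_of_pos_left hl hLt)
      show g (L t * (l + m * n * h)) = g (L t * l) + g (L t * (m * n * h))
      rw [e3] at this
      rw [mul_add, ← mul_assoc (L t) (m * n) h]
      exact this
    · have e : ∀ z, g (L t * (m * z)) = g (L (t + 1) * z) := by
        intro z; rw [em, mul_assoc]
      simp only [e]
      exact hjun

theorem main2 (hPER : PER) (hRA : RIGA) (hRJ : RIGJ) (hG : GAD2) (hS : STEP) : MAIN2 := by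
  intro L g hL hg hH T ψ hψ hψ1 ε hε
  rcases hH with ⟨T₀, h⟩ | hirr
  · exact main_reg hPER hL hg h T ψ hψ hψ1 ε hε
  · obtain ⟨δ₀, hδ₀, hwin⟩ : ∃ δ₀ : ℝ, 0 < δ₀ ∧ ∀ p q : ℕ, p.Prime → q.Prime → p ≠ q → 3 ≤ p → 3 ≤ q →
        2 ≤ δ₀ * (p * q) → ∃ η : ℝ, 0 < η ∧ η ≤ 1 ∧ ∀ S₀, Win L g p q T η S₀ := by
      rcases hirr with ⟨δ, hδ, h⟩ | ⟨δ, hδ, h⟩
      · exact ⟨δ, hδ, fun p q h1 h2 h3 h4 h5 h6 => win_mix hRA hL hg hδ h T h1 h2 h3 h4 h5 h6⟩
      · exact ⟨δ, hδ, fun p q h1 h2 h3 h4 h5 h6 => win_jun hRJ hL hg hδ h T h1 h2 h3 h4 h5 h6⟩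
    obtain ⟨K, hK⟩ := exists_nat_ge (2 / δ₀)
    rw [div_le_iff₀ hδ₀] at hK
    obtain ⟨P, δ, N₁, hδ, hδ1, hP, hkat⟩ := kat_blocks ε hε (K + 2)
    have hpb : ∀ p q : ℕ, p < q ∧ p.Prime ∧ q.Prime ∧ K + 2 < p → ∃ S₀ : ℕ, ∀ c t : ℕ,
      ‖∑ x ∈ range (L S₀),
      (ψ (p * (x + L S₀ * t) + c) * sg (g (p * (x + L S₀ * t) + c))) *
      star (ψ (q * (x + L S₀ * t) + c) * sg (g (q * (x + L S₀ * t) + c)))‖ ≤ δ * L S₀ := by
      rintro p q ⟨h1, h2, h3, h4⟩
      obtain ⟨η, hη, hη1, hw⟩ := hwin p q h2 h3 h1.ne (by omega) (by omega) (by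
        have a1 : (K : ℝ) ≤ p := by exact_mod_cast (by omega : K ≤ p)
        have a2 : (1 : ℝ) ≤ q := by exact_mod_cast (by omega : 1 ≤ q)
        have a3 : (0 : ℝ) ≤ p := Nat.cast_nonneg _
        nlinarith [mul_le_mul_of_nonneg_right a1 hδ₀.le, mul_le_mul_of_nonneg_left a2 (mul_nonneg hδ₀.le a3)])
      exact pair_iter hG hS hL hg (by omega) h1.le hη hη1 hψ hψ1 hw δ hδ
    choose! Sf hSf using hpb
    set M := ∑ p ∈ P, ∑ q ∈ P, L (Sf p q) with hM
    obtain ⟨N₂, hN₂⟩ := exists_nat_ge ((M : ℝ) / δ)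
    refine ⟨max N₁ N₂, fun N hN c => ?_⟩
    refine hkat N ((le_max_left _ _).trans hN) (fun n => ψ (n + c) * sg (g (n + c))) ?_ ?_ _ kf_mu
    · intro n
      rw [norm_mul, norm_sg, mul_one]
      exact hψ1 _
    · intro p hp q hq hpq
      obtain ⟨hq1, hq2⟩ := hP q hq
      obtain ⟨hp1, hp2⟩ := hP p hp
      refine ⟨L (Sf p q), hL.pos _, ?_, fun t => ?_⟩
      · have h1 : L (Sf p q) ≤ M := by
          calc L (Sf p q) ≤ ∑ q ∈ P, L (Sf p q) :=
                single_le_sum (f := fun q => L (Sf p q)) (fun _ _ => Nat.zero_le _) hq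
            _ ≤ _ := single_le_sum (f := fun p => ∑ q ∈ P, L (Sf p q)) (fun _ _ => Nat.zero_le _) hp
        have h2 : (M : ℝ) ≤ δ * N := by
          have h3 : (M : ℝ) / δ ≤ N := hN₂.trans (by exact_mod_cast (le_max_right _ _).trans hN)
          rw [div_le_iff₀ hδ] at h3
          linarith
        have h3 : (L (Sf p q) : ℝ) ≤ M := by exact_mod_cast h1
        linarith
      · exact hSf p q ⟨hpq, hp1, hq1, by omega⟩ c t

end Pool.Agent.N213.BM
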