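import Pool.Agent.N213.BM.Stm3
import Pool.Agent.N213.BM.Main2

/-! # Project BM: the main theorem for blocks of unbounded length, general hypothesis -/

set_option autoImplicit false

namespace Pool.Agent.N213.BM

open Finset Filter Topology
open Pool.Agent.N213.QP (sg sg_add sg_zero sg_one norm_sg zmod2)
open Pool.Agent.W208.TL (KF KAT)

theorem win_mix3 (hR : RIGA) {L : ℕ → ℕ} (hL : Sc L) {g : ℕ → ZMod 2} (hg : Dig L g) {δ : ℝ}
    (hδ : 0 < δ) (hM : ∀ T, ∃ s t, T ≤ s ∧ s ≤ t ∧ Mixed δ g (L s) (L t / L s)) (T : ℕ)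
    {p q : ℕ} (hp : p.Prime) (hq : q.Prime) (hpq : p ≠ q) (hp3 : 3 ≤ p) (hq3 : 3 ≤ q)
    (h2 : 2 ≤ δ * (p * q)) : ∃ η : ℝ, 0 < η ∧ η ≤ 1 ∧ ∀ S₀, Win L g p q T η S₀ := by
  obtain ⟨η, D, hη, hη1, hRA⟩ := hR p q δ hp hq hpq hp3 hq3 hδ h2
  refine ⟨η, hη, hη1, fun S₀ => ?_⟩
  obtain ⟨t, t', ht, htt, hmix⟩ := hM (S₀ + T + (8 * (q + 1)) + D)
  set mid := S₀ + T + 8 * (q + 1) with hmid
  have hpow : ∀ n : ℕ, n ≤ 2 ^ n := fun n => (Nat.lt_two_pow_self (n := n)).le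
  obtain ⟨M, hM1, eM⟩ := hL.quot' (j := S₀) (j' := mid) (by omega)
  obtain ⟨m, hm1, em⟩ := hL.quot' (j := mid) (j' := t) (by omega)
  obtain ⟨n, hn1, en⟩ := hL.quot' (j := t) (j' := t') htt
  obtain ⟨N, hN1, eN⟩ := hL.quot' (j := t') (j' := t' + D) (by omega)
  have hLt := hL.pos t
  have hLm := hL.pos mid
  have hn : L t' / L t = n := by rw [en]; exact Nat.mul_div_cancel_left _ hLt
  rw [hn] at hmix
  have hm : D ≤ m := (hpow D).trans ((Nat.pow_le_pow_right (by norm_num) (by omega)).trans hm1)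
  have hN : D ≤ N := (hpow D).trans ((Nat.pow_le_pow_right (by norm_num) (by omega)).trans hN1)
  have hn1' : 1 ≤ n := le_trans Nat.one_le_two_pow hn1
  refine ⟨S₀, mid, t' + D, M, m * n * N, le_rfl, by omega, by omega, eM, ?_, ?_, ?_⟩
  · rw [eN, en, em]; ring
  · exact (hpow _).trans ((Nat.pow_le_pow_right (by norm_num) (by omega)).trans hM1)
  · refine hRA m n N (fun k => g (L mid * k)) hm hn1' hN ?_ ?_ ?_
    · intro l h hl
      have := hg t (L mid * l) h (by rw [em]; exact Nat.mul_lt_mul_of_pos_left hl hLm)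
      show g (L mid * (l + m * h)) = g (L mid * l) + g (L mid * (m * h))
      rw [em] at this
      rw [mul_add, ← mul_assoc (L mid) m h]
      exact this
    · intro l h hl
      have e3 : L t' = L mid * (m * n) := by rw [en, em]; ring
      have := hg t' (L mid * l) h (by rw [e3]; exact Nat.mul_lt_mul_of_pos_left hl hLm)
      show g (L mid * (l + m * n * h)) = g (L mid * l) + g (L mid * (m * n * h))
      rw [e3] at this
      rw [mul_add, ← mul_assoc (L mid) (m * n) h]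
      exact this
    · unfold Mixed at hmix ⊢
      have e : ∀ z, g (L mid * (m * z)) = g (L t * z) := by
        intro z; rw [em, mul_assoc]
      simp only [e]
      exact hmix

theorem win_jun3 (hR : RIGJ) {L : ℕ → ℕ} (hL : Sc L) {g : ℕ → ZMod 2} (hg : Dig L g) {δ : ℝ}
    (hδ : 0 < δ) (hM : ∀ T, ∃ s t u, T ≤ s ∧ s ≤ t ∧ t ≤ u ∧ T * L s ≤ L t ∧ Break δ L g s t u) (T : ℕ)
    {p q : ℕ} (hp : p.Prime) (hq : q.Prime) (hpq : p ≠ q) (hp3 : 3 ≤ p) (hq3 : 3 ≤ q)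
    (h2 : 2 ≤ δ * (p * q)) : ∃ η : ℝ, 0 < η ∧ η ≤ 1 ∧ ∀ S₀, Win L g p q T η S₀ := by
  obtain ⟨η, D, hη, hη1, hRJ⟩ := hR p q δ hp hq hpq hp3 hq3 hδ h2
  refine ⟨η, hη, hη1, fun S₀ => ?_⟩
  obtain ⟨t, t', u, ht, htt, hu, hbig, hlin, hjun⟩ := hM (S₀ + T + (8 * (q + 1)) + D)
  have hpow : ∀ n : ℕ, n ≤ 2 ^ n := fun n => (Nat.lt_two_pow_self (n := n)).le
  obtain ⟨M, hM1, eM⟩ := hL.quot' (j := t - 8 * (q + 1)) (j' := t) (by omega)
  obtain ⟨m, hm1, em⟩ := hL.quot' (j := t) (j' := t') htt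
  obtain ⟨n, hn1, en⟩ := hL.quot' (j := t') (j' := u) hu
  obtain ⟨N, hN1, eN⟩ := hL.quot' (j := u) (j' := u + D) (by omega)
  have hLt := hL.pos t
  have hLt1 := hL.pos t'
  have hm' : L t' / L t = m := by rw [em]; exact Nat.mul_div_cancel_left _ hLt
  have hn' : L u / L t' = n := by rw [en]; exact Nat.mul_div_cancel_left _ hLt1
  rw [hm', hn'] at hjun
  have hm : D ≤ m := by
    rw [em, mul_comm (L t)] at hbig
    have := Nat.le_of_mul_le_mul_right hbig hLt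
    omega
  have hN : D ≤ N := (hpow D).trans ((Nat.pow_le_pow_right (by norm_num) (by omega)).trans hN1)
  have hn1' : 1 ≤ n := le_trans Nat.one_le_two_pow hn1
  refine ⟨t - 8 * (q + 1), t, u + D, M, m * n * N, by omega, by omega, by omega, eM, ?_, ?_, ?_⟩
  · rw [eN, en, em]; ring
  · exact (hpow _).trans ((Nat.pow_le_pow_right (by norm_num) (by omega)).trans hM1)
  · refine hRJ m n N (fun k => g (L t * k)) (g (L t)) hm hn1' hN ?_ ?_ ?_ ?_
    · intro l hl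
      exact hlin l (by rw [em]; exact Nat.mul_lt_mul_of_pos_left hl hLt)
    · intro l h hl
      have := hg t' (L t * l) h (by rw [em]; exact Nat.mul_lt_mul_of_pos_left hl hLt)
      show g (L t * (l + m * h)) = g (L t * l) + g (L t * (m * h))
      rw [em] at this
      rw [mul_add, ← mul_assoc (L t) m h]
      exact this
    · intro l h hl
      have e3 : L u = L t * (m * n) := by rw [en, em]; ring
      have := hg u (L t * l) h (by rw [e3]; exact Nat.mul_lt_mul_of_pos_left hl hLt)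
      show g (L t * (l + m * n * h)) = g (L t * l) + g (L t * (m * n * h))
      rw [e3] at this
      rw [mul_add, ← mul_assoc (L t) (m * n) h]
      exact this
    · have e : ∀ z, g (L t * (m * z)) = g (L t' * z) := by
        intro z; rw [em, mul_assoc]
      simp only [e]
      exact hjun

theorem main3 (hPER : PER) (hRA : RIGA) (hRJ : RIGJ) (hG : GAD2) (hS : STEP) : MAIN3 := by
  intro L g hL hg hH T ψ hψ hψ1 ε hε
  rcases hH with ⟨T₀, h⟩ | hirr
  · exact main_reg hPER hL hg h T ψ hψ hψ1 ε hε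
  · obtain ⟨δ₀, hδ₀, hwin⟩ : ∃ δ₀ : ℝ, 0 < δ₀ ∧ ∀ p q : ℕ, p.Prime → q.Prime → p ≠ q → 3 ≤ p → 3 ≤ q →
        2 ≤ δ₀ * (p * q) → ∃ η : ℝ, 0 < η ∧ η ≤ 1 ∧ ∀ S₀, Win L g p q T η S₀ := by
      rcases hirr with ⟨δ, hδ, h⟩ | ⟨δ, hδ, h⟩
      · exact ⟨δ, hδ, fun p q h1 h2 h3 h4 h5 h6 => win_mix3 hRA hL hg hδ h T h1 h2 h3 h4 h5 h6⟩
      · exact ⟨δ, hδ, fun p q h1 h2 h3 h4 h5 h6 => win_jun3 hRJ hL hg hδ h T h1 h2 h3 h4 h5 h6⟩
    obtain ⟨K, hK⟩ := exists_nat_ge (2 / δ₀)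
    rw [div_le_iff₀ hδ₀] at hK
    obtain ⟨P, δ, N₁, hδ, hδ1, hP, hkat⟩ := kat_blocks ε hε (K + 2)
    have hpb : ∀ p q : ℕ, p < q ∧ p.Prime ∧ q.Prime ∧ K + 2 < p → ∃ S₀ : ℕ, ∀ c t : ℕ,
      ‖∑ x ∈ range (L S₀),
      (ψ (p * (x + L S₀ * t) + c) * sg (g (p * (x + L S₀ * t) + c))) *
      star (ψ (q * (x + L S₀ * t) + c) * sg (g (q * (x + L S₀ * t) + c)))‖ ≤ δ * L S₀ := by
      rintro p q ⟨h1, h2, h3, h4⟩
      obtain ⟨η, hη, hη1, hw⟩ := hwin p q h2 h3 h1.ne (by omega) (by omega) (by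
        have a1 : (K : ℝ) ≤ p := by exact_mod_cast (by omega : K ≤ p)
        have a2 : (1 : ℝ) ≤ q := by exact_mod_cast (by omega : 1 ≤ q)
        have a3 : (0 : ℝ) ≤ p := Nat.cast_nonneg _
        nlinarith [mul_le_mul_of_nonneg_right a1 hδ₀.le, mul_le_mul_of_nonneg_left a2 (mul_nonneg hδ₀.le a3)])
      exact pair_iter hG hS hL hg (by omega) h1.le hη hη1 hψ hψ1 hw δ hδ
    choose! Sf hSf using hpb
    set M := ∑ p ∈ P, ∑ q ∈ P, L (Sf p q) with hM
    obtain ⟨N₂, hN₂⟩ := exists_nat_ge ((M : ℝ) / δ)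
    refine ⟨max N₁ N₂, fun N hN c => ?_⟩
    refine hkat N ((le_max_left _ _).trans hN) (fun n => ψ (n + c) * sg (g (n + c))) ?_ ?_ _ kf_mu
    · intro n
      rw [norm_mul, norm_sg, mul_one]
      exact hψ1 _
    · intro p hp q hq hpq
      obtain ⟨hq1, hq2⟩ := hP q hq
      obtain ⟨hp1, hp2⟩ := hP p hp
      refine ⟨L (Sf p q), hL.pos _, ?_, fun t => ?_⟩
      · have h1 : L (Sf p q) ≤ M := by
          calc L (Sf p q) ≤ ∑ q ∈ P, L (Sf p q) :=
                single_le_sum (f := fun q => L (Sf p q)) (fun _ _ => Nat.zero_le _) hq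
            _ ≤ _ := single_le_sum (f := fun p => ∑ q ∈ P, L (Sf p q)) (fun _ _ => Nat.zero_le _) hp
        have h2 : (M : ℝ) ≤ δ * N := by
          have h3 : (M : ℝ) / δ ≤ N := hN₂.trans (by exact_mod_cast (le_max_right _ _).trans hN)
          rw [div_le_iff₀ hδ] at h3
          linarith
        have h3 : (L (Sf p q) : ℝ) ≤ M := by exact_mod_cast h1
        linarith
      · exact hSf p q ⟨hpq, hp1, hq1, by omega⟩ c t

end Pool.Agent.N213.BM
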