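import Pool.Agent.N213.BM.Stm4
import Pool.Agent.N213.BM.Main3

/-! # Project DM: the main theorem, blocks with few changes -/

set_option autoImplicit false

namespace Pool.Agent.N213.BM

open Finset Filter Topology
open Pool.Agent.N213.QP (sg sg_add sg_zero sg_one norm_sg zmod2)
open Pool.Agent.W208.TL (KF KAT)

theorem win_bal (hR : RIGK) {L : ℕ → ℕ} (hL : Sc L) {g : ℕ → ZMod 2} (hg : Dig L g) {K : ℕ} {δ : ℝ}
    (hδ : 0 < δ) (hM : ∀ T, ∃ s t, T ≤ s ∧ s ≤ t ∧ T * L s ≤ L t ∧ ∃ ε : ZMod 2,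
      Bal K δ (fun z => g (L s * z) + (z : ZMod 2) * ε) (L t / L s)) (T : ℕ)
    {p q : ℕ} (hp : p.Prime) (hq : q.Prime) (hpq : p ≠ q) (hp3 : K + 3 ≤ p) (hq3 : 3 ≤ q) :
    ∃ η : ℝ, 0 < η ∧ η ≤ 1 ∧ ∀ S₀, Win L g p q T η S₀ := by
  obtain ⟨η, D, hη, hη1, hRA⟩ := hR p q K δ hp hq hpq hp3 hq3 hδ
  refine ⟨η, hη, hη1, fun S₀ => ?_⟩
  obtain ⟨s, t, hs, hst, hbig, e, hbal⟩ := hM (S₀ + T + (8 * (q + 1)) + D)
  have hpow : ∀ n : ℕ, n ≤ 2 ^ n := fun n => (Nat.lt_two_pow_self (n := n)).le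
  obtain ⟨M, hM1, eM⟩ := hL.quot' (j := s - 8 * (q + 1)) (j' := s) (by omega)
  obtain ⟨n, hn1, en⟩ := hL.quot' (j := s) (j' := t) hst
  have hLs := hL.pos s
  have hn' : L t / L s = n := by rw [en]; exact Nat.mul_div_cancel_left _ hLs
  rw [hn'] at hbal
  have hn : D ≤ n := by
    rw [en, mul_comm (L s)] at hbig
    have := Nat.le_of_mul_le_mul_right hbig hLs
    omega
  refine ⟨s - 8 * (q + 1), s, t, M, n, by omega, by omega, by omega, eM, en, ?_, ?_⟩
  · exact (hpow _).trans ((Nat.pow_le_pow_right (by norm_num) (by omega)).trans hM1)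
  · intro ep eq
    have h1 := hRA n 1 (fun z => g (L s * z) + (z : ZMod 2) * e) hn ?_ hbal ep eq
    · have h2 : ∀ x : ℕ, sg (g (L s * (p * x + ep)) + g (L s * (q * x + eq))) =
          sg ((g (L s * (p * x + ep)) + ((p * x + ep : ℕ) : ZMod 2) * e) +
            (g (L s * (q * x + eq)) + ((q * x + eq : ℕ) : ZMod 2) * e)) *
          sg (((ep + eq : ℕ) : ZMod 2) * e) := by
        intro x
        rw [← sg_add]
        congr 1
        have hp2 : (p : ZMod 2) = 1 := by
          have : p % 2 = 1 := by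
            rcases hp.eq_two_or_odd with h | h
            · omega
            · exact h
          have h3 : (p : ZMod 2) = ((p % 2 : ℕ) : ZMod 2) := by rw [ZMod.natCast_mod]
          rw [h3, this, Nat.cast_one]
        have hq2 : (q : ZMod 2) = 1 := by
          have : q % 2 = 1 := by
            rcases hq.eq_two_or_odd with h | h
            · omega
            · exact h
          have h3 : (q : ZMod 2) = ((q % 2 : ℕ) : ZMod 2) := by rw [ZMod.natCast_mod]
          rw [h3, this, Nat.cast_one]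
        push_cast
        rw [hp2, hq2]
        have h4 : ∀ z : ZMod 2, z + z = 0 := by decide
        have h5 : g (L s * (p * x + ep)) + (1 * (x : ZMod 2) + ep) * e +
            (g (L s * (q * x + eq)) + (1 * (x : ZMod 2) + eq) * e) + (ep + eq) * e =
            g (L s * (p * x + ep)) + g (L s * (q * x + eq)) + ((x : ZMod 2) * e + x * e) +
              ((ep : ZMod 2) * e + ep * e) + ((eq : ZMod 2) * e + eq * e) := by ring
        rw [h5, h4, h4, h4, add_zero, add_zero, add_zero]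
      rw [sum_congr rfl fun x _ => h2 x, ← sum_mul, norm_mul, norm_sg, mul_one]
      simpa using h1
    · intro l h hl
      have h2 := hg t (L s * l) h (by rw [en]; exact Nat.mul_lt_mul_of_pos_left hl hLs)
      rw [en] at h2
      show g (L s * (l + n * h)) + ((l + n * h : ℕ) : ZMod 2) * e =
        (g (L s * l) + (l : ZMod 2) * e) + (g (L s * (n * h)) + ((n * h : ℕ) : ZMod 2) * e)
      rw [mul_add, ← mul_assoc (L s) n h, h2]
      push_cast
      ring

theorem main4 (hPER : PER) (hRA : RIGA) (hRJ : RIGJ) (hG : GAD2) (hS : STEP) (hK4 : RIGK) :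
    MAIN4 := by
  intro L g hL hg hH T ψ hψ hψ1 ε hε
  rcases hH with hH | ⟨K, δ₀, hδ₀, hM⟩
  · exact main3 hPER hRA hRJ hG hS L g hL hg hH T ψ hψ hψ1 ε hε
  · obtain ⟨P, δ, N₁, hδ, hδ1, hP, hkat⟩ := kat_blocks ε hε (K + 2)
    have hpb : ∀ p q : ℕ, p < q ∧ p.Prime ∧ q.Prime ∧ K + 2 < p → ∃ S₀ : ℕ, ∀ c t : ℕ,
      ‖∑ x ∈ range (L S₀),
      (ψ (p * (x + L S₀ * t) + c) * sg (g (p * (x + L S₀ * t) + c))) *
      star (ψ (q * (x + L S₀ * t) + c) * sg (g (q * (x + L S₀ * t) + c)))‖ ≤ δ * L S₀ := by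
      rintro p q ⟨h1, h2, h3, h4⟩
      obtain ⟨η, hη, hη1, hw⟩ := win_bal hK4 hL hg hδ₀ hM T h2 h3 h1.ne (by omega) (by omega)
      exact pair_iter hG hS hL hg (by omega) h1.le hη hη1 hψ hψ1 hw δ hδ
    choose! Sf hSf using hpb
    set M := ∑ p ∈ P, ∑ q ∈ P, L (Sf p q) with hM
    obtain ⟨N₂, hN₂⟩ := exists_nat_ge ((M : ℝ) / δ)
    refine ⟨max N₁ N₂, fun N hN c => ?_⟩
    refine hkat N ((le_max_left _ _).trans hN) (fun n => ψ (n + c) * sg (g (n + c))) ?_ ?_ _ kf_mu
    · intro n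
      rw [norm_mul, norm_sg, mul_one]
      exact hψ1 _
    · intro p hp q hq hpq
      obtain ⟨hq1, hq2⟩ := hP q hq
      obtain ⟨hp1, hp2⟩ := hP p hp
      refine ⟨L (Sf p q), hL.pos _, ?_, fun t => ?_⟩
      · have h1 : L (Sf p q) ≤ M := by
          calc L (Sf p q) ≤ ∑ q ∈ P, L (Sf p q) :=
                single_le_sum (f := fun q => L (Sf p q)) (fun _ _ => Nat.zero_le _) hq
            _ ≤ _ := single_le_sum (f := fun p => ∑ q ∈ P, L (Sf p q)) (fun _ _ => Nat.zero_le _) hp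
        have h2 : (M : ℝ) ≤ δ * N := by
          have h3 : (M : ℝ) / δ ≤ N := hN₂.trans (by exact_mod_cast (le_max_right _ _).trans hN)
          rw [div_le_iff₀ hδ] at h3
          linarith
        have h3 : (L (Sf p q) : ℝ) ≤ M := by exact_mod_cast h1
        linarith
      · exact hSf p q ⟨hpq, hp1, hq1, by omega⟩ c t

end Pool.Agent.N213.BM
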