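import Mathlib
import Pool.Agent.N213.BM.Stm4

/-! # DM/RES4: counting in a residue class (helper574) -/

set_option autoImplicit false

namespace Pool.Agent.N213.BM.Res4X

open Finset

lemma change (G : ℕ → ZMod 2) (v : ZMod 2) (s : ℕ) (hs : G s ≠ v) : ∀ x, s ≤ x → G x = v →
    ∃ z, s ≤ z ∧ z + 1 ≤ x ∧ G (z + 1) ≠ G z := by
  intro x hx
  induction x, hx using Nat.le_induction with
  | base => intro h; exact absurd h hs
  | succ x hx ih =>
    intro h
    by_cases h1 : G x = v
    · obtain ⟨z, h2, h3, h4⟩ := ih h1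
      exact ⟨z, h2, by omega, h4⟩
    · exact ⟨x, hx, le_rfl, by rw [h]; exact fun h2 => h1 h2.symm⟩

theorem res4_aux (p n w c K J b : ℕ) (G : ℕ → ZMod 2) (v : ZMod 2) (hp : 1 ≤ p) (hn : c + w ≤ n)
    (hcb : c ≤ b) (hbc : b < c + p) (hw1 : p * (J + 1) ≤ w) (hw2 : w ≤ p * (J + 2))
    (hK : ((range (n - 1)).filter (fun z => G (z + 1) ≠ G z)).card ≤ K) :
    ((range w).filter (fun z => G (c + z) = v)).card ≤
      p * ((range J).filter (fun j => G (b + p * j) = v)).card + p * K + 2 * p := by
  classical
  have e1 : p * (J + 1) = p * J + p := by ring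
  have e2 : p * (J + 2) = p * J + 2 * p := by ring
  rw [e1] at hw1
  rw [e2] at hw2
  obtain ⟨O, hO⟩ : ∃ O : Finset ℕ, O = (range w).filter (fun z => ¬ (b ≤ c + z ∧ c + z < b + p * J)) :=
    ⟨_, rfl⟩
  obtain ⟨I, hI⟩ : ∃ I : Finset ℕ, I = ((range w).filter (fun z => G (c + z) = v)).filter
    (fun z => b ≤ c + z ∧ c + z < b + p * J) := ⟨_, rfl⟩
  obtain ⟨S1, hS1⟩ : ∃ S1 : Finset ℕ, S1 = (range J).filter (fun j => G (b + p * j) = v) := ⟨_, rfl⟩
  obtain ⟨S2, hS2⟩ : ∃ S2 : Finset ℕ, S2 = (range J).filter (fun j => G (b + p * j) ≠ v ∧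
    ∃ x, b + p * j ≤ x ∧ x < b + p * j + p ∧ G x = v) := ⟨_, rfl⟩
  have hsub : (range w).filter (fun z => G (c + z) = v) ⊆ O ∪ I := by
    intro z hz
    rw [mem_union]
    by_cases h : b ≤ c + z ∧ c + z < b + p * J
    · right
      rw [hI, mem_filter]
      exact ⟨hz, h⟩
    · left
      rw [hO, mem_filter]
      exact ⟨(mem_filter.1 hz).1, h⟩
  have hOc : O.card ≤ 2 * p := by
    have h1 : ((range w).filter (fun z => b ≤ c + z ∧ c + z < b + p * J)) =
        Ico (b - c) (b - c + p * J) := by
      ext z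
      rw [mem_filter, mem_range, mem_Ico]
      omega
    have h2 := card_filter_add_card_filter_not (s := range w)
      (fun z => b ≤ c + z ∧ c + z < b + p * J)
    rw [h1, Nat.card_Ico, card_range, ← hO] at h2
    omega
  have hJle : ∀ j, j < J → p * j + p ≤ p * J := by
    intro j hj
    calc p * j + p = p * (j + 1) := by ring
      _ ≤ p * J := Nat.mul_le_mul_left p hj
  have hS2c : S2.card ≤ K := by
    have hex : ∀ j ∈ S2, ∃ z, b + p * j ≤ z ∧ z + 1 < b + p * j + p ∧ G (z + 1) ≠ G z := by
      intro j hj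
      rw [hS2, mem_filter] at hj
      obtain ⟨_, h1, x, h2, h3, h4⟩ := hj
      obtain ⟨z, h5, h6, h7⟩ := change G v _ h1 x h2 h4
      exact ⟨z, h5, by omega, h7⟩
    choose! φ hφ using hex
    refine le_trans ?_ hK
    apply card_le_card_of_injOn φ
    · intro j hj
      obtain ⟨h1, h2, h3⟩ := hφ j hj
      have hj2 : j < J := by
        have := mem_coe.1 hj
        rw [hS2, mem_filter, mem_range] at this
        exact this.1
      have h4 := hJle j hj2
      rw [mem_coe, mem_filter, mem_range]
      exact ⟨by omega, h3⟩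
    · intro j hj j' hj' hjj
      obtain ⟨h1, h2, h3⟩ := hφ j hj
      obtain ⟨h1', h2', h3'⟩ := hφ j' hj'
      rw [hjj] at h1 h2
      by_contra hne
      rcases lt_or_gt_of_ne hne with h | h
      · have : p * j + p ≤ p * j' := by
          calc p * j + p = p * (j + 1) := by ring
            _ ≤ p * j' := Nat.mul_le_mul_left p h
        omega
      · have : p * j' + p ≤ p * j := by
          calc p * j' + p = p * (j' + 1) := by ring
            _ ≤ p * j := Nat.mul_le_mul_left p h
        omega
  have hIc : I.card ≤ p * (S1 ∪ S2).card := by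
    apply card_le_mul_card_image_of_maps_to (f := fun z => (c + z - b) / p)
    · intro z hz
      rw [hI, mem_filter, mem_filter, mem_range] at hz
      obtain ⟨⟨h1, h2⟩, h3, h4⟩ := hz
      have h5 : (c + z - b) / p < J := by
        rw [Nat.div_lt_iff_lt_mul (by omega), mul_comm]
        omega
      have h6 := Nat.div_add_mod (c + z - b) p
      have h7 := Nat.mod_lt (c + z - b) (show p > 0 by omega)
      rw [mem_union, hS1, hS2, mem_filter, mem_filter, mem_range]
      by_cases h8 : G (b + p * ((c + z - b) / p)) = v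
      · left
        exact ⟨h5, h8⟩
      · right
        exact ⟨h5, h8, c + z, by omega, by omega, h2⟩
    · intro j _
      have h1 : I.filter (fun z => (c + z - b) / p = j) ⊆
          Ico (b + p * j - c) (b + p * j - c + p) := by
        intro z hz
        rw [mem_filter, hI, mem_filter, mem_filter, mem_range] at hz
        obtain ⟨⟨⟨h1, h2⟩, h3, h4⟩, h5⟩ := hz
        have h6 := Nat.div_add_mod (c + z - b) p
        have h7 := Nat.mod_lt (c + z - b) (show p > 0 by omega)
        rw [h5] at h6
        rw [mem_Ico]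
        omega
      refine (card_le_card h1).trans ?_
      rw [Nat.card_Ico]
      omega
  have h1 := card_le_card hsub
  have h2 := card_union_le O I
  have h3 := card_union_le S1 S2
  have h4 : p * (S1 ∪ S2).card ≤ p * (S1.card + K) := Nat.mul_le_mul_left p (by omega)
  have h5 : p * (S1.card + K) = p * S1.card + p * K := by ring
  rw [← hS1]
  omega

end Pool.Agent.N213.BM.Res4X

namespace Pool.Agent.N213.BM

theorem res4 : RES4 := fun p n w c K J b G v hp hn hcb hbc hw1 hw2 hK =>
  Res4X.res4_aux p n w c K J b G v hp hn hcb hbc hw1 hw2 hK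

end Pool.Agent.N213.BM
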