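import Pool.Agent.N213.BM.Stm

/-! # Project BM (helper213), part RIG (helper252): rigidity of the digits along `p x` and `q x` -/

set_option autoImplicit false

namespace Pool.Agent.N213.BM.RigX

/-- the increments -/
def rho (m : ℕ) (G : ℕ → ZMod 2) (z : ℕ) : ZMod 2 := G (m * (z + 1)) + G (m * z)

/-- `q x + ηq` is in front of `m (K + 1)` and `q (x + 1) + ηq` is not -/
def E (q m ηq K x : ℕ) : Prop := q * x + ηq < m * (K + 1) ∧ m * (K + 1) ≤ q * x + q + ηq

theorem key {p q m R : ℕ} {G : ℕ → ZMod 2} {ηp ηq : ℕ} (hqm : q ≤ m)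
    (H1 : ∀ l h, l < m → G (l + m * h) = G l + G (m * h))
    (H : ∀ x < R, G (p * x + ηp) + G (q * x + ηq) = G ηp + G ηq)
    {K x : ℕ} (hE : E q m ηq K x) (hx : x + 1 < R) (hnc : (p * x + ηp) % m + p < m) :
    rho m G K = G ((p * x + ηp) % m + p) + G ((p * x + ηp) % m) +
      G (q * x + q + ηq - m * (K + 1)) + G (q * x + ηq - m * K) := by
  obtain ⟨h1, h2⟩ := hE
  have hm1 : m * (K + 1) = m * K + m := by ring
  have e1 : p * x + ηp = (p * x + ηp) % m + m * ((p * x + ηp) / m) := (Nat.mod_add_div _ _).symm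
  have e2 : p * (x + 1) + ηp = ((p * x + ηp) % m + p) + m * ((p * x + ηp) / m) := by
    have : p * (x + 1) + ηp = (p * x + ηp) + p := by ring
    rw [this]
    omega
  have e3 : q * x + ηq = (q * x + ηq - m * K) + m * K := by omega
  have e4 : q * (x + 1) + ηq = (q * x + q + ηq - m * (K + 1)) + m * (K + 1) := by
    have : q * (x + 1) + ηq = q * x + q + ηq := by ring
    rw [this]
    omega
  have g1 : G (p * x + ηp) = G ((p * x + ηp) % m) + G (m * ((p * x + ηp) / m)) := by
    conv_lhs => rw [e1]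
    exact H1 _ _ (by omega)
  have g2 : G (p * (x + 1) + ηp) = G ((p * x + ηp) % m + p) + G (m * ((p * x + ηp) / m)) := by
    rw [e2]
    exact H1 _ _ hnc
  have g3 : G (q * x + ηq) = G (q * x + ηq - m * K) + G (m * K) := by
    conv_lhs => rw [e3]
    exact H1 _ _ (by omega)
  have g4 : G (q * (x + 1) + ηq) = G (q * x + q + ηq - m * (K + 1)) + G (m * (K + 1)) := by
    rw [e4]
    exact H1 _ _ (by omega)
  have k1 := H x (by omega)
  have k2 := H (x + 1) hx
  rw [g1, g3] at k1
  rw [g2, g4] at k2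
  unfold rho
  rw [← k1] at k2
  generalize G (m * ((p * x + ηp) / m)) = a at *
  generalize G ((p * x + ηp) % m) = b at *
  generalize G ((p * x + ηp) % m + p) = c at *
  generalize G (q * x + q + ηq - m * (K + 1)) = d at *
  generalize G (q * x + ηq - m * K) = e at *
  generalize G (m * (K + 1)) = f at *
  generalize G (m * K) = g at *
  clear k1 g1 g2 g3 g4
  revert k2
  revert a b c d e f g
  decide

theorem shift {q m ηq K x : ℕ} (r : ℕ) (hE : E q m ηq K x) :
    E q m ηq (K + q * r) (x + m * r) := by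
  obtain ⟨h1, h2⟩ := hE
  have e1 : q * (x + m * r) = q * x + q * m * r := by ring
  have e2 : m * (K + q * r + 1) = m * (K + 1) + q * m * r := by ring
  constructor <;> rw [e1, e2] <;> omega

theorem exist {q m ηq K : ℕ} (hq : 0 < q) (h : ηq < m * (K + 1)) : ∃ x, E q m ηq K x := by
  refine ⟨(m * (K + 1) - 1 - ηq) / q, ?_⟩
  have h1 := Nat.div_add_mod (m * (K + 1) - 1 - ηq) q
  have h2 := Nat.mod_lt (m * (K + 1) - 1 - ηq) hq
  constructor <;> omega

/-- the condition fails at `K` -/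
def Bad (p q m ηp ηq K : ℕ) : Prop := ∃ x, E q m ηq K x ∧ m ≤ (p * x + ηp) % m + p

theorem bad_mod {p q m ηp ηq K K' : ℕ} (hp : 1 ≤ p) (hpq : p < q) (hq : q.Prime)
    (hm : 2 * p * q < m) (h : Bad p q m ηp ηq K) (h' : Bad p q m ηp ηq K') :
    (q : ℤ) ∣ (K : ℤ) - K' := by
  obtain ⟨x, ⟨h1, h2⟩, h3⟩ := h
  obtain ⟨x', ⟨h1', h2'⟩, h3'⟩ := h'
  have hm0 : 0 < m := by omega
  have aux : ∀ x K : ℕ, q * x + ηq < m * (K + 1) → m * (K + 1) ≤ q * x + q + ηq →
      m ≤ (p * x + ηp) % m + p →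
      (m : ℤ) * ((q : ℤ) * (((p * x + ηp) / m : ℕ) + 1) - p * ((K : ℤ) + 1)) >
        (q : ℤ) * ηp - p * ηq - p * q ∧
      (m : ℤ) * ((q : ℤ) * (((p * x + ηp) / m : ℕ) + 1) - p * ((K : ℤ) + 1)) <
        (q : ℤ) * ηp - p * ηq + p * q := by
    intro x K h1 h2 h3
    have e1 := Nat.div_add_mod (p * x + ηp) m
    have e2 := Nat.mod_lt (p * x + ηp) hm0
    generalize (p * x + ηp) / m = W at *
    generalize (p * x + ηp) % m = l at *
    have e1z : (m : ℤ) * W + l = p * x + ηp := by exact_mod_cast e1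
    have e2z : (l : ℤ) < m := by exact_mod_cast e2
    have h1z : (q : ℤ) * x + ηq < m * (K + 1) := by exact_mod_cast h1
    have h2z : (m : ℤ) * (K + 1) ≤ q * x + q + ηq := by exact_mod_cast h2
    have h3z : (m : ℤ) ≤ l + p := by exact_mod_cast h3
    have hpz : (1 : ℤ) ≤ p := by exact_mod_cast hp
    have hqz : (0 : ℤ) < q := by exact_mod_cast hq.pos
    have a1 : (m : ℤ) * (W + 1) ≤ p * x + p + ηp := by nlinarith
    have a2 : (p : ℤ) * x + ηp < m * (W + 1) := by nlinarith
    have b1 : (q : ℤ) * (m * (W + 1)) ≤ q * (p * x + p + ηp) :=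
      mul_le_mul_of_nonneg_left a1 hqz.le
    have b2 : (q : ℤ) * (p * x + ηp) < q * (m * (W + 1)) := mul_lt_mul_of_pos_left a2 hqz
    have b3 : (p : ℤ) * (m * (K + 1)) ≤ p * (q * x + q + ηq) :=
      mul_le_mul_of_nonneg_left h2z (by linarith)
    have b4 : (p : ℤ) * (q * x + ηq) < p * (m * (K + 1)) :=
      mul_lt_mul_of_pos_left h1z (by linarith)
    constructor
    · have : (m : ℤ) * ((q : ℤ) * (W + 1) - p * ((K : ℤ) + 1)) =
        q * (m * (W + 1)) - p * (m * (K + 1)) := by ring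
      rw [this]
      nlinarith
    · have : (m : ℤ) * ((q : ℤ) * (W + 1) - p * ((K : ℤ) + 1)) =
        q * (m * (W + 1)) - p * (m * (K + 1)) := by ring
      rw [this]
      nlinarith
  obtain ⟨u1, u2⟩ := aux x K h1 h2 h3
  obtain ⟨v1, v2⟩ := aux x' K' h1' h2' h3'
  generalize (p * x + ηp) / m = W at *
  generalize (p * x' + ηp) / m = W' at *
  have hmz : 2 * (p : ℤ) * q < m := by exact_mod_cast hm
  have hmz0 : (0 : ℤ) < m := by exact_mod_cast hm0
  obtain ⟨V, hV⟩ : ∃ V : ℤ, V = (q : ℤ) * (W + 1) - p * ((K : ℤ) + 1) := ⟨_, rfl⟩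
  obtain ⟨V', hV'⟩ : ∃ V' : ℤ, V' = (q : ℤ) * (W' + 1) - p * ((K' : ℤ) + 1) := ⟨_, rfl⟩
  rw [← hV] at u1 u2
  rw [← hV'] at v1 v2
  have hVV : V = V' := by
    rcases lt_trichotomy V V' with h | h | h
    · exfalso
      have : (m : ℤ) * (V + 1) ≤ m * V' := mul_le_mul_of_nonneg_left (by omega) hmz0.le
      nlinarith
    · exact h
    · exfalso
      have : (m : ℤ) * (V' + 1) ≤ m * V := mul_le_mul_of_nonneg_left (by omega) hmz0.le
      nlinarith
  have hd : (q : ℤ) ∣ (p : ℤ) * ((K : ℤ) - K') := by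
    refine ⟨(W : ℤ) - W', ?_⟩
    rw [hV, hV'] at hVV
    linarith
  have hcop : IsCoprime (q : ℤ) (p : ℤ) := by
    rw [Nat.isCoprime_iff_coprime, hq.coprime_iff_not_dvd]
    intro h
    exact absurd (Nat.le_of_dvd (by omega) h) (by omega)
  exact hcop.dvd_of_dvd_mul_left hd

theorem same {p q m R : ℕ} {G : ℕ → ZMod 2} {ηp ηq : ℕ} (hq : 0 < q) (hqm : q ≤ m)
    (H1 : ∀ l h, l < m → G (l + m * h) = G l + G (m * h))
    (H : ∀ x < R, G (p * x + ηp) + G (q * x + ηq) = G ηp + G ηq)
    {K K' : ℕ} (hle : K ≤ K') (hmod : (q : ℤ) ∣ (K' : ℤ) - K) (hK : ηq < m * (K + 1))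
    (hK' : m * (K' + 1) + 1 < R + ηq) :
    rho m G K = rho m G K' ∨ Bad p q m ηp ηq K := by
  obtain ⟨x, hx⟩ := exist hq hK
  by_cases hnc : (p * x + ηp) % m + p < m
  · left
    obtain ⟨r, hr⟩ : ∃ r : ℕ, K' = K + q * r := by
      obtain ⟨r, hr⟩ := (Int.natCast_dvd_natCast (m := q) (n := K' - K)).1
        (by rw [Nat.cast_sub hle]; exact hmod)
      exact ⟨r, by omega⟩
    have hx' : E q m ηq K' (x + m * r) := by
      rw [hr]
      exact shift r hx
    have hlt : ∀ y K'' : ℕ, E q m ηq K'' y → K'' ≤ K' → y + 1 < R := by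
      intro y K'' hy hle'
      have h1 := hy.1
      have h2 : m * (K'' + 1) ≤ m * (K' + 1) := Nat.mul_le_mul_left _ (by omega)
      have h3 : y ≤ q * y := Nat.le_mul_of_pos_left _ hq
      omega
    have e1 : (p * (x + m * r) + ηp) % m = (p * x + ηp) % m := by
      have : p * (x + m * r) + ηp = (p * x + ηp) + m * (p * r) := by ring
      rw [this, Nat.add_mul_mod_self_left]
    have k1 := key (G := G) (R := R) hqm H1 H hx (hlt x K hx hle) hnc
    have k2 := key (G := G) (R := R) hqm H1 H hx' (hlt _ K' hx' le_rfl) (by rw [e1]; exact hnc)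
    rw [k1, k2, e1]
    have e2 : q * (x + m * r) + q + ηq - m * (K' + 1) = q * x + q + ηq - m * (K + 1) := by
      have h1 : q * (x + m * r) = q * x + q * m * r := by ring
      have h2 : m * (K' + 1) = m * (K + 1) + q * m * r := by rw [hr]; ring
      rw [h1, h2]
      omega
    have e3 : q * (x + m * r) + ηq - m * K' = q * x + ηq - m * K := by
      have h1 : q * (x + m * r) = q * x + q * m * r := by ring
      have h2 : m * K' = m * K + q * m * r := by rw [hr]; ring
      rw [h1, h2]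
      omega
    rw [e2, e3]
  · right
    exact ⟨x, hx, by omega⟩

theorem choose_Z {q n : ℕ} (hq : q.Prime) (hn : Nat.Coprime q n) (z s B : ℕ) :
    ∃ Z, B ≤ Z ∧ Z < B + q ∧ (q : ℤ) ∣ ((z + n * Z : ℕ) : ℤ) - s := by
  have : Fact q.Prime := ⟨hq⟩
  have hn0 : (n : ZMod q) ≠ 0 := by
    intro h
    rw [ZMod.natCast_eq_zero_iff] at h
    exact (hq.coprime_iff_not_dvd.1 hn) h
  obtain ⟨c, hc⟩ : ∃ c : ZMod q, c = ((s : ZMod q) - z) / n := ⟨_, rfl⟩
  refine ⟨B + (c - B : ZMod q).val, by omega, by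
    have := ZMod.val_lt (c - B : ZMod q)
    omega, ?_⟩
  rw [← ZMod.intCast_zmod_eq_zero_iff_dvd]
  push_cast
  rw [ZMod.natCast_val, ZMod.cast_id', id]
  have e1 : (B : ZMod q) + (c - B) = c := by ring
  rw [e1, hc]
  field_simp
  ring

end Pool.Agent.N213.BM.RigX

namespace Pool.Agent.N213.BM

open RigX

theorem rig : RIG := by
  intro p q m n R G ηp ηq hp hpq hq hcop hn hm hR H1 H2 H
  have hq0 : 0 < q := hq.pos
  have hq2 : 2 ≤ q := hq.two_le
  have hqm : q ≤ m := by nlinarith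
  have hm0 : 0 < m := by omega
  have hmn0 : 0 < m * n := Nat.mul_pos hm0 (by omega)
  have hG0 : G 0 = 0 := by
    have h := H1 0 0 hm0
    simp only [mul_zero, add_zero] at h
    exact left_eq_add.1 h
  -- periodicity of `rho`
  have hper : ∀ z Z, z + 1 < n → rho m G (z + n * Z) = rho m G z := by
    intro z Z hz
    unfold rho
    have e1 : m * (z + n * Z + 1) = m * (z + 1) + m * n * Z := by ring
    have e2 : m * (z + n * Z) = m * z + m * n * Z := by ring
    have l1 : m * (z + 1) < m * n := Nat.mul_lt_mul_of_pos_left hz hm0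
    have l2 : m * z < m * n := Nat.mul_lt_mul_of_pos_left (by omega) hm0
    rw [e1, e2, H2 _ _ l1, H2 _ _ l2]
    generalize G (m * (z + 1)) = a
    generalize G (m * z) = b
    generalize G (m * n * Z) = c
    revert a b c
    decide
  obtain ⟨B, hB⟩ : ∃ B, B = ηq / (m * n) + 1 := ⟨_, rfl⟩
  have hBl : ηq < m * n * B := by
    rw [hB]
    have := Nat.lt_mul_div_succ ηq hmn0
    exact this
  have hBu : m * n * B ≤ ηq + m * n := by
    rw [hB]
    have := Nat.mul_div_le ηq (m * n)
    rw [Nat.mul_add]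
    omega
  -- the main step
  have hmain : ∀ z, z + 1 < n → rho m G z = rho m G 0 := by
    intro z hz
    have step : ∀ s : ℕ, rho m G z = rho m G 0 ∨
        ∃ K : ℕ, (q : ℤ) ∣ (K : ℤ) - s ∧ Bad p q m ηp ηq K := by
      intro s
      obtain ⟨Z, hZ1, hZ2, hZ3⟩ := choose_Z hq hcop z s B
      obtain ⟨Z', hZ1', hZ2', hZ3'⟩ := choose_Z hq hcop 0 s B
      have bnd : ∀ z Z : ℕ, z + 1 < n → B ≤ Z → Z < B + q → ηq < m * (z + n * Z + 1) ∧
          m * (z + n * Z + 1) + 1 < R + ηq := by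
        intro z Z hz hZ1 hZ2
        have e1 : m * (z + n * Z + 1) = m * (z + 1) + m * n * Z := by ring
        have l1 : m * (z + 1) < m * n := Nat.mul_lt_mul_of_pos_left hz hm0
        have l2 : m * n * B ≤ m * n * Z := Nat.mul_le_mul_left _ hZ1
        have l3 : m * n * Z ≤ m * n * (B + q) := Nat.mul_le_mul_left _ hZ2.le
        have e2 : m * n * (B + q) = m * n * B + m * n * q := by ring
        have e3 : m * n * (q + 2) = m * n * q + m * n + m * n := by ring
        rw [e1]
        constructor <;> omega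
      obtain ⟨a1, a2⟩ := bnd z Z hz hZ1 hZ2
      obtain ⟨b1, b2⟩ := bnd 0 Z' (by omega) hZ1' hZ2'
      have r1 := hper z Z hz
      have r2 := hper 0 Z' (by omega)
      rcases le_total (z + n * Z) (0 + n * Z') with hle | hle
      · have hmod : (q : ℤ) ∣ ((0 + n * Z' : ℕ) : ℤ) - ((z + n * Z : ℕ) : ℤ) := by
          have := dvd_sub hZ3' hZ3
          simpa using this
        rcases same hq0 hqm H1 H hle hmod a1 b2 with h | h
        · left
          rw [← r1, h, r2]
        · right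
          exact ⟨_, hZ3, h⟩
      · have hmod : (q : ℤ) ∣ ((z + n * Z : ℕ) : ℤ) - ((0 + n * Z' : ℕ) : ℤ) := by
          have := dvd_sub hZ3 hZ3'
          simpa using this
        rcases same hq0 hqm H1 H hle hmod b1 a2 with h | h
        · left
          rw [← r1, ← h, r2]
        · right
          exact ⟨_, hZ3', h⟩
    rcases step 0 with h | ⟨K, hK, hb⟩
    · exact h
    · rcases step 1 with h | ⟨K', hK', hb'⟩
      · exact h
      · exfalso
        have h1 := bad_mod hp hpq hq hm hb hb'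
        have h2 : (q : ℤ) ∣ 1 := by
          have h3 := dvd_sub (dvd_sub hK hK') h1
          have e : ((K : ℤ) - (0 : ℕ)) - ((K' : ℤ) - (1 : ℕ)) - ((K : ℤ) - K') = 1 := by
            push_cast
            ring
          rwa [e] at h3
        have h4 := Int.le_of_dvd one_pos h2
        omega
  intro z hz
  induction z with
  | zero => simp [hG0]
  | succ z ih =>
    have h1 := ih (by omega)
    have h2 := hmain z hz
    unfold rho at h2
    rw [mul_zero, hG0, zero_add, mul_one, h1] at h2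
    push_cast
    have e : G (m * (z + 1)) = (G (m * (z + 1)) + (z : ZMod 2) * G m) + (z : ZMod 2) * G m := by
      rw [add_assoc, CharTwo.add_self_eq_zero, add_zero]
    rw [e, h2]
    ring

end Pool.Agent.N213.BM
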