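import Mathlib
import Pool.Agent.N213.BM.Stm4

/-! # DM/RIGK: balanced blocks with few changes give cancellation (helper826) -/

set_option autoImplicit false

namespace Pool.Agent.N213.BM

open Finset Filter Topology
open Pool.Agent.N213.QP (sg)

namespace RigKX

theorem card_succ (n : ℕ) (S : ℕ → ZMod 2) (v : ZMod 2) :
    (((range (n + 1)).filter (fun a => S a = v)).card : ℝ) =
      (((range n).filter (fun a => S a = v)).card : ℝ) + if S n = v then 1 else 0 := by
  rw [range_add_one, filter_insert]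
  split_ifs with h
  · rw [card_insert_of_notMem (by simp)]
    push_cast
    ring
  · simp

theorem cards (n : ℕ) (S : ℕ → ZMod 2) :
    (((range n).filter (fun a => S a = 0)).card : ℝ) +
      (((range n).filter (fun a => S a = 1)).card : ℝ) = n := by
  induction n with
  | zero => simp
  | succ n ih =>
    rw [card_succ, card_succ]
    push_cast
    rcases Pool.Agent.N213.QP.zmod2 (S n) with h | h
    · rw [h, if_pos rfl, if_neg (by decide)]
      linarith
    · rw [h, if_neg (by decide), if_pos rfl]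
      linarith

theorem sum_sg (n : ℕ) (S : ℕ → ZMod 2) :
    ∑ a ∈ range n, sg (S a) = (((((range n).filter (fun a => S a = 0)).card : ℝ) -
      (((range n).filter (fun a => S a = 1)).card : ℝ) : ℝ) : ℂ) := by
  induction n with
  | zero => simp
  | succ n ih =>
    rw [card_succ, card_succ, sum_range_succ, ih]
    rcases Pool.Agent.N213.QP.zmod2 (S n) with h | h
    · rw [h, if_pos rfl, if_neg (by decide), Pool.Agent.N213.QP.sg_zero]
      push_cast
      ring
    · rw [h, if_neg (by decide), if_pos rfl, Pool.Agent.N213.QP.sg_one]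
      push_cast
      ring

/-- a block with both values has a small sum -/
theorem block (n : ℕ) (S : ℕ → ZMod 2) (η : ℝ) (hη : 0 ≤ η)
    (h : ∀ σ : ZMod 2, η * n ≤ (((range n).filter (fun a => S a ≠ σ)).card : ℝ)) :
    ‖∑ a ∈ range n, sg (S a)‖ ≤ (1 - η) * n := by
  rw [sum_sg, Complex.norm_real, Real.norm_eq_abs]
  have e := cards n S
  have e0 : (range n).filter (fun a => S a ≠ 0) = (range n).filter (fun a => S a = 1) := by
    refine filter_congr fun a _ => ?_
    rcases Pool.Agent.N213.QP.zmod2 (S a) with h | h <;> rw [h] <;> decide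
  have e1 : (range n).filter (fun a => S a ≠ 1) = (range n).filter (fun a => S a = 0) := by
    refine filter_congr fun a _ => ?_
    rcases Pool.Agent.N213.QP.zmod2 (S a) with h | h <;> rw [h] <;> decide
  have h0 := h 0
  have h1 := h 1
  rw [e0] at h0
  rw [e1] at h1
  have hn : (0 : ℝ) ≤ η * n := mul_nonneg hη (Nat.cast_nonneg _)
  rw [abs_le]
  constructor
  · nlinarith
  · nlinarith

theorem blocks (a k : ℕ) (F : ℕ → ℂ) :
    ∑ x ∈ range (a * k), F x = ∑ i ∈ range k, ∑ x ∈ range a, F (x + a * i) := by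
  induction k with
  | zero => simp
  | succ k ih =>
    rw [mul_add, mul_one, sum_range_add, ih, sum_range_succ]
    congr 1
    refine sum_congr rfl fun x _ => ?_
    rw [add_comm]

end RigKX

theorem rigk : CORE4 → RES4 → WIN4 → RIGK := by
  intro hC hR hW p q K δ hp hq hpq hK hq3 hδ
  by_cases hδ1 : δ ≤ 1 / 2
  swap
  · refine ⟨1, 1, one_pos, le_refl _, fun n N G hn hG hB ep eq => ?_⟩
    exfalso
    have h0 := hB.2 0
    have h1 := hB.2 1
    have e := RigKX.cards n G
    have hn' : (1 : ℝ) ≤ n := by exact_mod_cast hn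
    rw [not_le] at hδ1
    nlinarith
  have hp1 : (1 : ℝ) ≤ p := by exact_mod_cast hp.one_lt.le
  have hp0 : (0 : ℝ) < p := by linarith
  have hq0 : (0 : ℝ) < q := by exact_mod_cast hq.pos
  obtain ⟨ρ, hρ0, hρ1, hρ2⟩ : ∃ ρ : ℝ, 0 < ρ ∧ ρ ≤ δ / 2 ∧ q * ρ ≤ 1 := by
    refine ⟨min (δ / 2) (1 / q), lt_min (by positivity) (by positivity), min_le_left _ _, ?_⟩
    calc (q : ℝ) * min (δ / 2) (1 / q) ≤ q * (1 / q) :=
          mul_le_mul_of_nonneg_left (min_le_right _ _) hq0.le
      _ = 1 := by field_simp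
  obtain ⟨η, hη⟩ : ∃ η : ℝ, η = δ * ρ / (16 * p) := ⟨_, rfl⟩
  have hη0 : 0 < η := by rw [hη]; positivity
  have hη16 : δ * ρ = 16 * p * η := by rw [hη]; field_simp
  have hη1 : η ≤ 1 := by
    by_contra hc
    rw [not_le] at hc
    nlinarith
  obtain ⟨D, hD⟩ := exists_nat_gt (max (16 / (δ * ρ)) (max (4 * p / ρ) ((K + 2) / η)))
  have hδρ : 0 < δ * ρ := mul_pos hδ hρ0
  refine ⟨η, D, hη0, hη1, fun n N G hn hG hB ep eq => ?_⟩
  have hnD : (D : ℝ) ≤ n := by exact_mod_cast hn
  have hD1 : 16 / (δ * ρ) < n := lt_of_lt_of_le (lt_of_le_of_lt (le_max_left _ _) hD) hnD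
  have hD2 : 4 * p / ρ < n := lt_of_lt_of_le (lt_of_le_of_lt
    ((le_max_left _ _).trans (le_max_right _ _)) hD) hnD
  have hD3 : (K + 2) / η < n := lt_of_lt_of_le (lt_of_le_of_lt
    ((le_max_right _ _).trans (le_max_right _ _)) hD) hnD
  rw [div_lt_iff₀ hδρ] at hD1
  rw [div_lt_iff₀ hρ0] at hD2
  rw [div_lt_iff₀ hη0] at hD3
  have hn0 : (0 : ℝ) ≤ n := Nat.cast_nonneg _
  have hρn : 0 ≤ ρ * n := mul_nonneg hρ0.le hn0
  obtain ⟨w, hw⟩ : ∃ w, w = ⌊ρ * n⌋₊ := ⟨_, rfl⟩
  have hw1 : (w : ℝ) ≤ ρ * n := by rw [hw]; exact Nat.floor_le hρn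
  have hw2 : ρ * n < w + 1 := by rw [hw]; exact Nat.lt_floor_add_one _
  have hw3 : ρ * n / 2 ≤ w := by nlinarith
  have hw4 : (w : ℝ) ≤ δ / 2 * n := hw1.trans (mul_le_mul_of_nonneg_right hρ1 hn0)
  have hw5 : (8 : ℝ) ≤ δ * w := by
    have : δ * (ρ * n / 2) ≤ δ * w := mul_le_mul_of_nonneg_left hw3 hδ.le
    nlinarith
  have hw6 : 2 * p ≤ w := by
    have : (2 * p : ℝ) ≤ w := by nlinarith
    exact_mod_cast this
  have hw7 : q * w ≤ n := by
    have : (q * w : ℝ) ≤ n := by
      calc (q * w : ℝ) ≤ q * (ρ * n) := mul_le_mul_of_nonneg_left hw1 hq0.le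
        _ = q * ρ * n := by ring
        _ ≤ 1 * n := mul_le_mul_of_nonneg_right hρ2 hn0
        _ = n := one_mul _
    exact_mod_cast this
  have hp' : 0 < p := hp.pos
  have hw8 : 1 ≤ w := by omega
  obtain ⟨J, hJ⟩ : ∃ J, J + 1 = w / p := by
    have : 2 ≤ w / p := (Nat.le_div_iff_mul_le hp').2 (by omega)
    exact ⟨w / p - 1, by omega⟩
  have hJ1 : p * (J + 1) ≤ w := by rw [hJ]; exact Nat.mul_div_le _ _
  have hJ2 : w ≤ p * (J + 2) := by
    have e : J + 2 = w / p + 1 := by omega
    rw [e]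
    exact (Nat.lt_mul_div_succ w hp').le
  obtain ⟨c, hc, hcv⟩ := hW n w δ G hδ hw8 hw4 hw5 hB.2
  obtain ⟨e, he⟩ : ∃ e, e = ⌊η * n⌋₊ := ⟨_, rfl⟩
  have he1 : (e : ℝ) ≤ η * n := by rw [he]; exact Nat.floor_le (mul_nonneg hη0.le hn0)
  have he2 : η * n < e + 1 := by rw [he]; exact Nat.lt_floor_add_one _
  have hres : ∀ b, c ≤ b → b < c + p → ∀ v : ZMod 2,
      e < ((range J).filter (fun j => G (b + p * j) = v)).card := by
    intro b hb1 hb2 v
    have h := hR p n w c K J b G v hp' hc hb1 hb2 hJ1 hJ2 hB.1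
    have h' : (((range w).filter (fun z => G (c + z) = v)).card : ℝ) ≤
      p * (((range J).filter (fun j => G (b + p * j) = v)).card : ℝ) + p * K + 2 * p := by
      exact_mod_cast h
    have h2 := hcv v
    have h3 : δ / 4 * (ρ * n / 2) ≤ δ / 4 * w := mul_le_mul_of_nonneg_left hw3 (by positivity)
    have h4 : δ / 4 * (ρ * n / 2) = 2 * p * (η * n) := by
      calc δ / 4 * (ρ * n / 2) = (δ * ρ) * n / 8 := by ring
        _ = 2 * p * (η * n) := by rw [hη16]; ring
    have h5 : (p : ℝ) * (2 * (η * n)) ≤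
        p * ((((range J).filter (fun j => G (b + p * j) = v)).card : ℝ) + K + 2) := by
      nlinarith
    have h6 := le_of_mul_le_mul_left h5 hp0
    have h7 : (e : ℝ) < (((range J).filter (fun j => G (b + p * j) = v)).card : ℝ) := by
      nlinarith
    exact_mod_cast h7
  have hblock : ∀ ep' eq' : ℕ, ‖∑ a ∈ range n, sg (G (p * a + ep') + G (q * a + eq'))‖ ≤
      (1 - η) * n := by
    intro ep' eq'
    refine RigKX.block n (fun a => G (p * a + ep') + G (q * a + eq')) η hη0.le fun σ => ?_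
    have h := hC p q n w c K e J G hp hq hpq hK hc hw7 hJ1 hG hB.1 hres ep' eq' σ
    have h' : (e : ℝ) + 1 ≤
      (((range n).filter (fun a => G (p * a + ep') + G (q * a + eq') ≠ σ)).card : ℝ) := by
      exact_mod_cast h
    exact he2.le.trans h'
  rw [RigKX.blocks]
  calc ‖∑ i ∈ range N, ∑ x ∈ range n, sg (G (p * (x + n * i) + ep) + G (q * (x + n * i) + eq))‖
      ≤ ∑ i ∈ range N, (1 - η) * n := norm_sum_le_of_le _ fun i _ => by
        have h := hblock (p * n * i + ep) (q * n * i + eq)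
        have e : ∀ x, sg (G (p * (x + n * i) + ep) + G (q * (x + n * i) + eq)) =
            sg (G (p * x + (p * n * i + ep)) + G (q * x + (q * n * i + eq))) := by
          intro x
          rw [show p * (x + n * i) + ep = p * x + (p * n * i + ep) by ring,
            show q * (x + n * i) + eq = q * x + (q * n * i + eq) by ring]
        rw [sum_congr rfl fun x _ => e x]
        exact h
    _ = (1 - η) * ((n * N : ℕ) : ℝ) := by
        rw [sum_const, card_range, nsmul_eq_mul]; push_cast; ring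

end Pool.Agent.N213.BM
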