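import Pool.Agent.N213.BM.Stm4

set_option autoImplicit false

namespace Pool.Agent.N213.BM.Win4X

open Finset

/-- count in the window -/
def f (G : ℕ → ZMod 2) (w c : ℕ) (v : ZMod 2) : ℕ := ((range w).filter (fun z => G (c + z) = v)).card

theorem f_add (G : ℕ → ZMod 2) (w c : ℕ) : f G w c 0 + f G w c 1 = w := by
  unfold f
  have h : ((range w).filter (fun z => G (c + z) = 1)) = (range w).filter (fun z => ¬ G (c + z) = 0) := by
    refine filter_congr fun z _ => ?_
    have : ∀ y : ZMod 2, y = 1 ↔ ¬ y = 0 := by decide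
    exact this _
  rw [h, card_filter_add_card_filter_not, card_range]

theorem f_succ (G : ℕ → ZMod 2) (w c : ℕ) (v : ZMod 2) : f G w (c + 1) v ≤ f G w c v + 1 := by
  have h1 : f G w (c + 1) v ≤ f G (w + 1) c v := by
    unfold f
    refine card_le_card_of_injOn (fun z => z + 1) ?_ (fun a _ b _ h => by simpa using h)
    intro z hz
    simp only [coe_filter, mem_range, Set.mem_ofPred_eq] at hz ⊢
    refine ⟨by omega, ?_⟩
    rw [show c + (z + 1) = c + 1 + z by ring]
    exact hz.2
  have h2 : f G (w + 1) c v ≤ f G w c v + 1 := by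
    unfold f
    rw [range_add_one, filter_insert]
    split_ifs
    · exact (card_insert_le _ _)
    · omega
  omega

theorem f_split (G : ℕ → ZMod 2) (w w' c : ℕ) (v : ZMod 2) :
    f G (w + w') c v = f G w c v + f G w' (c + w) v := by
  unfold f
  rw [card_filter, card_filter, card_filter, sum_range_add]
  simp only [add_assoc]

/-- if all windows have few `v` -/
theorem few (G : ℕ → ZMod 2) (n w : ℕ) (v : ZMod 2) (B : ℝ) (hw : 1 ≤ w) (hB : 0 ≤ B)
    (h : ∀ c, c + w ≤ n → (f G w c v : ℝ) ≤ B * w) : (f G n 0 v : ℝ) ≤ B * n + w := by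
  have key : ∀ k, w * k ≤ n → (f G (w * k) 0 v : ℝ) ≤ B * (w * k : ℕ) := by
    intro k
    induction k with
    | zero => intro _; simp [f]
    | succ k ih =>
      intro hk
      rw [mul_add, mul_one] at hk ⊢
      rw [f_split]
      have h1 := ih (by omega)
      have h2 := h (0 + w * k) (by omega)
      push_cast at h1 ⊢
      nlinarith
  have e : n = w * (n / w) + n % w := (Nat.div_add_mod n w).symm
  have h1 := key (n / w) (Nat.mul_div_le n w)
  have h2 : f G n 0 v = f G (w * (n / w)) 0 v + f G (n % w) (0 + w * (n / w)) v := by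
    conv_lhs => rw [e]
    exact f_split _ _ _ _ _
  have h3 : f G (n % w) (0 + w * (n / w)) v ≤ w := by
    calc f G (n % w) (0 + w * (n / w)) v ≤ (range (n % w)).card := card_filter_le _ _
      _ = n % w := card_range _
      _ ≤ w := (Nat.mod_lt _ (by omega)).le
  have h4 : ((w * (n / w) : ℕ) : ℝ) ≤ n := by exact_mod_cast Nat.mul_div_le n w
  have h5 : (f G (n % w) (0 + w * (n / w)) v : ℝ) ≤ w := by exact_mod_cast h3
  rw [h2]
  push_cast at h1 h4 ⊢
  nlinarith [mul_le_mul_of_nonneg_left h4 hB]

end Pool.Agent.N213.BM.Win4X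

namespace Pool.Agent.N213.BM

open Finset Win4X

theorem win4 : WIN4 := by
  intro n w δ G hδ hw hwn h8 hbal
  have hfn : ∀ v, (f G n 0 v : ℝ) = (((range n).filter (fun z => G z = v)).card : ℝ) := by
    intro v
    unfold f
    simp only [zero_add]
  have hwr : (1 : ℝ) ≤ w := by exact_mod_cast hw
  have hadd : ∀ w c, (f G w c 0 : ℝ) + f G w c 1 = w := by
    intro w c
    exact_mod_cast f_add G w c
  have hδ2 : δ ≤ 1 / 2 := by
    have h0 := hbal 0
    have h1 := hbal 1
    rw [← hfn] at h0 h1
    have h2 := hadd n 0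
    by_contra hcon
    push Not at hcon
    have hn : (0 : ℝ) < n := by
      have : 0 < δ / 2 * (n : ℝ) := lt_of_lt_of_le (by linarith) hwn
      by_contra h'
      have : (n : ℝ) ≤ 0 := not_lt.1 h'
      nlinarith
    nlinarith
  by_contra hcon
  push Not at hcon
  have hcon' : ∀ c, c + w ≤ n → (f G w c 0 : ℝ) < δ / 4 * w ∨ (f G w c 1 : ℝ) < δ / 4 * w := by
    intro c hc
    obtain ⟨v, hv⟩ := hcon c hc
    have : v = 0 ∨ v = 1 := by
      have : ∀ v : ZMod 2, v = 0 ∨ v = 1 := by decide
      exact this v
    rcases this with rfl | rfl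
    · exact Or.inl hv
    · exact Or.inr hv
  have prop : ∀ v v' : ZMod 2, (∀ w c, (f G w c v : ℝ) + f G w c v' = w) →
      (f G w 0 v : ℝ) < δ / 4 * w → ∀ c, c + w ≤ n → (f G w c v : ℝ) < δ / 4 * w := by
    intro v v' hvv h0 c
    induction c with
    | zero => intro _; exact h0
    | succ c ih =>
      intro hc
      have h1 := ih (by omega)
      have h2 : (f G w (c + 1) v : ℝ) ≤ f G w c v + 1 := by exact_mod_cast f_succ G w c v
      have h3 := hvv w (c + 1)
      have h4 : (f G w (c + 1) v : ℝ) < δ / 4 * w ∨ (f G w (c + 1) v' : ℝ) < δ / 4 * w := by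
        obtain ⟨u, hu⟩ := hcon (c + 1) hc
        have : u = v ∨ u = v' := by
          by_contra hne
          push Not at hne
          -- impossible: v and v' are the two elements
          have hall : ∀ u v v' : ZMod 2, u ≠ v → u ≠ v' → v = v' := by decide
          have e := hall u v v' hne.1 hne.2
          have h5 := hvv 1 0
          rw [← e] at h5
          have h6 : (f G 1 0 v : ℝ) = 0 ∨ (f G 1 0 v : ℝ) = 1 := by
            unfold f
            rw [range_one, filter_singleton]
            split_ifs <;> simp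
          rcases h6 with h6 | h6 <;> rw [h6] at h5 <;> norm_num at h5
        rcases this with rfl | rfl
        · exact Or.inl hu
        · exact Or.inr hu
      rcases h4 with h4 | h4
      · exact h4
      · exfalso
        nlinarith
  have fin : ∀ v v' : ZMod 2, (∀ w c, (f G w c v : ℝ) + f G w c v' = w) →
      ¬ (f G w 0 v : ℝ) < δ / 4 * w := by
    intro v v' hvv h0
    have h1 := few G n w v (δ / 4) hw (by positivity) fun c hc => (prop v v' hvv h0 c hc).le
    have h2 := hbal v
    rw [← hfn] at h2
    have hn : (0 : ℝ) < n := by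
      by_contra h'
      have h3 : (n : ℝ) ≤ 0 := not_lt.1 h'
      nlinarith
    nlinarith
  have hwn' : 0 + w ≤ n := by
    have : (w : ℝ) ≤ n := by
      have hn0 : (0 : ℝ) ≤ n := Nat.cast_nonneg _
      nlinarith
    have h1 : w ≤ n := by exact_mod_cast this
    omega
  rcases hcon' 0 hwn' with h | h
  · exact fin 0 1 hadd h
  · exact fin 1 0 (fun w c => by rw [add_comm]; exact hadd w c) h

end Pool.Agent.N213.BM
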