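import Pool.Agent.N213.BM.Stm2
import Pool.Agent.N213.BM.Words

/-! # Project BM: functions of `H` consecutive values (adapted from Words.lean, helper545) -/

set_option autoImplicit false

namespace Pool.Agent.N213.BM

open Finset
open Pool.Agent.N213.QP (sg sg_add sg_zero sg_one norm_sg zmod2)

open WordsX in
/-- `WORDS2` from `PER` and `MAIN2` -/
theorem words2 (hper : PER) (hmain : MAIN2) : WORDS2 := by
  classical
  intro L g hL hg hH H ε hε
  obtain ⟨T, hT⟩ : ∃ T : ℕ, 8 * (H : ℝ) / ε ≤ L T := by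
    obtain ⟨k, hk⟩ := pow_unbounded_of_one_lt (8 * (H : ℝ) / ε) (one_lt_two)
    refine ⟨k, hk.le.trans ?_⟩
    exact_mod_cast Sc_pow hL k
  obtain ⟨M, hM⟩ : ∃ M, M = L T := ⟨_, rfl⟩
  have hp : 0 < M := by
    rw [hM]
    exact lt_of_lt_of_le (by positivity) (Sc_pow hL T)
  have hp' : (0 : ℝ) < M := by exact_mod_cast hp
  -- the indicator functions of the residue classes
  let χ : ℕ → ℕ → ℂ := fun ρ m => if m % M = ρ then 1 else 0
  have hχ1 : ∀ ρ n, χ ρ (n + L T) = χ ρ n := by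
    intro ρ n
    simp only [χ]
    rw [← hM, Nat.add_mod_right]
  have hχ2 : ∀ ρ n, ‖χ ρ n‖ ≤ 1 := by
    intro ρ n
    simp only [χ]
    split_ifs <;> simp
  have hε₁ : 0 < ε / 4 / M := by positivity
  choose N₁ hN₁ using fun ρ : ℕ => hmain L g hL hg hH T (χ ρ) (hχ1 ρ) (hχ2 ρ) (ε / 4 / M) hε₁
  obtain ⟨N₀, hN₀⟩ := hper M hp (ε / 4) (by positivity)
  obtain ⟨N₂, hN₂⟩ := exists_nat_ge (16 * (H : ℝ) / ε)
  refine ⟨max N₀ (max N₂ ((range M).sup N₁)), fun N hN c Φ hΦ => ?_⟩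
  have hN0 : N₀ ≤ N := le_trans (le_max_left _ _) hN
  have hN2 : N₂ ≤ N := le_trans (le_trans (le_max_left _ _) (le_max_right _ _)) hN
  have hN1 : ∀ ρ ∈ range M, N₁ ρ ≤ N := fun ρ hρ =>
    le_trans (le_trans (Finset.le_sup hρ) (le_trans (le_max_right _ _) (le_max_right _ _))) hN
  -- the functions of the residue
  let A : ZMod 2 → ℕ → ℂ := fun e ρ => Φ fun i => e + (g (ρ + i) + g ρ)
  have hA : ∀ e ρ, ‖A e ρ‖ ≤ 1 := fun e ρ => hΦ _
  let ψ₀ : ℕ → ℂ := fun m => (A 0 (m % M) + A 1 (m % M)) / 2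
  let ψ₁ : ℕ → ℂ := fun m => (A 0 (m % M) - A 1 (m % M)) / 2
  have hψ₀ : ∀ m, ‖ψ₀ m‖ ≤ 1 := by
    intro m
    simp only [ψ₀]
    rw [norm_div, Complex.norm_ofNat, div_le_one (by norm_num)]
    refine (norm_add_le _ _).trans ?_
    have := hA 0 (m % M)
    have := hA 1 (m % M)
    linarith
  have hψ₁ : ∀ m, ‖ψ₁ m‖ ≤ 1 := by
    intro m
    simp only [ψ₁]
    rw [norm_div, Complex.norm_ofNat, div_le_one (by norm_num)]
    refine (norm_sub_le _ _).trans ?_
    have := hA 0 (m % M)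
    have := hA 1 (m % M)
    linarith
  have hsplit : ∀ m, A (g m) (m % M) = ψ₀ m + ψ₁ m * sg (g m) := by
    intro m
    simp only [ψ₀, ψ₁]
    rcases zmod2 (g m) with h | h <;> rw [h]
    · rw [sg_zero]; ring
    · rw [sg_one]; ring
  have hgood : ∀ m, m % M + H ≤ M → A (g m) (m % M) = Φ fun i => g (m + i) := by
    intro m hm
    simp only [A]
    congr 1
    funext i
    have h1 : m % L T + (i : ℕ) < L T := by
      rw [← hM]
      have := i.2
      omega
    rw [g_shift hg h1, hM]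
  have hmu : ∀ n : ℕ, ‖((ArithmeticFunction.moebius n : ℤ) : ℂ)‖ ≤ 1 := by
    intro n
    rw [Complex.norm_intCast]
    exact_mod_cast ArithmeticFunction.abs_moebius_le_one
  have hH0 : (0 : ℝ) ≤ H := Nat.cast_nonneg _
  have hNR : (0 : ℝ) ≤ N := Nat.cast_nonneg _
  -- the bad integers
  have hdiff : ‖∑ n ∈ Ioc 0 N, ((ArithmeticFunction.moebius n : ℤ) : ℂ) *
      (Φ (fun i => g (n + c + i)) - A (g (n + c)) ((n + c) % M))‖ ≤
        2 * ((N / M + 2 : ℕ) * H) := by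
    refine (norm_sum_le_of_le _ (fun n _ => ?_) (n := fun n =>
      if ¬ ((n + c) % M + H ≤ M) then (2 : ℝ) else 0)).trans ?_
    · rw [norm_mul]
      by_cases hgd : (n + c) % M + H ≤ M
      · rw [if_neg (not_not.2 hgd), hgood _ hgd, sub_self, norm_zero, mul_zero]
      · rw [if_pos hgd]
        refine (mul_le_of_le_one_left (norm_nonneg _) (hmu n)).trans ?_
        refine (norm_sub_le _ _).trans ?_
        have := hΦ fun i => g (n + c + i)
        have := hA (g (n + c)) ((n + c) % M)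
        linarith
    · rw [← Finset.sum_filter, Finset.sum_const, nsmul_eq_mul]
      have h1 : ((((Ioc 0 N).filter fun n => ¬ ((n + c) % M + H ≤ M)).card : ℕ) : ℝ) ≤
          (((N / M + 2) * H : ℕ) : ℝ) := by exact_mod_cast bad_card M H c N hp
      push_cast at h1 ⊢
      linarith
  have hb : (2 : ℝ) * (((N / M + 2 : ℕ) : ℝ) * H) ≤ ε / 2 * N := by
    have h1 : ((N / M + 2 : ℕ) : ℝ) ≤ N / M + 2 := by
      push_cast
      have := Nat.cast_div_le (α := ℝ) (m := N) (n := M)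
      linarith
    have h3 : (H : ℝ) * (N / M) ≤ ε / 8 * N := by
      rw [mul_div_assoc', div_le_iff₀ hp']
      rw [div_le_iff₀ hε, ← hM] at hT
      have : (H : ℝ) ≤ ε / 8 * M := by linarith
      calc (H : ℝ) * N ≤ ε / 8 * M * N := mul_le_mul_of_nonneg_right this hNR
        _ = _ := by ring
    have h4 : 16 * (H : ℝ) ≤ ε * N := by
      rw [div_le_iff₀ hε] at hN₂
      have : (N₂ : ℝ) ≤ N := by exact_mod_cast hN2
      nlinarith
    calc (2 : ℝ) * (((N / M + 2 : ℕ) : ℝ) * H) ≤ 2 * ((N / M + 2) * H) := by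
          gcongr
      _ = 2 * (H * (N / M)) + 4 * H := by ring
      _ ≤ _ := by linarith
  -- the periodic part
  have hP := hN₀ N hN0 (fun n => ψ₀ (n + c)) (by
    intro n
    simp only [ψ₀]
    rw [add_right_comm, Nat.add_mod_right]) (fun n => hψ₀ _)
  -- the main part
  have hQ : ‖∑ n ∈ Ioc 0 N, ((ArithmeticFunction.moebius n : ℤ) : ℂ) *
      (ψ₁ (n + c) * sg (g (n + c)))‖ ≤ ε / 4 * N := by
    have h1 : ∀ m, ψ₁ m = ∑ ρ ∈ range M, ψ₁ ρ * χ ρ m := by
      intro m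
      have hm : m % M < M := Nat.mod_lt _ hp
      rw [Finset.sum_eq_single (m % M)]
      · simp only [χ, ψ₁, if_true, mul_one, Nat.mod_mod]
      · intro ρ _ hρ
        simp only [χ]
        rw [if_neg (fun h => hρ h.symm), mul_zero]
      · intro h
        exact absurd (mem_range.2 hm) h
    have h2 : ∑ n ∈ Ioc 0 N, ((ArithmeticFunction.moebius n : ℤ) : ℂ) *
        (ψ₁ (n + c) * sg (g (n + c))) = ∑ ρ ∈ range M, ψ₁ ρ *
          ∑ n ∈ Ioc 0 N, ((ArithmeticFunction.moebius n : ℤ) : ℂ) *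
            (χ ρ (n + c) * sg (g (n + c))) := by
      have h3 : ∀ n ∈ Ioc 0 N, ((ArithmeticFunction.moebius n : ℤ) : ℂ) *
          (ψ₁ (n + c) * sg (g (n + c))) = ∑ ρ ∈ range M, ψ₁ ρ *
            (((ArithmeticFunction.moebius n : ℤ) : ℂ) * (χ ρ (n + c) * sg (g (n + c)))) := by
        intro n _
        rw [h1 (n + c), Finset.sum_mul, Finset.mul_sum]
        refine Finset.sum_congr rfl fun ρ _ => ?_
        ring
      rw [Finset.sum_congr rfl h3, Finset.sum_comm]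
      refine Finset.sum_congr rfl fun ρ _ => ?_
      exact (Finset.mul_sum _ _ _).symm
    rw [h2]
    refine (norm_sum_le_of_le _ (fun ρ hρ => ?_) (n := fun _ => ε / 4 / M * N)).trans ?_
    · rw [norm_mul]
      exact (mul_le_of_le_one_left (norm_nonneg _) (hψ₁ ρ)).trans (hN₁ ρ N (hN1 ρ hρ) c)
    · rw [Finset.sum_const, card_range, nsmul_eq_mul]
      apply le_of_eq
      field_simp
  have hsum : ∑ n ∈ Ioc 0 N, ((ArithmeticFunction.moebius n : ℤ) : ℂ) *
      Φ (fun i => g (n + c + i)) = ∑ n ∈ Ioc 0 N, ((ArithmeticFunction.moebius n : ℤ) : ℂ) *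
      (Φ (fun i => g (n + c + i)) - A (g (n + c)) ((n + c) % M)) +
      (∑ n ∈ Ioc 0 N, ((ArithmeticFunction.moebius n : ℤ) : ℂ) * ψ₀ (n + c) +
        ∑ n ∈ Ioc 0 N, ((ArithmeticFunction.moebius n : ℤ) : ℂ) *
          (ψ₁ (n + c) * sg (g (n + c)))) := by
    rw [← Finset.sum_add_distrib, ← Finset.sum_add_distrib]
    refine Finset.sum_congr rfl fun n _ => ?_
    rw [hsplit (n + c)]
    ring
  rw [hsum]
  refine (norm_add_le _ _).trans ?_
  have h6 := hdiff.trans hb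
  have h7 := norm_add_le (∑ n ∈ Ioc 0 N, ((ArithmeticFunction.moebius n : ℤ) : ℂ) * ψ₀ (n + c))
    (∑ n ∈ Ioc 0 N, ((ArithmeticFunction.moebius n : ℤ) : ℂ) * (ψ₁ (n + c) * sg (g (n + c))))
  linarith

end Pool.Agent.N213.BM
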